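import Pool.Agent.H36.IS2.Tab2

/-!
# ISP NumD: the main constant

log(v'/v) ≤ (v' - v)(1/v + 1/v')/2 for v' ≥ v > 0 (convexity of 1/t; or: 2 log u ≤ u - 1/u for u ≥ 1).  With v_k = 1 + 0.16 k the sum
∑_{k<17} (0.16) (1/v_k + 1/v_{k+1})/2 · FT k/10^5 = 1.60347.., half of it 0.80173: 0.9978 - 0.80173.. = 0.19607.
Rational arithmetic (norm_num [FT, Finset.sum_range_succ], or integers with decide +kernel).
-/

set_option autoImplicit false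

namespace Pool.Agent.H36.IS2

open Finset Filter Pool.Agent.H36.IS

private theorem NumD_log (u : ℝ) (hu : 1 ≤ u) : Real.log u ≤ (u - u⁻¹) / 2 := by
  have h0 : 0 < u := by linarith
  have h := Real.self_le_sinh_iff.2 (Real.log_nonneg hu)
  rw [Real.sinh_eq, Real.exp_neg, Real.exp_log h0] at h
  exact h

private theorem NumD_term (k : ℕ) : Real.log ((1 + 0.16 * ((k : ℝ) + 1)) / (1 + 0.16 * (k : ℝ))) ≤
    0.08 * (1 / (1 + 0.16 * (k : ℝ)) + 1 / (1 + 0.16 * ((k : ℝ) + 1))) := by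
  have hk : (0 : ℝ) ≤ k := Nat.cast_nonneg k
  have h1 : (0 : ℝ) < 1 + 0.16 * (k : ℝ) := by positivity
  have h2 : (0 : ℝ) < 1 + 0.16 * ((k : ℝ) + 1) := by positivity
  have h3 : 1 ≤ (1 + 0.16 * ((k : ℝ) + 1)) / (1 + 0.16 * (k : ℝ)) := by
    rw [le_div_iff₀ h1]
    linarith
  refine (NumD_log _ h3).trans (le_of_eq ?_)
  rw [inv_div]
  field_simp
  ring

theorem numD : (0.19605 : ℝ) ≤ 0.9978 - 1 / 2 * ∑ k ∈ range 17,
    Real.log ((1 + 0.16 * ((k : ℝ) + 1)) / (1 + 0.16 * (k : ℝ))) * ((FT k : ℝ) / 10 ^ 5) := by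
  have h1 : ∑ k ∈ range 17, Real.log ((1 + 0.16 * ((k : ℝ) + 1)) / (1 + 0.16 * (k : ℝ))) * ((FT k : ℝ) / 10 ^ 5) ≤
      ∑ k ∈ range 17, 0.08 * (1 / (1 + 0.16 * (k : ℝ)) + 1 / (1 + 0.16 * ((k : ℝ) + 1))) * ((FT k : ℝ) / 10 ^ 5) :=
    Finset.sum_le_sum fun k _ => mul_le_mul_of_nonneg_right (NumD_term k) (by positivity)
  have h2 : ∑ k ∈ range 17, 0.08 * (1 / (1 + 0.16 * (k : ℝ)) + 1 / (1 + 0.16 * ((k : ℝ) + 1))) * ((FT k : ℝ) / 10 ^ 5) ≤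
      2 * (0.9978 - 0.19605) := by
    norm_num [FT, Finset.sum_range_succ]
  linarith

end Pool.Agent.H36.IS2
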