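import Pool.Agent.H36.IS2.Defs2

/-!
# ISP QArr: the array ∑_q [q] c_q

Qs, P' disjoint subsets of P, cq q supported on subsets of P'.  A set T contributes to `qarr` only if T = insert q T' with T' ⊆ P' and q ∈ Qs, q is the
only element of T in Qs.  So ev (qarr) P y = ∑_{q ∈ Qs} y q · ev (cq q) P y.
-/

set_option autoImplicit false

namespace Pool.Agent.H36.IS2

open Finset Filter Pool.Agent.H36.IS

open Pool.Agent.H91.PK (ev)

theorem qarr_ev {P Qs P' : Finset ℕ} (hQ : Qs ⊆ P) (hP' : P' ⊆ P) (hd : Disjoint Qs P') {cq : ℕ → Finset ℕ → ℝ}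
    (hc : ∀ q ∈ Qs, ∀ T, cq q T ≠ 0 → T ⊆ P') (y : ℕ → ℝ) :
    ev (qarr Qs cq) P y = ∑ q ∈ Qs, y q * ev (cq q) P y := by
  have h1 : ev (qarr Qs cq) P y = ∑ q ∈ Qs, ∑ T ∈ P.powerset,
      (if q ∈ T then cq q (T.erase q) else 0) * ∏ p ∈ T, y p := by
    rw [Finset.sum_comm]
    unfold ev qarr
    refine Finset.sum_congr rfl fun T _ => ?_
    rw [Finset.sum_mul]
  rw [h1]
  refine Finset.sum_congr rfl fun q hq => ?_
  unfold ev
  have hins : insert q (P.erase q) = P := Finset.insert_erase (hQ hq)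
  have hnot : q ∉ P.erase q := Finset.notMem_erase q P
  rw [← hins, Finset.sum_powerset_insert hnot, Finset.sum_powerset_insert hnot]
  have e1 : ∑ t ∈ (P.erase q).powerset, (if q ∈ t then cq q (t.erase q) else 0) * ∏ p ∈ t, y p = 0 := by
    refine Finset.sum_eq_zero fun t ht => ?_
    rw [Finset.mem_powerset] at ht
    rw [if_neg (fun h => hnot (ht h)), zero_mul]
  have e2 : ∑ t ∈ (P.erase q).powerset, cq q (insert q t) * ∏ p ∈ insert q t, y p = 0 := by
    refine Finset.sum_eq_zero fun t _ => ?_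
    have h3 : cq q (insert q t) = 0 := by
      by_contra h4
      have h5 := hc q hq _ h4 (Finset.mem_insert_self q t)
      exact (Finset.disjoint_left.1 hd hq) h5
    rw [h3, zero_mul]
  rw [e1, e2, zero_add, add_zero, Finset.mul_sum]
  refine Finset.sum_congr rfl fun t ht => ?_
  rw [Finset.mem_powerset] at ht
  have hqt : q ∉ t := fun h => hnot (ht h)
  rw [if_pos (Finset.mem_insert_self q t), Finset.erase_insert hqt, Finset.prod_insert hqt]
  ring

theorem qarr_sup {Qs P' : Finset ℕ} (hd : Disjoint Qs P') {cq : ℕ → Finset ℕ → ℝ}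
    (hc : ∀ q ∈ Qs, ∀ T, cq q T ≠ 0 → T ⊆ P') (T : Finset ℕ) (hT : qarr Qs cq T ≠ 0) :
    ∃ q ∈ Qs, q ∈ T ∧ cq q (T.erase q) ≠ 0 ∧ qarr Qs cq T = cq q (T.erase q) := by
  have h1 : ∃ q ∈ Qs, (if q ∈ T then cq q (T.erase q) else 0) ≠ 0 := by
    by_contra hcon
    push Not at hcon
    exact hT (Finset.sum_eq_zero hcon)
  obtain ⟨q, hq, h2⟩ := h1
  have hqT : q ∈ T := by
    by_contra h3
    rw [if_neg h3] at h2
    exact h2 rfl
  rw [if_pos hqT] at h2
  refine ⟨q, hq, hqT, h2, ?_⟩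
  unfold qarr
  rw [Finset.sum_eq_single q]
  · rw [if_pos hqT]
  · intro q' hq' hne
    rw [if_neg]
    intro h3
    have h4 : q' ∈ T.erase q := Finset.mem_erase.2 ⟨hne, h3⟩
    exact (Finset.disjoint_left.1 hd hq') (hc q hq _ h2 h4)
  · intro h3
    exact absurd hq h3

theorem qarr_bd {Qs P' : Finset ℕ} (hd : Disjoint Qs P') {cq : ℕ → Finset ℕ → ℝ}
    (hc : ∀ q ∈ Qs, ∀ T, cq q T ≠ 0 → T ⊆ P') (hb : ∀ q ∈ Qs, ∀ T, |cq q T| ≤ 1) (T : Finset ℕ) : |qarr Qs cq T| ≤ 1 := by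
  by_cases hT : qarr Qs cq T = 0
  · rw [hT, abs_zero]
    norm_num
  · obtain ⟨q, hq, _, _, h⟩ := qarr_sup hd hc T hT
    rw [h]
    exact hb q hq _

end Pool.Agent.H36.IS2
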