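import Pool.Agent.H36.IS.SD
import Pool.Agent.H91.PK.SvD
import Pool.Agent.H76.ISE.Defs

/-!
# Project ISP (MP_3532bd_nt): prime for i ≤ j, product of at most two primes for i > j: definitions

The lower triangle is treated by signed sieve functions and a variance argument.  For a component i and an integer
m = n + h i, the function is Φ x m = [no p ∈ PZ x δ divides m] (evD (PX x) cA m - evD (PX x) cB m), with two arrays cA, cB on the
primes > x^δ whose values are nonnegative; Ψ is the positive part of Φ outside R.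
-/

set_option autoImplicit false

namespace Pool.Agent.H36.IS2

open Finset Filter Pool.Agent.H36.IS

open Pool.Agent.H91.PK (ev Vg ZO Wt Up Lo g1)

/-- primes in `(e^2400, z]` -/
def BigP2 (z : ℝ) (P : Finset ℕ) : Prop := ∀ p ∈ P, p.Prime ∧ Real.exp 2400 < p ∧ (p : ℝ) ≤ z

/-- one-dimensional upper sieve function bound at `s`, primes `> e^2400` -/
def U2 (s F : ℝ) : Prop := ∀ z : ℝ, 1 ≤ z → ∀ P, BigP2 z P → Up g1 P (z ^ s) (F * Vg g1 P)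

/-- one-dimensional lower sieve function bound at `s`, primes `> e^2400` -/
def L2 (s f : ℝ) : Prop := ∀ z : ℝ, 1 ≤ z → ∀ P, BigP2 z P → Lo g1 P (z ^ s) (f * Vg g1 P)

/-- value of the array `c` at the integer `m` -/
noncomputable def evD (P : Finset ℕ) (c : Finset ℕ → ℝ) (m : ℕ) : ℝ := ev c P (fun p => if p ∣ m then 1 else 0)

/-- main value of the array `c` -/
noncomputable def evM (P : Finset ℕ) (c : Finset ℕ → ℝ) : ℝ := ev c P (fun p => 1 / (p : ℝ))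

/-- `∏_{x^δ < p ≤ x^ζ} (1 - 1/p)` -/
noncomputable def V2 (x : ℕ) (δ ζ : ℝ) : ℝ := ∏ p ∈ PZ x ζ \ PZ x δ, (1 - 1 / (p : ℝ))

/-- arrays of level `D` on the primes `> x^δ` with nonnegative values -/
def ArrN (x : ℕ) (δ D : ℝ) (c : Finset ℕ → ℝ) : Prop :=
  (∀ T, |c T| ≤ 3 ∧ (c T ≠ 0 → T ⊆ PX x ∧ (∀ p ∈ T, (x : ℝ) ^ δ < p) ∧ ∏ p ∈ T, (p : ℝ) ≤ D)) ∧
    (∀ m, 0 ≤ evD (PX x) c m) ∧ 0 ≤ evM (PX x) c

/-- at most two prime factors (with multiplicity), all of them larger than the twelfth root -/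
def R12 (m : ℕ) : Prop := m.primeFactorsList.length ≤ 2 ∧ ∀ p : ℕ, p.Prime → p ∣ m → m < p ^ 12

/-- transport of an array on sets of primes to the component `i` -/
noncomputable def trc {ι : Type} [DecidableEq ι] (i : ι) (c : Finset ℕ → ℝ) : Finset (ι × ℕ) → ℝ := fun Q =>
  open Classical in if ∀ e ∈ Q, e.1 = i then c (Q.image Prod.snd) else 0

/-- the sum over `q ∈ Qs` of the arrays `cq q`, each multiplied by the event of `q` -/
noncomputable def qarr (Qs : Finset ℕ) (cq : ℕ → Finset ℕ → ℝ) : Finset ℕ → ℝ := fun T =>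
  ∑ q ∈ Qs, if q ∈ T then cq q (T.erase q) else 0

/-- the cofactors `p₁ p₂` with `x^ζ < p₁ ≤ x^η < p₂`, `p₁ p₂² ≤ 3 x` -/
noncomputable def SL (x : ℕ) (ζ η : ℝ) : Finset ℕ :=
  (((range (3 * x + 1)).filter (fun p : ℕ => p.Prime ∧ (x : ℝ) ^ ζ < p ∧ (p : ℝ) ≤ (x : ℝ) ^ η) ×ˢ
    (range (3 * x + 1)).filter (fun p : ℕ => p.Prime ∧ (x : ℝ) ^ η < p)).filter
      (fun pq : ℕ × ℕ => pq.1 * pq.2 ^ 2 ≤ 3 * x)).image (fun pq : ℕ × ℕ => pq.1 * pq.2)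

open Classical in
/-- the data of a signed sieve function `Φ` with loss `Ψ`: `t` bounds the loss relative to the mean, `e` the variance -/
def PhiData (R : ℕ → Prop) (δ θ t e : ℝ) : Prop :=
  ∃ (Φ Ψ : ℕ → ℕ → ℝ) (l q1 q2 : ℕ → ℝ) (c' C : ℝ), 0 < c' ∧ 0 < C ∧ (∀ x m, 0 ≤ Ψ x m) ∧
    (∀ᶠ x : ℕ in atTop, c' ≤ l x * tau x ∧ 0 ≤ q1 x ∧ q1 x * tau x ≤ C ∧ 0 ≤ q2 x ∧ q2 x ≤ (1 + e) * l x ^ 2) ∧
    (∀ s : ℕ, ∀ᶠ x : ℕ in atTop, ∀ m : ℕ, x < m → m ≤ 2 * x + s → ¬ R m → Φ x m ≤ Ψ x m) ∧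
    ∀ (ι : Type) (_ : Fintype ι) (_ : DecidableEq ι) (h : ι → ℕ) (W b : ℕ), Good h W b → ∀ (K : ℝ) (A : ℕ),
      ∀ᶠ x : ℕ in atTop, ∀ y : Finset (ι × ℕ) → ℝ, Yok x δ θ K y →
        (∀ i, Mn ι W x * l x * My ι x δ (pr (Si x δ i) (fo gi) y) - x / Real.log x ^ A ≤
            ∑ n ∈ AA h W b x, Ly h x δ y n ^ 2 * Φ x (n + h i) ∧
          ∑ n ∈ AA h W b x, Ly h x δ y n ^ 2 * Φ x (n + h i) ^ 2 ≤
            Mn ι W x * q1 x * My ι x δ (pr (Si x δ i) (fo gi) y) + x / Real.log x ^ A ∧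
          ∑ n ∈ AA h W b x, Ly h x δ y n ^ 2 * Ψ x (n + h i) ≤
            Mn ι W x * (t * l x) * My ι x δ (pr (Si x δ i) (fo gi) y) + x / Real.log x ^ A) ∧
        (∀ i j, i ≠ j →
          ∑ n ∈ AA h W b x, Ly h x δ y n ^ 2 * (Φ x (n + h i) * Φ x (n + h j)) ≤
            Mn ι W x * q2 x * My ι x δ (pr (Si x δ i ∪ Si x δ j) (fo gi) y) + x / Real.log x ^ A)

end Pool.Agent.H36.IS2
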