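import Pool.Agent.H36.IS.Wts
import Pool.Agent.H36.IS.MCa
import Pool.Agent.H36.IS2.Defs2

/-!
# ISP WtZ: weights on the primes in (x^δ, x^ζ] (sets of primes, no component)

As in Pool/Agent/H36/IS/Wts.lean (copy the private lemmas): P = PZ x ζ \ PZ x δ (primes in (x^δ, x^ζ]), z = x^ζ, `BigP2 z P` since x^δ > e^2400 for
large x; L2 (resp. U2) gives c with |c| ≤ 1, supported on T ⊆ P, ∏ ≤ z^s = x^(ζ s), ev c P y ≤ Vg y P on 0/1 vectors, f Vg g1 P ≤ ev c P g1.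
evD (PX x) c m = ev c P ([p ∣ m]) (`SvA_ev_superset` or the support), Vg ([p ∣ m]) P = [no p ∈ P divides m].
Change of the density g1 = 1/(p-1) to 1/p: all primes of P are > x^δ, |∏_{T} 1/(p-1) - ∏_T 1/p| ≤ tiny ∏_T 1/(p-1) (`fn_gi` with ι = Unit, or
directly: ∏ (1 + 1/(p-1)) - 1 ≤ ..), ∑_T ∏_T 1/(p-1) ≤ C (`mert_cell`, as log(ζ/δ) is a constant: ∏_{P}(1 + 1/(p-1)) ≤ exp(∑) ), V2 x δ ζ ≥ c > 0
and Vg g1 P ≥ (1 - tiny) V2.
`V2_pos`: V2 is bounded below: ∏ (1 - 1/p) ≥ exp(-2∑ 1/p) ≥ exp(-2(log(ζ/δ)+1)).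
-/

set_option autoImplicit false

namespace Pool.Agent.H36.IS2

open Finset Filter Pool.Agent.H36.IS

open Pool.Agent.H91.PK (ev Vg ZO Wt g1)

private theorem WtZ_affine (c : Finset ℕ → ℝ) (P : Finset ℕ) (g : ℕ → ℝ) (a : ℕ) :
    ev c P g = g a * ev c P (Function.update g a 1) +
      (1 - g a) * ev c P (Function.update g a 0) := by
  unfold ev
  rw [Finset.mul_sum, Finset.mul_sum, ← Finset.sum_add_distrib]
  refine Finset.sum_congr rfl fun T _ => ?_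
  by_cases h : a ∈ T
  · have h1 : ∀ v : ℝ, ∏ p ∈ T, Function.update g a v p = v * ∏ p ∈ T.erase a, g p := by
      intro v
      rw [← Finset.mul_prod_erase T _ h, Function.update_self]
      congr 1
      exact Finset.prod_congr rfl fun p hp => Function.update_of_ne (Finset.ne_of_mem_erase hp) _ _
    rw [h1, h1, ← Finset.mul_prod_erase T g h]
    ring
  · have h1 : ∀ v : ℝ, ∏ p ∈ T, Function.update g a v p = ∏ p ∈ T, g p := by
      intro v
      refine Finset.prod_congr rfl fun p hp => Function.update_of_ne ?_ _ _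
      rintro rfl
      exact h hp
    rw [h1, h1]
    ring

private theorem WtZ_nonneg_aux (c : Finset ℕ → ℝ) (P : Finset ℕ) (h : ∀ y, ZO y → 0 ≤ ev c P y)
    (A : Finset ℕ) : ∀ g : ℕ → ℝ, (∀ p ∈ A, 0 ≤ g p ∧ g p ≤ 1) →
      (∀ p, p ∉ A → g p = 0 ∨ g p = 1) → 0 ≤ ev c P g := by
  induction A using Finset.induction_on with
  | empty =>
    intro g _ hg
    exact h g (fun p => hg p (Finset.notMem_empty p))
  | insert a A ha ih =>
    intro g hg1 hg2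
    rw [WtZ_affine c P g a]
    have h1 := hg1 a (mem_insert_self a A)
    have h2 : ∀ v : ℝ, v = 0 ∨ v = 1 → 0 ≤ ev c P (Function.update g a v) := by
      intro v hv
      apply ih
      · intro p hp
        have hne : p ≠ a := by
          rintro rfl
          exact ha hp
        rw [Function.update_of_ne hne]
        exact hg1 p (mem_insert_of_mem hp)
      · intro p hp
        by_cases e : p = a
        · subst e
          rw [Function.update_self]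
          exact hv
        · rw [Function.update_of_ne e]
          apply hg2
          rw [mem_insert, not_or]
          exact ⟨e, hp⟩
    have h3 := mul_nonneg h1.1 (h2 1 (Or.inr rfl))
    have h4 := mul_nonneg (by linarith : 0 ≤ 1 - g a) (h2 0 (Or.inl rfl))
    linarith

private theorem WtZ_ev_congr (c : Finset ℕ → ℝ) (P : Finset ℕ) {g g' : ℕ → ℝ}
    (h : ∀ p ∈ P, g p = g' p) : ev c P g = ev c P g' := by
  unfold ev
  refine Finset.sum_congr rfl fun T hT => ?_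
  congr 1
  exact Finset.prod_congr rfl fun p hp => h p (mem_powerset.mp hT hp)

private theorem WtZ_nonneg (c : Finset ℕ → ℝ) (P : Finset ℕ) (h : ∀ y, ZO y → 0 ≤ ev c P y)
    (g : ℕ → ℝ) (hg : ∀ p ∈ P, 0 ≤ g p ∧ g p ≤ 1) : 0 ≤ ev c P g := by
  classical
  rw [WtZ_ev_congr c P (g' := fun p => if p ∈ P then g p else 0)
    (fun p hp => by simp only [hp, if_true])]
  apply WtZ_nonneg_aux c P h P
  · intro p hp
    simp only [hp, if_true]
    exact hg p hp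
  · intro p hp
    left
    simp only [hp, if_false]

private theorem WtZ_prod_ge (P : Finset ℕ) (a : ℕ → ℝ) (ha : ∀ p ∈ P, 0 ≤ a p ∧ a p ≤ 1) :
    1 - ∑ p ∈ P, a p ≤ ∏ p ∈ P, (1 - a p) := by
  classical
  induction P using Finset.induction_on with
  | empty => simp
  | insert q P hq ih =>
    rw [Finset.sum_insert hq, Finset.prod_insert hq]
    have h1 := ha q (mem_insert_self q P)
    have h2 := ih (fun p hp => ha p (mem_insert_of_mem hp))
    have h3 : ∏ p ∈ P, (1 - a p) ≤ 1 :=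
      Finset.prod_le_one (fun p hp => by linarith [(ha p (mem_insert_of_mem hp)).2])
        (fun p hp => by linarith [(ha p (mem_insert_of_mem hp)).1])
    nlinarith

private theorem WtZ_sum_le (P : Finset ℕ) (a : ℕ → ℝ) (ha : ∀ p ∈ P, 0 ≤ a p) :
    1 ≤ ∏ p ∈ P, (1 + a p) ∧ ∑ p ∈ P, a p ≤ ∏ p ∈ P, (1 + a p) := by
  classical
  induction P using Finset.induction_on with
  | empty => simp
  | insert q P hq ih =>
    rw [Finset.sum_insert hq, Finset.prod_insert hq]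
    have h1 := ha q (mem_insert_self q P)
    obtain ⟨h2, h3⟩ := ih (fun p hp => ha p (mem_insert_of_mem hp))
    constructor
    · nlinarith
    · nlinarith

private theorem WtZ_dens (P : Finset ℕ) (Z F : ℝ) (hZ : 1 < Z) (hP : ∀ p ∈ P, Z ≤ (p : ℝ))
    (hP2 : ∀ p ∈ P, 2 ≤ p) (hF : ∏ p ∈ P, (1 + fn p) ≤ F) :
    0 < ∏ p ∈ P, (1 - 1 / (p : ℝ)) ∧ 1 ≤ F ∧
    Vg g1 P ≤ ∏ p ∈ P, (1 - 1 / (p : ℝ)) ∧
    (∏ p ∈ P, (1 - 1 / (p : ℝ))) * (1 - F / (Z - 1)) ≤ Vg g1 P ∧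
    ∀ c : Finset ℕ → ℝ, (∀ T, |c T| ≤ 1) → |ev c P g1 - ev c P (fun p => 1 / (p : ℝ))| ≤
      (∏ p ∈ P, (1 - 1 / (p : ℝ))) * (F ^ 3 / (Z - 1)) := by
  have hp2 : ∀ p ∈ P, (2 : ℝ) ≤ p := fun p hp => by exact_mod_cast hP2 p hp
  have hfn0 : ∀ p ∈ P, 0 ≤ fn p := by
    intro p hp
    unfold fn
    have := hp2 p hp
    exact div_nonneg zero_le_one (by linarith)
  have hfn1 : ∀ p ∈ P, fn p ≤ 1 := by
    intro p hp
    unfold fn
    have := hp2 p hp
    rw [div_le_one (by linarith)]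
    linarith
  have hr0 : ∀ p ∈ P, 0 ≤ 1 / (p : ℝ) := fun p _ => by positivity
  have hrf : ∀ p ∈ P, 1 / (p : ℝ) ≤ fn p := by
    intro p hp
    unfold fn
    have := hp2 p hp
    exact one_div_le_one_div_of_le (by linarith) (by linarith)
  have hr1 : ∀ p ∈ P, 0 < 1 - 1 / (p : ℝ) := by
    intro p hp
    have := hp2 p hp
    have h1 : 1 / (p : ℝ) ≤ 1 / 2 := one_div_le_one_div_of_le (by norm_num) this
    linarith
  set Fp : ℝ := ∏ p ∈ P, (1 + fn p) with hFp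
  set V : ℝ := ∏ p ∈ P, (1 - 1 / (p : ℝ)) with hV
  obtain ⟨hFp1, hsum⟩ := WtZ_sum_le P fn hfn0
  rw [← hFp] at hFp1 hsum
  have hF1 : 1 ≤ F := hFp1.trans hF
  have hVpos : 0 < V := Finset.prod_pos hr1
  have hVF : V * Fp = 1 := by
    rw [hV, hFp, ← Finset.prod_mul_distrib]
    apply Finset.prod_eq_one
    intro p hp
    unfold fn
    have := hp2 p hp
    have h1 : (p : ℝ) - 1 ≠ 0 := by
      intro h
      linarith
    have h2 : (p : ℝ) ≠ 0 := by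
      intro h
      linarith
    field_simp
    ring
  have hZ1 : 0 < Z - 1 := by linarith
  have hS2 : ∑ p ∈ P, fn p ^ 2 ≤ F / (Z - 1) := by
    calc ∑ p ∈ P, fn p ^ 2 ≤ ∑ p ∈ P, fn p * (1 / (Z - 1)) := by
          apply Finset.sum_le_sum
          intro p hp
          rw [sq]
          apply mul_le_mul_of_nonneg_left _ (hfn0 p hp)
          unfold fn
          exact one_div_le_one_div_of_le hZ1 (by linarith [hP p hp])
      _ = (∑ p ∈ P, fn p) * (1 / (Z - 1)) := by rw [Finset.sum_mul]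
      _ ≤ F * (1 / (Z - 1)) :=
          mul_le_mul_of_nonneg_right (hsum.trans hF) (by positivity)
      _ = F / (Z - 1) := by ring
  have hg1 : ∀ p, g1 p = fn p := fun p => rfl
  refine ⟨hVpos, hF1, ?_, ?_, ?_⟩
  · unfold Vg
    apply Finset.prod_le_prod
    · intro p hp
      rw [hg1]
      linarith [hfn1 p hp]
    · intro p hp
      rw [hg1]
      linarith [hrf p hp]
  · have h1 : Vg g1 P = V * ∏ p ∈ P, (1 - fn p ^ 2) := by
      unfold Vg
      rw [hV, ← Finset.prod_mul_distrib]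
      refine Finset.prod_congr rfl fun p hp => ?_
      rw [hg1]
      unfold fn
      have := hp2 p hp
      have h1 : (p : ℝ) - 1 ≠ 0 := by
        intro h
        linarith
      have h2 : (p : ℝ) ≠ 0 := by
        intro h
        linarith
      field_simp
      ring
    rw [h1]
    apply mul_le_mul_of_nonneg_left _ hVpos.le
    have h2 := WtZ_prod_ge P (fun p => fn p ^ 2) (fun p hp => ⟨sq_nonneg _, by
      have h3 := hfn1 p hp
      have h4 := hfn0 p hp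
      nlinarith⟩)
    linarith
  · intro c hc
    have h1 : |ev c P g1 - ev c P (fun p => 1 / (p : ℝ))| ≤
        ∑ T ∈ P.powerset, (∏ p ∈ T, fn p - ∏ p ∈ T, 1 / (p : ℝ)) := by
      unfold ev
      rw [← Finset.sum_sub_distrib]
      refine (Finset.abs_sum_le_sum_abs _ _).trans ?_
      apply Finset.sum_le_sum
      intro T hT
      have hT' := mem_powerset.mp hT
      rw [← mul_sub, abs_mul]
      have h2 : ∏ p ∈ T, 1 / (p : ℝ) ≤ ∏ p ∈ T, fn p :=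
        Finset.prod_le_prod (fun p hp => hr0 p (hT' hp)) (fun p hp => hrf p (hT' hp))
      have h3 : |∏ p ∈ T, g1 p - ∏ p ∈ T, 1 / (p : ℝ)| =
          ∏ p ∈ T, fn p - ∏ p ∈ T, 1 / (p : ℝ) := by
        apply abs_of_nonneg
        have : ∏ p ∈ T, g1 p = ∏ p ∈ T, fn p := rfl
        rw [this]
        linarith
      rw [h3]
      calc |c T| * (∏ p ∈ T, fn p - ∏ p ∈ T, 1 / (p : ℝ)) ≤
            1 * (∏ p ∈ T, fn p - ∏ p ∈ T, 1 / (p : ℝ)) :=
            mul_le_mul_of_nonneg_right (hc T) (by linarith)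
        _ = _ := one_mul _
    refine h1.trans ?_
    rw [Finset.sum_sub_distrib, ← Finset.prod_one_add, ← Finset.prod_one_add]
    have h4 : ∏ p ∈ P, (1 + 1 / (p : ℝ)) = Fp * ∏ p ∈ P, (1 - (1 / (p : ℝ)) ^ 2) := by
      rw [hFp, ← Finset.prod_mul_distrib]
      refine Finset.prod_congr rfl fun p hp => ?_
      unfold fn
      have := hp2 p hp
      have h1 : (p : ℝ) - 1 ≠ 0 := by
        intro h
        linarith
      have h2 : (p : ℝ) ≠ 0 := by
        intro h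
        linarith
      field_simp
      ring
    have h5 := WtZ_prod_ge P (fun p => (1 / (p : ℝ)) ^ 2) (fun p hp => ⟨sq_nonneg _, by
      have h3 := hr1 p hp
      have h4 := hr0 p hp
      nlinarith⟩)
    have h6 : ∑ p ∈ P, (1 / (p : ℝ)) ^ 2 ≤ ∑ p ∈ P, fn p ^ 2 := by
      apply Finset.sum_le_sum
      intro p hp
      exact pow_le_pow_left₀ (hr0 p hp) (hrf p hp) 2
    have h7 : 1 - F / (Z - 1) ≤ ∏ p ∈ P, (1 - (1 / (p : ℝ)) ^ 2) := by linarith
    have hFp0 : 0 ≤ Fp := by linarith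
    have h8 : Fp * (1 - F / (Z - 1)) ≤ ∏ p ∈ P, (1 + 1 / (p : ℝ)) := by
      rw [h4]
      exact mul_le_mul_of_nonneg_left h7 hFp0
    have h9 : Fp * (F / (Z - 1)) = V * (Fp ^ 2 * F / (Z - 1)) := by
      have : V * (Fp ^ 2 * F / (Z - 1)) = (V * Fp) * (Fp * (F / (Z - 1))) := by ring
      rw [this, hVF, one_mul]
    have h10 : Fp ^ 2 * F / (Z - 1) ≤ F ^ 3 / (Z - 1) := by
      apply div_le_div_of_nonneg_right _ hZ1.le
      have h11 : Fp ^ 2 ≤ F ^ 2 := pow_le_pow_left₀ hFp0 hF 2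
      calc Fp ^ 2 * F ≤ F ^ 2 * F := mul_le_mul_of_nonneg_right h11 (by linarith)
        _ = F ^ 3 := by ring
    have h12 := mul_le_mul_of_nonneg_left h10 hVpos.le
    have h13 : Fp - ∏ p ∈ P, (1 + 1 / (p : ℝ)) ≤ Fp * (F / (Z - 1)) := by
      have : Fp * (1 - F / (Z - 1)) = Fp - Fp * (F / (Z - 1)) := by ring
      linarith
    linarith

private theorem WtZ_growth (K : ℝ) (N : ℕ) (hK : 0 ≤ K) : ∀ᶠ x : ℕ in atTop,
    K * Real.log x ^ N + 1 ≤ z0 x := by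
  have hL : Tendsto (fun x : ℕ => Real.log (x : ℝ)) atTop atTop :=
    Real.tendsto_log_atTop.comp tendsto_natCast_atTop_atTop
  have hl : Tendsto (fun x : ℕ => Real.log (Real.log (x : ℝ))) atTop atTop :=
    Real.tendsto_log_atTop.comp hL
  have hN : (0 : ℝ) < (N : ℝ) + 2 := by positivity
  have ho : ∀ᶠ L : ℝ in atTop, ‖Real.log L ^ 3‖ ≤ (1 / ((N : ℝ) + 2)) * ‖L‖ :=
    (Real.isLittleO_pow_log_id_atTop (n := 3)).def (by positivity)
  filter_upwards [hL.eventually ho, hL.eventually_ge_atTop (K + 1), hl.eventually_ge_atTop 1]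
    with x h1 h2 h3
  set L : ℝ := Real.log x with hLdef
  set l : ℝ := Real.log L with hldef
  have hL1 : 1 ≤ L := by linarith
  have hL0 : 0 < L := by linarith
  have hl2 : 0 < l ^ 2 := by positivity
  have h5 : l ^ 3 ≤ (1 / ((N : ℝ) + 2)) * L := by
    rw [Real.norm_of_nonneg (by positivity), Real.norm_of_nonneg hL0.le] at h1
    exact h1
  have h6 : ((N : ℝ) + 2) * l ≤ L / l ^ 2 := by
    rw [le_div_iff₀ hl2]
    have h7 : ((N : ℝ) + 2) * l ^ 3 ≤ L := by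
      have := mul_le_mul_of_nonneg_left h5 hN.le
      have h8 : ((N : ℝ) + 2) * (1 / ((N : ℝ) + 2) * L) = L := by field_simp
      linarith
    calc ((N : ℝ) + 2) * l * l ^ 2 = ((N : ℝ) + 2) * l ^ 3 := by ring
      _ ≤ L := h7
  have h9 : L ^ (N + 2) ≤ z0 x := by
    have h10 : z0 x = Real.exp (L / l ^ 2) := rfl
    rw [h10]
    calc L ^ (N + 2) = Real.exp (((N : ℝ) + 2) * l) := by
          have h11 : ((N : ℝ) + 2) * l = ((N + 2 : ℕ) : ℝ) * l := by push_cast; ring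
          rw [h11, Real.exp_nat_mul, hldef, Real.exp_log hL0]
      _ ≤ Real.exp (L / l ^ 2) := Real.exp_le_exp.mpr h6
  have h12 : (1 : ℝ) ≤ L ^ N := one_le_pow₀ hL1
  have h13 : L ^ (N + 2) = L ^ N * (L * L) := by ring
  have h14 : K + 1 ≤ L * L := by nlinarith
  have h15 : L ^ N * (K + 1) ≤ L ^ N * (L * L) := mul_le_mul_of_nonneg_left h14 (by positivity)
  linarith

private theorem WtZ_ev (K : ℝ) (hK : 0 ≤ K) (ε : ℝ) (hε : 0 < ε) :
    ∀ᶠ x : ℕ in atTop, 1 ≤ x ∧ Real.exp 2400 < z0 x ∧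
      ∃ F : ℝ, (∀ P ⊆ PX x, ∏ p ∈ P, (1 + fn p) ≤ F) ∧ K * (F ^ 3 / (z0 x - 1)) ≤ ε := by
  obtain ⟨B, hB⟩ := euler_pow 1 zero_le_one
  filter_upwards [hB, WtZ_growth (K / ε + Real.exp 2400 + 1) (3 * B) (by positivity),
    eventually_ge_atTop 3] with x h1 h2 h3
  have hx3 : (3 : ℝ) ≤ x := by exact_mod_cast h3
  have hlog : 1 ≤ Real.log x := by
    rw [← Real.log_exp 1]
    apply Real.log_le_log (Real.exp_pos 1)
    have := Real.exp_one_lt_d9
    linarith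
  have hpow : 1 ≤ Real.log x ^ (3 * B) := one_le_pow₀ hlog
  have hKε : 0 ≤ K / ε := by positivity
  have he : 0 < Real.exp 2400 := Real.exp_pos 2400
  have hz1 : (K / ε + Real.exp 2400 + 1) * Real.log x ^ (3 * B) + 1 ≤ z0 x := h2
  have hz2 : K / ε + Real.exp 2400 + 1 + 1 ≤ z0 x := by nlinarith
  refine ⟨by omega, by linarith, Real.log x ^ B, ?_, ?_⟩
  · intro P hP
    refine le_trans ?_ h1
    have hsub : P ⊆ (range (x + 1)).filter Nat.Prime := by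
      intro p hp
      have h4 := hP hp
      unfold PX at h4
      rw [mem_filter] at h4
      rw [mem_filter]
      exact ⟨h4.1, h4.2.1⟩
    have hf : ∀ p ∈ (range (x + 1)).filter Nat.Prime, 0 ≤ fn p := by
      intro p hp
      rw [mem_filter] at hp
      have h4 : (2 : ℝ) ≤ p := by exact_mod_cast hp.2.two_le
      unfold fn
      exact div_nonneg zero_le_one (by linarith)
    calc ∏ p ∈ P, (1 + fn p)
        ≤ ∏ p ∈ (range (x + 1)).filter Nat.Prime, (1 + fn p) := by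
          rw [← Finset.prod_sdiff hsub]
          have h10 : 1 ≤ ∏ p ∈ (range (x + 1)).filter Nat.Prime \ P, (1 + fn p) :=
            (WtZ_sum_le _ fn (fun p hp => hf p (mem_sdiff.mp hp).1)).1
          have h11 : 0 ≤ ∏ p ∈ P, (1 + fn p) :=
            Finset.prod_nonneg fun p hp => by linarith [hf p (hsub hp)]
          exact le_mul_of_one_le_left h11 h10
      _ = ∏ p ∈ (range (x + 1)).filter Nat.Prime, (1 + 1 * fn p) := by
          refine Finset.prod_congr rfl fun p _ => ?_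
          rw [one_mul]
  · have h5 : (Real.log x ^ B) ^ 3 = Real.log x ^ (3 * B) := by
      rw [← pow_mul, mul_comm]
    rw [h5, ← mul_div_assoc, div_le_iff₀ (by linarith)]
    have h6 : K = ε * (K / ε) := by field_simp
    have h7 : (K / ε) * Real.log x ^ (3 * B) ≤ z0 x - 1 := by
      have h8 : 0 ≤ (Real.exp 2400 + 1) * Real.log x ^ (3 * B) := by positivity
      have h9 : (K / ε + Real.exp 2400 + 1) * Real.log x ^ (3 * B) =
        (K / ε) * Real.log x ^ (3 * B) + (Real.exp 2400 + 1) * Real.log x ^ (3 * B) := by ring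
      linarith
    calc K * Real.log x ^ (3 * B) = ε * ((K / ε) * Real.log x ^ (3 * B)) := by
          rw [← mul_assoc, ← h6]
      _ ≤ ε * (z0 x - 1) := mul_le_mul_of_nonneg_left h7 hε.le

private theorem WtZ_sub (x : ℕ) (δ ζ : ℝ) : PZ x ζ \ PZ x δ ⊆ PX x := by
  intro p hp
  have h := (mem_sdiff.1 hp).1
  unfold PZ at h
  exact (mem_filter.1 h).1

private theorem WtZ_mem {x : ℕ} {δ ζ : ℝ} {p : ℕ} (hp : p ∈ PZ x ζ \ PZ x δ) :
    p.Prime ∧ z0 x < (p : ℝ) ∧ (p : ℝ) ≤ (x : ℝ) ^ ζ ∧ (x : ℝ) ^ δ < p := by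
  obtain ⟨h1, h2⟩ := mem_sdiff.1 hp
  have h3 := WtZ_sub x δ ζ hp
  unfold PZ at h1 h2
  rw [mem_filter] at h1
  have h4 : ¬ (p : ℝ) ≤ (x : ℝ) ^ δ := fun h => h2 (mem_filter.2 ⟨h3, h⟩)
  unfold PX at h3
  rw [mem_filter] at h3
  exact ⟨h3.2.1, h3.2.2, h1.2, not_le.1 h4⟩

private theorem WtZ_sup {P Z : Finset ℕ} (hPZ : P ⊆ Z) {c : Finset ℕ → ℝ}
    (hc : ∀ T, c T ≠ 0 → T ⊆ P) (y : ℕ → ℝ) : ev c Z y = ev c P y := by
  unfold ev
  symm
  refine Finset.sum_subset (Finset.powerset_mono.mpr hPZ) fun T _ hT => ?_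
  rw [mem_powerset] at hT
  by_cases h : c T = 0
  · rw [h, zero_mul]
  · exact absurd (hc T h) hT

open Classical in
private theorem WtZ_Vg (m : ℕ) (P : Finset ℕ) :
    ZO (fun p : ℕ => if p ∣ m then (1 : ℝ) else 0) ∧
      Vg (fun p : ℕ => if p ∣ m then (1 : ℝ) else 0) P =
        if ∀ p ∈ P, ¬ p ∣ m then 1 else 0 := by
  constructor
  · intro p
    show (if p ∣ m then (1 : ℝ) else 0) = 0 ∨ (if p ∣ m then (1 : ℝ) else 0) = 1
    split_ifs
    · right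
      rfl
    · left
      rfl
  · unfold Vg
    split_ifs with h1
    · apply Finset.prod_eq_one
      intro p hp
      show 1 - (if p ∣ m then (1 : ℝ) else 0) = 1
      rw [if_neg (h1 p hp), sub_zero]
    · push Not at h1
      obtain ⟨p, hp, hdvd⟩ := h1
      apply Finset.prod_eq_zero hp
      show 1 - (if p ∣ m then (1 : ℝ) else 0) = 0
      rw [if_pos hdvd, sub_self]

private theorem WtZ_exp {t : ℝ} (h0 : 0 ≤ t) (h1 : t ≤ 1 / 2) : Real.exp (-(2 * t)) ≤ 1 - t := by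
  have h2 := Real.add_one_le_exp (2 * t)
  have h3 : Real.exp (-(2 * t)) * Real.exp (2 * t) = 1 := by
    rw [← Real.exp_add, neg_add_cancel, Real.exp_zero]
  have h4 := Real.exp_pos (-(2 * t))
  have h5 : (1 : ℝ) ≤ (1 - t) * (2 * t + 1) := by nlinarith
  have h6 : (1 - t) * (2 * t + 1) ≤ (1 - t) * Real.exp (2 * t) :=
    mul_le_mul_of_nonneg_left h2 (by linarith)
  have h7 : Real.exp (-(2 * t)) * 1 ≤ Real.exp (-(2 * t)) * ((1 - t) * Real.exp (2 * t)) :=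
    mul_le_mul_of_nonneg_left (h5.trans h6) h4.le
  have h8 : Real.exp (-(2 * t)) * ((1 - t) * Real.exp (2 * t)) =
      (1 - t) * (Real.exp (-(2 * t)) * Real.exp (2 * t)) := by ring
  rw [h8, h3] at h7
  linarith

theorem V2_pos (δ ζ : ℝ) (hδ : 0 < δ) (hδζ : δ ≤ ζ) (hζ : ζ ≤ 1) : ∃ c : ℝ, 0 < c ∧ ∀ᶠ x : ℕ in atTop,
    c ≤ V2 x δ ζ ∧ V2 x δ ζ ≤ 1 ∧ V1 x δ * V2 x δ ζ = V1 x ζ := by
  refine ⟨Real.exp (-(2 * (Real.log (ζ / δ) + 1))), Real.exp_pos _, ?_⟩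
  filter_upwards [mert_cell δ ζ 1 hδ hδζ hζ one_pos, eventually_ge_atTop 1] with x h1 hx
  have hx1 : (1 : ℝ) ≤ x := by exact_mod_cast hx
  have hp2 : ∀ p ∈ PZ x ζ \ PZ x δ, (2 : ℝ) ≤ p := fun p hp => by
    exact_mod_cast (WtZ_mem hp).1.two_le
  have hsum : ∑ p ∈ PZ x ζ \ PZ x δ, 1 / (p : ℝ) ≤ Real.log (ζ / δ) + 1 := by
    refine le_trans ?_ h1
    have hsub : PZ x ζ \ PZ x δ ⊆
        (PX x).filter (fun p : ℕ => (x : ℝ) ^ δ < p ∧ (p : ℝ) ≤ (x : ℝ) ^ ζ) := by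
      intro p hp
      exact mem_filter.2 ⟨WtZ_sub x δ ζ hp, (WtZ_mem hp).2.2.2, (WtZ_mem hp).2.2.1⟩
    refine (Finset.sum_le_sum fun p hp => ?_ : ∑ p ∈ PZ x ζ \ PZ x δ, 1 / (p : ℝ) ≤
      ∑ p ∈ PZ x ζ \ PZ x δ, fn p).trans (Finset.sum_le_sum_of_subset_of_nonneg hsub ?_)
    · unfold fn
      have := hp2 p hp
      exact one_div_le_one_div_of_le (by linarith) (by linarith)
    · intro p hp _
      have h2 := (mem_filter.1 hp).1
      unfold PX at h2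
      have h3 : (2 : ℝ) ≤ p := by exact_mod_cast (mem_filter.1 h2).2.1.two_le
      unfold fn
      exact div_nonneg zero_le_one (by linarith)
  have hhalf : ∀ p ∈ PZ x ζ \ PZ x δ, 0 ≤ 1 / (p : ℝ) ∧ 1 / (p : ℝ) ≤ 1 / 2 := by
    intro p hp
    have := hp2 p hp
    exact ⟨by positivity, one_div_le_one_div_of_le (by norm_num) this⟩
  refine ⟨?_, ?_, ?_⟩
  · unfold V2
    calc Real.exp (-(2 * (Real.log (ζ / δ) + 1))) ≤
          Real.exp (∑ p ∈ PZ x ζ \ PZ x δ, -(2 * (1 / (p : ℝ)))) := by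
          refine Real.exp_le_exp.2 ?_
          rw [Finset.sum_neg_distrib, ← Finset.mul_sum]
          linarith
      _ = ∏ p ∈ PZ x ζ \ PZ x δ, Real.exp (-(2 * (1 / (p : ℝ)))) := Real.exp_sum _ _
      _ ≤ ∏ p ∈ PZ x ζ \ PZ x δ, (1 - 1 / (p : ℝ)) :=
          Finset.prod_le_prod (fun p _ => (Real.exp_pos _).le)
            (fun p hp => WtZ_exp (hhalf p hp).1 (hhalf p hp).2)
  · unfold V2
    exact Finset.prod_le_one (fun p hp => by linarith [(hhalf p hp).2])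
      (fun p hp => by linarith [(hhalf p hp).1])
  · unfold V1 V2
    have hsub : PZ x δ ⊆ PZ x ζ := by
      intro p hp
      unfold PZ at hp ⊢
      rw [mem_filter] at hp ⊢
      exact ⟨hp.1, hp.2.trans (Real.rpow_le_rpow_of_exponent_le hx1 hδζ)⟩
    rw [mul_comm]
    exact Finset.prod_sdiff hsub

theorem wzL (δ ζ s f ε : ℝ) (hδ : 0 < δ) (hδζ : δ ≤ ζ) (hζ : ζ ≤ 1) (hs : 0 ≤ s) (hf : 0 ≤ f) (hL : L2 s f) (hε : 0 < ε) :
    ∀ᶠ x : ℕ in atTop, ∃ c : Finset ℕ → ℝ, (∀ T, |c T| ≤ 1) ∧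
      (∀ T, c T ≠ 0 → T ⊆ PZ x ζ \ PZ x δ ∧ ∏ p ∈ T, (p : ℝ) ≤ (x : ℝ) ^ (ζ * s)) ∧
      (∀ m, evD (PX x) c m ≤ if ∀ p ∈ PZ x ζ \ PZ x δ, ¬ p ∣ m then 1 else 0) ∧
      (f - ε) * V2 x δ ζ ≤ evM (PX x) c := by
  filter_upwards [WtZ_ev (f + 1) (by linarith) ε hε] with x hx
  obtain ⟨hx1, hz, F, hF, hFε⟩ := hx
  have hx1' : (1 : ℝ) ≤ x := by exact_mod_cast hx1
  have hz1' : 1 < z0 x := by
    have : (1 : ℝ) < Real.exp 2400 := by
      rw [Real.one_lt_exp_iff]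
      norm_num
    linarith
  have hζ0 : 0 < ζ := lt_of_lt_of_le hδ hδζ
  have hbig : BigP2 ((x : ℝ) ^ ζ) (PZ x ζ \ PZ x δ) := fun p hp =>
    ⟨(WtZ_mem hp).1, hz.trans (WtZ_mem hp).2.1, (WtZ_mem hp).2.2.1⟩
  obtain ⟨c, hc1, hc2, hc3⟩ := hL ((x : ℝ) ^ ζ) (Real.one_le_rpow hx1' hζ0.le) _ hbig
  have hsup : ∀ T, c T ≠ 0 → T ⊆ PZ x ζ \ PZ x δ := fun T hT => (hc1.2 T hT).1
  refine ⟨c, hc1.1, ?_, ?_, ?_⟩
  · intro T hT
    obtain ⟨h1, h2⟩ := hc1.2 T hT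
    rw [Real.rpow_mul (Nat.cast_nonneg x)]
    exact ⟨h1, h2⟩
  · intro m
    unfold evD
    rw [WtZ_sup (WtZ_sub x δ ζ) hsup]
    obtain ⟨h1, h2⟩ := WtZ_Vg m (PZ x ζ \ PZ x δ)
    have h3 := hc2 _ h1
    rw [h2] at h3
    refine h3.trans (le_of_eq ?_)
    split_ifs <;> rfl
  · have hzp : ∀ p ∈ PZ x ζ \ PZ x δ, z0 x ≤ (p : ℝ) := fun p hp => (WtZ_mem hp).2.1.le
    obtain ⟨hV0, hF1, hV1, hV2, hV3⟩ := WtZ_dens (PZ x ζ \ PZ x δ) (z0 x) F hz1' hzp
      (fun p hp => (hbig p hp).1.two_le) (hF _ (WtZ_sub x δ ζ))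
    have h4 := hV3 c hc1.1
    unfold evM
    rw [WtZ_sup (WtZ_sub x δ ζ) hsup]
    have hVV : V2 x δ ζ = ∏ p ∈ PZ x ζ \ PZ x δ, (1 - 1 / (p : ℝ)) := rfl
    rw [hVV]
    set V : ℝ := ∏ p ∈ PZ x ζ \ PZ x δ, (1 - 1 / (p : ℝ)) with hVdef
    have hz1 : 0 < z0 x - 1 := by linarith
    have h6 : F / (z0 x - 1) ≤ F ^ 3 / (z0 x - 1) := by
      apply div_le_div_of_nonneg_right _ hz1.le
      nlinarith [mul_self_nonneg (F - 1)]
    have h7 : f * (V * (1 - F / (z0 x - 1))) ≤ f * Vg g1 (PZ x ζ \ PZ x δ) :=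
      mul_le_mul_of_nonneg_left hV2 hf
    have h8 := abs_le.mp h4
    have h9 : f * (V * (F / (z0 x - 1))) ≤ f * (V * (F ^ 3 / (z0 x - 1))) :=
      mul_le_mul_of_nonneg_left (mul_le_mul_of_nonneg_left h6 hV0.le) hf
    have h10 : V * ((f + 1) * (F ^ 3 / (z0 x - 1))) ≤ V * ε :=
      mul_le_mul_of_nonneg_left hFε hV0.le
    have h11 : f * (V * (1 - F / (z0 x - 1))) = f * V - f * (V * (F / (z0 x - 1))) := by ring
    have h12 : V * ((f + 1) * (F ^ 3 / (z0 x - 1))) =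
      f * (V * (F ^ 3 / (z0 x - 1))) + V * (F ^ 3 / (z0 x - 1)) := by ring
    have h13 : (f - ε) * V = f * V - V * ε := by ring
    linarith [h8.2, hc3]

theorem wzU (δ ζ s F ε : ℝ) (hδ : 0 < δ) (hδζ : δ ≤ ζ) (hζ : ζ ≤ 1) (hs : 0 ≤ s) (hF : 0 ≤ F) (hU : U2 s F) (hε : 0 < ε) :
    ∀ᶠ x : ℕ in atTop, ∃ c : Finset ℕ → ℝ, (∀ T, |c T| ≤ 1) ∧
      (∀ T, c T ≠ 0 → T ⊆ PZ x ζ \ PZ x δ ∧ ∏ p ∈ T, (p : ℝ) ≤ (x : ℝ) ^ (ζ * s)) ∧
      (∀ m, (if ∀ p ∈ PZ x ζ \ PZ x δ, ¬ p ∣ m then 1 else 0) ≤ evD (PX x) c m) ∧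
      evM (PX x) c ≤ (F + ε) * V2 x δ ζ ∧ 0 ≤ evM (PX x) c := by
  filter_upwards [WtZ_ev 1 zero_le_one ε hε] with x hx
  obtain ⟨hx1, hz, G, hG, hGε⟩ := hx
  have hx1' : (1 : ℝ) ≤ x := by exact_mod_cast hx1
  have hz1' : 1 < z0 x := by
    have : (1 : ℝ) < Real.exp 2400 := by
      rw [Real.one_lt_exp_iff]
      norm_num
    linarith
  have hζ0 : 0 < ζ := lt_of_lt_of_le hδ hδζ
  have hbig : BigP2 ((x : ℝ) ^ ζ) (PZ x ζ \ PZ x δ) := fun p hp =>
    ⟨(WtZ_mem hp).1, hz.trans (WtZ_mem hp).2.1, (WtZ_mem hp).2.2.1⟩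
  obtain ⟨c, hc1, hc2, hc3⟩ := hU ((x : ℝ) ^ ζ) (Real.one_le_rpow hx1' hζ0.le) _ hbig
  have hsup : ∀ T, c T ≠ 0 → T ⊆ PZ x ζ \ PZ x δ := fun T hT => (hc1.2 T hT).1
  have hzp : ∀ p ∈ PZ x ζ \ PZ x δ, z0 x ≤ (p : ℝ) := fun p hp => (WtZ_mem hp).2.1.le
  obtain ⟨hV0, hF1, hV1, hV2, hV3⟩ := WtZ_dens (PZ x ζ \ PZ x δ) (z0 x) G hz1' hzp
    (fun p hp => (hbig p hp).1.two_le) (hG _ (WtZ_sub x δ ζ))
  refine ⟨c, hc1.1, ?_, ?_, ?_, ?_⟩
  · intro T hT
    obtain ⟨h1, h2⟩ := hc1.2 T hT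
    rw [Real.rpow_mul (Nat.cast_nonneg x)]
    exact ⟨h1, h2⟩
  · intro m
    unfold evD
    rw [WtZ_sup (WtZ_sub x δ ζ) hsup]
    obtain ⟨h1, h2⟩ := WtZ_Vg m (PZ x ζ \ PZ x δ)
    have h3 := hc2 _ h1
    rw [h2] at h3
    refine le_trans (le_of_eq ?_) h3
    split_ifs <;> rfl
  · have h4 := hV3 c hc1.1
    unfold evM
    rw [WtZ_sup (WtZ_sub x δ ζ) hsup]
    have hVV : V2 x δ ζ = ∏ p ∈ PZ x ζ \ PZ x δ, (1 - 1 / (p : ℝ)) := rfl
    rw [hVV]
    set V : ℝ := ∏ p ∈ PZ x ζ \ PZ x δ, (1 - 1 / (p : ℝ)) with hVdef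
    have h8 := abs_le.mp h4
    have h9 : F * Vg g1 (PZ x ζ \ PZ x δ) ≤ F * V := mul_le_mul_of_nonneg_left hV1 hF
    have h10 : V * (1 * (G ^ 3 / (z0 x - 1))) ≤ V * ε := mul_le_mul_of_nonneg_left hGε hV0.le
    rw [one_mul] at h10
    have h13 : (F + ε) * V = F * V + V * ε := by ring
    linarith [h8.1, hc3]
  · unfold evM
    rw [WtZ_sup (WtZ_sub x δ ζ) hsup]
    apply WtZ_nonneg
    · intro y hy
      refine le_trans ?_ (hc2 y hy)
      unfold Vg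
      apply Finset.prod_nonneg
      intro p _
      rcases hy p with h | h <;> rw [h] <;> norm_num
    · intro p hp
      have h2 : (2 : ℝ) ≤ p := by exact_mod_cast (hbig p hp).1.two_le
      refine ⟨by positivity, ?_⟩
      rw [div_le_one (by linarith)]
      linarith

end Pool.Agent.H36.IS2
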