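import Pool.Agent.H36.IS.MCa
import Pool.Agent.H36.IS2.WtZ
import Pool.Agent.H36.IS2.QArr
import Pool.Agent.H36.IS2.NumD

/-!
# ISP ArrE: the arrays cA, cB

ζ = 0.09, η = 0.3348 = ζ · 3.72, v_k = 1 + 0.16 k (k = 0..17, v_0 = 1, v_17 = 3.72), P' = PZ x ζ \ PZ x δ, Qs = PZ x η \ PZ x ζ.
cL from `wzL` (s = 5.52, f = 0.9978, `tab_L`), cA = cU from `wzU` (s = 5.52, F = 1.0025, `tab_UA`), c_k from `wzU` (s = 4.36 - 0.16 k = 5.52 - v_{k+1}, `tab_U`).
For q ∈ Qs let k(q) be the k with x^(ζ v_k) < q ≤ x^(ζ v_(k+1)); cq q = c_{k(q)}; level of q · c_{k(q)}: x^(ζ v_{k+1} + ζ (5.52 - v_{k+1})) = x^(0.4968).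
cB = cA - cL + (1/2) qarr Qs cq.  |cA| ≤ 1, |cB| ≤ 2.5.
Values (`qarr_ev`): evD cA m - evD cB m = evD cL m - (1/2) ∑_{q ∈ Qs, q ∣ m} evD (cq q) m ≤ [no p ∈ P' divides m] (1 - (1/2) #{q ∈ Qs, q ∣ m})
 (evD (cq q) m ≥ [rough] ≥ 0).  evD cA ≥ [rough] ≥ evD cL, so evD cB ≥ 0, evD cA ≥ 0.
Main values: evM cA ≤ (1.0025 + ε) V2; evM cA - evM cB = evM cL - (1/2) ∑_{q ∈ Qs} (1/q) evM (cq q)
 ≥ V2 [0.9978 - ε - (1/2) ∑_k (FT k/10^5 + ε)(log(v_{k+1}/v_k) + ε)] ≥ 0.196 V2   (1/q ≤ fn q, `mert_cell` on the cells, `numD`).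
evM cB = evM cA - (evM cA - evM cB) ; 0 ≤ evM cB: from the pointwise nonnegativity, or: evM cA ≥ evM cL and evM (cq q) ≥ 0. For the upper weights
 evM cA ≥ V2 ≥ evM cL would follow by multilinearity; simpler: use the extra clause of this statement only through the sum
 evM cA + evM cB ≤ 3 V2: evM cB ≤ evM cA - 0.196 V2 needs only the above.  For 0 ≤ evM cB use multilinearity (`Wts_nonneg_aux` in
 Pool/Agent/H36/IS/Wts.lean, copy: if ev c P y ≥ 0 for all 0/1 vectors y then ev c P g ≥ 0 for g in [0,1]); note that evD (PX x) c m ≥ 0 for all m gives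
 ev c (PX x) y ≥ 0 for all 0/1 vectors y (take m = the product of the p ∈ PX x with y p = 1).
-/

set_option autoImplicit false

namespace Pool.Agent.H36.IS2

open Finset Filter Pool.Agent.H36.IS

open Pool.Agent.H91.PK (ev ZO)

/-! ### multilinearity -/

private theorem ArrE_affine (c : Finset ℕ → ℝ) (P : Finset ℕ) (g : ℕ → ℝ) (a : ℕ) :
    ev c P g = g a * ev c P (Function.update g a 1) +
      (1 - g a) * ev c P (Function.update g a 0) := by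
  unfold ev
  rw [Finset.mul_sum, Finset.mul_sum, ← Finset.sum_add_distrib]
  refine Finset.sum_congr rfl fun T _ => ?_
  by_cases h : a ∈ T
  · have h1 : ∀ v : ℝ, ∏ p ∈ T, Function.update g a v p = v * ∏ p ∈ T.erase a, g p := by
      intro v
      rw [← Finset.mul_prod_erase T _ h, Function.update_self]
      congr 1
      exact Finset.prod_congr rfl fun p hp => Function.update_of_ne (Finset.ne_of_mem_erase hp) _ _
    rw [h1, h1, ← Finset.mul_prod_erase T g h]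
    ring
  · have h1 : ∀ v : ℝ, ∏ p ∈ T, Function.update g a v p = ∏ p ∈ T, g p := by
      intro v
      refine Finset.prod_congr rfl fun p hp => Function.update_of_ne ?_ _ _
      rintro rfl
      exact h hp
    rw [h1, h1]
    ring

private theorem ArrE_nonneg_aux (c : Finset ℕ → ℝ) (P : Finset ℕ) (h : ∀ y, ZO y → 0 ≤ ev c P y)
    (A : Finset ℕ) : ∀ g : ℕ → ℝ, (∀ p ∈ A, 0 ≤ g p ∧ g p ≤ 1) →
      (∀ p, p ∉ A → g p = 0 ∨ g p = 1) → 0 ≤ ev c P g := by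
  induction A using Finset.induction_on with
  | empty =>
    intro g _ hg
    exact h g (fun p => hg p (Finset.notMem_empty p))
  | insert a A ha ih =>
    intro g hg1 hg2
    rw [ArrE_affine c P g a]
    have h1 := hg1 a (mem_insert_self a A)
    have h2 : ∀ v : ℝ, v = 0 ∨ v = 1 → 0 ≤ ev c P (Function.update g a v) := by
      intro v hv
      apply ih
      · intro p hp
        have hne : p ≠ a := by
          rintro rfl
          exact ha hp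
        rw [Function.update_of_ne hne]
        exact hg1 p (mem_insert_of_mem hp)
      · intro p hp
        by_cases e : p = a
        · subst e
          rw [Function.update_self]
          exact hv
        · rw [Function.update_of_ne e]
          apply hg2
          rw [mem_insert, not_or]
          exact ⟨e, hp⟩
    have h3 := mul_nonneg h1.1 (h2 1 (Or.inr rfl))
    have h4 := mul_nonneg (by linarith : 0 ≤ 1 - g a) (h2 0 (Or.inl rfl))
    linarith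

private theorem ArrE_ev_congr (c : Finset ℕ → ℝ) (P : Finset ℕ) {g g' : ℕ → ℝ}
    (h : ∀ p ∈ P, g p = g' p) : ev c P g = ev c P g' := by
  unfold ev
  refine Finset.sum_congr rfl fun T hT => ?_
  congr 1
  exact Finset.prod_congr rfl fun p hp => h p (mem_powerset.mp hT hp)

private theorem ArrE_nonneg (c : Finset ℕ → ℝ) (P : Finset ℕ) (h : ∀ y, ZO y → 0 ≤ ev c P y)
    (g : ℕ → ℝ) (hg : ∀ p ∈ P, 0 ≤ g p ∧ g p ≤ 1) : 0 ≤ ev c P g := by
  classical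
  rw [ArrE_ev_congr c P (g' := fun p => if p ∈ P then g p else 0)
    (fun p hp => by simp only [hp, if_true])]
  apply ArrE_nonneg_aux c P h P
  · intro p hp
    simp only [hp, if_true]
    exact hg p hp
  · intro p hp
    left
    simp only [hp, if_false]

private theorem ArrE_PX {x p : ℕ} (hp : p ∈ PX x) : p.Prime := by
  unfold PX at hp
  exact (mem_filter.1 hp).2.1

private theorem ArrE_evM_nonneg (x : ℕ) (c : Finset ℕ → ℝ) (h : ∀ m, 0 ≤ evD (PX x) c m) :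
    0 ≤ evM (PX x) c := by
  classical
  unfold evM
  refine ArrE_nonneg c (PX x) (fun y hy => ?_) _ fun p hp => ?_
  · have h1 := h (∏ p ∈ (PX x).filter (fun p => y p = 1), p)
    unfold evD at h1
    rw [ArrE_ev_congr c (PX x) (g := y)
      (g' := fun p => if p ∣ ∏ p ∈ (PX x).filter (fun p => y p = 1), p then 1 else 0)]
    · exact h1
    · intro p hp
      rcases hy p with h0 | h0
      · rw [h0, if_neg]
        intro hd
        obtain ⟨q, hq, hpq⟩ := (ArrE_PX hp).prime.exists_mem_finset_dvd hd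
        rw [mem_filter] at hq
        have : p = q := (Nat.prime_dvd_prime_iff_eq (ArrE_PX hp) (ArrE_PX hq.1)).1 hpq
        rw [← this, h0] at hq
        exact zero_ne_one hq.2
      · rw [h0, if_pos]
        exact Finset.dvd_prod_of_mem _ (mem_filter.2 ⟨hp, h0⟩)
  · have h2 : (2 : ℝ) ≤ p := by exact_mod_cast (ArrE_PX hp).two_le
    refine ⟨by positivity, ?_⟩
    rw [div_le_one (by linarith)]
    linarith

/-! ### the cells -/

private theorem ArrE_mem {x p : ℕ} {a b : ℝ} : p ∈ PZ x b \ PZ x a ↔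
    p ∈ PX x ∧ (p : ℝ) ≤ (x : ℝ) ^ b ∧ (x : ℝ) ^ a < p := by
  unfold PZ
  rw [Finset.mem_sdiff, Finset.mem_filter, Finset.mem_filter]
  constructor
  · rintro ⟨⟨h1, h2⟩, h3⟩
    exact ⟨h1, h2, lt_of_not_ge fun h => h3 ⟨h1, h⟩⟩
  · rintro ⟨h1, h2, h3⟩
    exact ⟨⟨h1, h2⟩, fun h => absurd h.2 (not_le.2 h3)⟩

private theorem ArrE_cell (x : ℕ) : ∃ kq : ℕ → ℕ, ∀ q ∈ PZ x 0.3348 \ PZ x 0.09,
    kq q < 17 ∧ (x : ℝ) ^ ((0.09 : ℝ) * (1 + 0.16 * (kq q : ℝ))) < q ∧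
      (q : ℝ) ≤ (x : ℝ) ^ ((0.09 : ℝ) * (1 + 0.16 * ((kq q : ℝ) + 1))) := by
  classical
  have key : ∀ q : ℕ, ∃ k : ℕ, q ∈ PZ x 0.3348 \ PZ x 0.09 →
      k < 17 ∧ (x : ℝ) ^ ((0.09 : ℝ) * (1 + 0.16 * (k : ℝ))) < q ∧
      (q : ℝ) ≤ (x : ℝ) ^ ((0.09 : ℝ) * (1 + 0.16 * ((k : ℝ) + 1))) := by
    intro q
    by_cases hq : q ∈ PZ x 0.3348 \ PZ x 0.09
    · obtain ⟨-, h1, h2⟩ := ArrE_mem.1 hq
      have h16 : (q : ℝ) ≤ (x : ℝ) ^ ((0.09 : ℝ) * (1 + 0.16 * (((16 : ℕ) : ℝ) + 1))) := by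
        have e : (0.09 : ℝ) * (1 + 0.16 * (((16 : ℕ) : ℝ) + 1)) = 0.3348 := by norm_num
        rw [e]
        exact h1
      have hex : ∃ k : ℕ, (q : ℝ) ≤ (x : ℝ) ^ ((0.09 : ℝ) * (1 + 0.16 * ((k : ℝ) + 1))) :=
        ⟨16, h16⟩
      refine ⟨Nat.find hex, fun _ => ⟨?_, ?_, Nat.find_spec hex⟩⟩
      · have := Nat.find_min' hex h16
        omega
      · rcases Nat.eq_zero_or_pos (Nat.find hex) with h0 | h0
        · rw [h0]
          have e : (0.09 : ℝ) * (1 + 0.16 * ((0 : ℕ) : ℝ)) = 0.09 := by norm_num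
          rw [e]
          exact h2
        · have h3 := Nat.find_min hex (m := Nat.find hex - 1) (by omega)
          have e : ((Nat.find hex - 1 : ℕ) : ℝ) + 1 = (Nat.find hex : ℝ) := by
            rw [Nat.cast_sub (by omega)]
            push_cast
            ring
          rw [e] at h3
          exact lt_of_not_ge h3
    · exact ⟨0, fun h => absurd h hq⟩
  choose kq hkq using key
  exact ⟨kq, hkq⟩

private theorem ArrE_sum (x : ℕ) (kq : ℕ → ℕ) (hkq : ∀ q ∈ PZ x 0.3348 \ PZ x 0.09,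
    kq q < 17 ∧ (x : ℝ) ^ ((0.09 : ℝ) * (1 + 0.16 * (kq q : ℝ))) < q ∧
      (q : ℝ) ≤ (x : ℝ) ^ ((0.09 : ℝ) * (1 + 0.16 * ((kq q : ℝ) + 1)))) (w : ℕ → ℝ) (hw : ∀ k, 0 ≤ w k) :
    ∑ q ∈ PZ x 0.3348 \ PZ x 0.09, 1 / (q : ℝ) * w (kq q) ≤ ∑ k ∈ range 17, w k *
      ∑ p ∈ (PX x).filter (fun p : ℕ => (x : ℝ) ^ ((0.09 : ℝ) * (1 + 0.16 * (k : ℝ))) < p ∧
        (p : ℝ) ≤ (x : ℝ) ^ ((0.09 : ℝ) * (1 + 0.16 * ((k : ℝ) + 1)))), fn p := by
  classical
  rw [← Finset.sum_fiberwise_of_maps_to (t := range 17) (g := kq)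
    (fun q hq => mem_range.2 (hkq q hq).1)]
  refine Finset.sum_le_sum fun k _ => ?_
  rw [Finset.mul_sum]
  refine le_trans (Finset.sum_le_sum (g := fun q => w k * fn q) fun q hq => ?_)
    (Finset.sum_le_sum_of_subset_of_nonneg ?_ fun q hq _ => ?_)
  · obtain ⟨hq1, hq2⟩ := mem_filter.1 hq
    have h2 : (2 : ℝ) ≤ q := by exact_mod_cast (ArrE_PX (ArrE_mem.1 hq1).1).two_le
    rw [hq2, mul_comm]
    refine mul_le_mul_of_nonneg_left ?_ (hw k)
    unfold fn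
    exact one_div_le_one_div_of_le (by linarith) (by linarith)
  · intro q hq
    obtain ⟨hq1, hq2⟩ := mem_filter.1 hq
    have h1 := hkq q hq1
    rw [hq2] at h1
    exact mem_filter.2 ⟨(ArrE_mem.1 hq1).1, h1.2⟩
  · have h2 : (2 : ℝ) ≤ q := by exact_mod_cast (ArrE_PX (mem_filter.1 hq).1).two_le
    refine mul_nonneg (hw k) ?_
    unfold fn
    exact div_nonneg zero_le_one (by linarith)

/-! ### the constant -/

private theorem ArrE_FT (k : ℕ) (hk : k ∈ range 17) : (FT k : ℝ) / 10 ^ 5 ≤ 2.03 := by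
  have h1 : FT k ≤ 203000 := by
    rw [mem_range] at hk
    interval_cases k <;> simp [FT]
  have h2 : (FT k : ℝ) ≤ 203000 := by exact_mod_cast h1
  rw [div_le_iff₀ (by norm_num)]
  linarith

private theorem ArrE_log (k : ℕ) : 0 ≤ Real.log ((1 + 0.16 * ((k : ℝ) + 1)) / (1 + 0.16 * (k : ℝ))) ∧
    Real.log ((1 + 0.16 * ((k : ℝ) + 1)) / (1 + 0.16 * (k : ℝ))) ≤ 0.16 := by
  have hk : (0 : ℝ) ≤ k := Nat.cast_nonneg k
  have h1 : (0 : ℝ) < 1 + 0.16 * (k : ℝ) := by positivity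
  constructor
  · refine Real.log_nonneg ?_
    rw [one_le_div h1]
    linarith
  · have h2 := Real.log_le_sub_one_of_pos
      (x := (1 + 0.16 * ((k : ℝ) + 1)) / (1 + 0.16 * (k : ℝ))) (by positivity)
    have h3 : (1 + 0.16 * ((k : ℝ) + 1)) / (1 + 0.16 * (k : ℝ)) ≤ 1.16 := by
      rw [div_le_iff₀ h1]
      nlinarith
    linarith

private theorem ArrE_const (ε : ℝ) (hε : 0 < ε) (hε1 : ε ≤ 1 / 10 ^ 6) :
    0.196 ≤ (0.9978 - ε) - 1 / 2 * ∑ k ∈ range 17, ((FT k : ℝ) / 10 ^ 5 + ε) *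
      (Real.log ((1 + 0.16 * ((k : ℝ) + 1)) / (1 + 0.16 * (k : ℝ))) + ε) := by
  have h1 := numD
  have h2 : ∑ k ∈ range 17, ((FT k : ℝ) / 10 ^ 5 + ε) *
      (Real.log ((1 + 0.16 * ((k : ℝ) + 1)) / (1 + 0.16 * (k : ℝ))) + ε) ≤
      ∑ k ∈ range 17, (Real.log ((1 + 0.16 * ((k : ℝ) + 1)) / (1 + 0.16 * (k : ℝ))) *
        ((FT k : ℝ) / 10 ^ 5) + 3 * ε) := by
    refine Finset.sum_le_sum fun k hk => ?_
    have h3 := ArrE_FT k hk
    obtain ⟨h4, h5⟩ := ArrE_log k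
    set L : ℝ := Real.log ((1 + 0.16 * ((k : ℝ) + 1)) / (1 + 0.16 * (k : ℝ)))
    set F : ℝ := (FT k : ℝ) / 10 ^ 5
    have e : (F + ε) * (L + ε) = L * F + ε * (L + F + ε) := by ring
    rw [e]
    have h6 : L + F + ε ≤ 3 := by
      have : (1 : ℝ) / 10 ^ 6 ≤ 0.1 := by norm_num
      linarith
    have h7 := mul_le_mul_of_nonneg_left h6 hε.le
    linarith
  rw [Finset.sum_add_distrib, Finset.sum_const, card_range, nsmul_eq_mul] at h2
  push_cast at h2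
  have h8 : (52 / 2 : ℝ) * ε + ε ≤ 0.00005 := by
    have : (1 : ℝ) / 10 ^ 6 * 27 ≤ 0.00005 := by norm_num
    linarith
  linarith

/-! ### the arrays -/

/-- the array `cB` -/
private noncomputable def ArrE_cB (Qs : Finset ℕ) (cU cL : Finset ℕ → ℝ) (cq : ℕ → Finset ℕ → ℝ) :
    Finset ℕ → ℝ := fun T => cU T - cL T + 1 / 2 * qarr Qs cq T

private theorem ArrE_ev_cB (P Qs : Finset ℕ) (cU cL : Finset ℕ → ℝ) (cq : ℕ → Finset ℕ → ℝ)
    (y : ℕ → ℝ) : ev (ArrE_cB Qs cU cL cq) P y =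
      ev cU P y - ev cL P y + 1 / 2 * ev (qarr Qs cq) P y := by
  unfold ev ArrE_cB
  rw [Finset.mul_sum, ← Finset.sum_sub_distrib, ← Finset.sum_add_distrib]
  exact Finset.sum_congr rfl fun T _ => by ring

/-- the support condition -/
private def ArrE_S (x : ℕ) (δ : ℝ) (T : Finset ℕ) : Prop :=
  T ⊆ PX x ∧ (∀ p ∈ T, (x : ℝ) ^ δ < p) ∧ ∏ p ∈ T, (p : ℝ) ≤ (x : ℝ) ^ (0.4968 : ℝ)

private theorem ArrE_sup {x : ℕ} {δ s : ℝ} {c : Finset ℕ → ℝ} (hs : (0.09 : ℝ) * s = 0.4968)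
    (hc : ∀ T, c T ≠ 0 → T ⊆ PZ x 0.09 \ PZ x δ ∧ ∏ p ∈ T, (p : ℝ) ≤ (x : ℝ) ^ ((0.09 : ℝ) * s))
    (T : Finset ℕ) (hT : c T ≠ 0) : ArrE_S x δ T := by
  obtain ⟨h1, h2⟩ := hc T hT
  rw [hs] at h2
  exact ⟨fun p hp => (ArrE_mem.1 (h1 hp)).1, fun p hp => (ArrE_mem.1 (h1 hp)).2.2, h2⟩

theorem arr_exists (δ : ℝ) (hδ : 0 < δ) (hδ1 : δ < 0.09) : ∀ᶠ x : ℕ in atTop, ∃ cA cB : Finset ℕ → ℝ,
    ArrN x δ ((x : ℝ) ^ (0.4968 : ℝ)) cA ∧ ArrN x δ ((x : ℝ) ^ (0.4968 : ℝ)) cB ∧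
    (∀ m, evD (PX x) cA m - evD (PX x) cB m ≤
      if ∀ p ∈ PZ x 0.09 \ PZ x δ, ¬ p ∣ m then 1 - 1 / 2 * (((PZ x 0.3348 \ PZ x 0.09).filter (fun q => q ∣ m)).card : ℝ) else 0) ∧
    evM (PX x) cA + evM (PX x) cB ≤ 3 * V2 x δ 0.09 ∧
    0.196 * V2 x δ 0.09 ≤ evM (PX x) cA - evM (PX x) cB := by
  classical
  set ε : ℝ := 1 / 10 ^ 6 with hεd
  have hε : 0 < ε := by rw [hεd]; norm_num
  have hζ : (0.09 : ℝ) ≤ 1 := by norm_num
  obtain ⟨cv, hcv, hV⟩ := V2_pos δ 0.09 hδ hδ1.le hζ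
  have hL := wzL δ 0.09 5.52 0.9978 ε hδ hδ1.le hζ (by norm_num) (by norm_num) tab_L hε
  have hU := wzU δ 0.09 5.52 1.0025 ε hδ hδ1.le hζ (by norm_num) (by norm_num) tab_UA hε
  have hUk : ∀ᶠ x : ℕ in atTop, ∀ k ∈ range 17, ∃ c : Finset ℕ → ℝ, (∀ T, |c T| ≤ 1) ∧
      (∀ T, c T ≠ 0 → T ⊆ PZ x 0.09 \ PZ x δ ∧
        ∏ p ∈ T, (p : ℝ) ≤ (x : ℝ) ^ ((0.09 : ℝ) * (4.36 - 0.16 * (k : ℝ)))) ∧
      (∀ m, (if ∀ p ∈ PZ x 0.09 \ PZ x δ, ¬ p ∣ m then 1 else 0) ≤ evD (PX x) c m) ∧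
      evM (PX x) c ≤ ((FT k : ℝ) / 10 ^ 5 + ε) * V2 x δ 0.09 ∧ 0 ≤ evM (PX x) c := by
    rw [Filter.eventually_all_finset]
    intro k hk
    rw [mem_range] at hk
    refine wzU δ 0.09 (4.36 - 0.16 * (k : ℝ)) ((FT k : ℝ) / 10 ^ 5) ε hδ hδ1.le hζ ?_ (by positivity)
      (tab_U k hk) hε
    have : (k : ℝ) ≤ 16 := by
      have : k ≤ 16 := by omega
      exact_mod_cast this
    linarith
  have hcell : ∀ᶠ x : ℕ in atTop, ∀ k ∈ range 17,
      ∑ p ∈ (PX x).filter (fun p : ℕ => (x : ℝ) ^ ((0.09 : ℝ) * (1 + 0.16 * (k : ℝ))) < p ∧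
        (p : ℝ) ≤ (x : ℝ) ^ ((0.09 : ℝ) * (1 + 0.16 * ((k : ℝ) + 1)))), fn p ≤
        Real.log ((1 + 0.16 * ((k : ℝ) + 1)) / (1 + 0.16 * (k : ℝ))) + ε := by
    rw [Filter.eventually_all_finset]
    intro k hk
    rw [mem_range] at hk
    have hk0 : (0 : ℝ) ≤ k := Nat.cast_nonneg k
    have hk16 : (k : ℝ) ≤ 16 := by
      have : k ≤ 16 := by omega
      exact_mod_cast this
    have h1 := mert_cell ((0.09 : ℝ) * (1 + 0.16 * (k : ℝ))) ((0.09 : ℝ) * (1 + 0.16 * ((k : ℝ) + 1))) ε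
      (by positivity) (by linarith) (by linarith) hε
    filter_upwards [h1] with x hx
    rwa [mul_div_mul_left _ _ (by norm_num : (0.09 : ℝ) ≠ 0)] at hx
  filter_upwards [hV, hL, hU, hUk, hcell, eventually_ge_atTop 1] with x h1 h2 h3 h4 h5 h6
  obtain ⟨hV1, -, -⟩ := h1
  have hV0 : 0 < V2 x δ 0.09 := lt_of_lt_of_le hcv hV1
  obtain ⟨cL, hL1, hL2, hL3, hL4⟩ := h2
  obtain ⟨cU, hU1, hU2, hU3, hU4, hU5⟩ := h3
  have hx1 : (1 : ℝ) ≤ x := by exact_mod_cast h6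
  -- the arrays of the cells
  have hck : ∀ k : ℕ, ∃ c : Finset ℕ → ℝ, k < 17 → (∀ T, |c T| ≤ 1) ∧
      (∀ T, c T ≠ 0 → T ⊆ PZ x 0.09 \ PZ x δ ∧
        ∏ p ∈ T, (p : ℝ) ≤ (x : ℝ) ^ ((0.09 : ℝ) * (4.36 - 0.16 * (k : ℝ)))) ∧
      (∀ m, (if ∀ p ∈ PZ x 0.09 \ PZ x δ, ¬ p ∣ m then 1 else 0) ≤ evD (PX x) c m) ∧
      evM (PX x) c ≤ ((FT k : ℝ) / 10 ^ 5 + ε) * V2 x δ 0.09 ∧ 0 ≤ evM (PX x) c := by
    intro k
    by_cases hk : k < 17
    · obtain ⟨c, hc⟩ := h4 k (mem_range.2 hk)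
      exact ⟨c, fun _ => hc⟩
    · exact ⟨0, fun h => absurd h hk⟩
  choose ck hck' using hck
  obtain ⟨kq, hkq⟩ := ArrE_cell x
  set Qs : Finset ℕ := PZ x 0.3348 \ PZ x 0.09 with hQs
  set P' : Finset ℕ := PZ x 0.09 \ PZ x δ with hP'
  set cq : ℕ → Finset ℕ → ℝ := fun q => ck (kq q) with hcq
  have hQX : Qs ⊆ PX x := fun q hq => (ArrE_mem.1 hq).1
  have hPX : P' ⊆ PX x := fun q hq => (ArrE_mem.1 hq).1
  have hdisj : Disjoint Qs P' := by
    rw [Finset.disjoint_left]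
    intro q hq hq'
    have h7 := (ArrE_mem.1 hq).2.2
    have h8 := (ArrE_mem.1 hq').2.1
    linarith
  have hcqP : ∀ q ∈ Qs, ∀ T, cq q T ≠ 0 → T ⊆ P' := fun q hq T hT =>
    ((hck' (kq q) (hkq q hq).1).2.1 T hT).1
  have hcq1 : ∀ q ∈ Qs, ∀ T, |cq q T| ≤ 1 := fun q hq T => (hck' (kq q) (hkq q hq).1).1 T
  -- values
  have hcBD : ∀ m, evD (PX x) (ArrE_cB Qs cU cL cq) m = evD (PX x) cU m - evD (PX x) cL m +
      1 / 2 * ∑ q ∈ Qs, (if q ∣ m then 1 else 0) * evD (PX x) (cq q) m := by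
    intro m
    unfold evD
    rw [ArrE_ev_cB, qarr_ev hQX hPX hdisj hcqP]
  have hcBM : evM (PX x) (ArrE_cB Qs cU cL cq) = evM (PX x) cU - evM (PX x) cL +
      1 / 2 * ∑ q ∈ Qs, 1 / (q : ℝ) * evM (PX x) (cq q) := by
    unfold evM
    rw [ArrE_ev_cB, qarr_ev hQX hPX hdisj hcqP]
  have hind : ∀ m : ℕ, (0 : ℝ) ≤ if ∀ p ∈ P', ¬ p ∣ m then 1 else 0 := by
    intro m
    split_ifs
    · exact zero_le_one
    · exact le_rfl
  have hcqD : ∀ q ∈ Qs, ∀ m, (if ∀ p ∈ P', ¬ p ∣ m then 1 else 0) ≤ evD (PX x) (cq q) m :=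
    fun q hq m => (hck' (kq q) (hkq q hq).1).2.2.1 m
  have hsumD : ∀ m, 0 ≤ ∑ q ∈ Qs, (if q ∣ m then (1 : ℝ) else 0) * evD (PX x) (cq q) m := by
    intro m
    refine Finset.sum_nonneg fun q hq => mul_nonneg ?_ ((hind m).trans (hcqD q hq m))
    split_ifs
    · exact zero_le_one
    · exact le_rfl
  have hBD : ∀ m, 0 ≤ evD (PX x) (ArrE_cB Qs cU cL cq) m := by
    intro m
    rw [hcBD]
    have h7 := hU3 m
    have h8 := hL3 m
    have h9 := hsumD m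
    linarith
  have hsumM : ∑ q ∈ Qs, 1 / (q : ℝ) * evM (PX x) (cq q) ≤
      (∑ k ∈ range 17, ((FT k : ℝ) / 10 ^ 5 + ε) *
        (Real.log ((1 + 0.16 * ((k : ℝ) + 1)) / (1 + 0.16 * (k : ℝ))) + ε)) * V2 x δ 0.09 := by
    have hw : ∀ k : ℕ, 0 ≤ (FT k : ℝ) / 10 ^ 5 + ε := fun k => by positivity
    have h7 := ArrE_sum x kq hkq (fun k => (FT k : ℝ) / 10 ^ 5 + ε) hw
    have h8 : ∑ q ∈ Qs, 1 / (q : ℝ) * evM (PX x) (cq q) ≤
        (∑ q ∈ Qs, 1 / (q : ℝ) * ((FT (kq q) : ℝ) / 10 ^ 5 + ε)) * V2 x δ 0.09 := by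
      rw [Finset.sum_mul]
      refine Finset.sum_le_sum fun q hq => ?_
      rw [mul_assoc]
      exact mul_le_mul_of_nonneg_left (hck' (kq q) (hkq q hq).1).2.2.2.1 (by positivity)
    refine h8.trans (mul_le_mul_of_nonneg_right (h7.trans ?_) hV0.le)
    exact Finset.sum_le_sum fun k hk => mul_le_mul_of_nonneg_left (h5 k hk) (hw k)
  have hmain : 0.196 * V2 x δ 0.09 ≤ evM (PX x) cU - evM (PX x) (ArrE_cB Qs cU cL cq) := by
    rw [hcBM]
    have h7 := ArrE_const ε hε le_rfl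
    have h8 := mul_le_mul_of_nonneg_right h7 hV0.le
    have h9 : (0.9978 - ε - 1 / 2 * ∑ k ∈ range 17, ((FT k : ℝ) / 10 ^ 5 + ε) *
      (Real.log ((1 + 0.16 * ((k : ℝ) + 1)) / (1 + 0.16 * (k : ℝ))) + ε)) * V2 x δ 0.09 =
      (0.9978 - ε) * V2 x δ 0.09 - 1 / 2 * ((∑ k ∈ range 17, ((FT k : ℝ) / 10 ^ 5 + ε) *
        (Real.log ((1 + 0.16 * ((k : ℝ) + 1)) / (1 + 0.16 * (k : ℝ))) + ε)) * V2 x δ 0.09) := by
      ring
    rw [h9] at h8
    linarith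
  refine ⟨cU, ArrE_cB Qs cU cL cq, ⟨fun T => ⟨?_, fun hT => ?_⟩, fun m => ?_, hU5⟩,
    ⟨fun T => ⟨?_, fun hT => ?_⟩, hBD, ArrE_evM_nonneg x _ hBD⟩, fun m => ?_, ?_, hmain⟩
  · have := hU1 T
    linarith
  · exact ArrE_sup (by norm_num) hU2 T hT
  · exact (hind m).trans (hU3 m)
  · have e1 := abs_le.1 (hU1 T)
    have e2 := abs_le.1 (hL1 T)
    have e3 := abs_le.1 (qarr_bd hdisj hcqP hcq1 T)
    unfold ArrE_cB
    rw [abs_le]
    constructor
    · linarith [e1.1, e2.2, e3.1]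
    · linarith [e1.2, e2.1, e3.2]
  · by_cases g1 : cU T = 0
    · by_cases g2 : cL T = 0
      · have g3 : qarr Qs cq T ≠ 0 := by
          intro g3
          apply hT
          unfold ArrE_cB
          rw [g1, g2, g3]
          ring
        obtain ⟨q, hq, hqT, hne, -⟩ := qarr_sup hdisj hcqP T g3
        obtain ⟨hs1, hs2⟩ := (hck' (kq q) (hkq q hq).1).2.1 _ hne
        have hqm := ArrE_mem.1 hq
        have hmem : ∀ p ∈ T, p = q ∨ p ∈ P' := by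
          intro p hp
          by_cases hpq : p = q
          · exact Or.inl hpq
          · exact Or.inr (hs1 (Finset.mem_erase.2 ⟨hpq, hp⟩))
        refine ⟨fun p hp => ?_, fun p hp => ?_, ?_⟩
        · rcases hmem p hp with h | h
          · rw [h]
            exact hqm.1
          · exact hPX h
        · rcases hmem p hp with h | h
          · rw [h]
            refine lt_of_le_of_lt ?_ hqm.2.2
            exact Real.rpow_le_rpow_of_exponent_le hx1 hδ1.le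
          · exact (ArrE_mem.1 h).2.2
        · rw [← Finset.mul_prod_erase T _ hqT]
          have hx0 : (0 : ℝ) < x := by linarith
          calc (q : ℝ) * ∏ p ∈ T.erase q, (p : ℝ) ≤
                (x : ℝ) ^ ((0.09 : ℝ) * (1 + 0.16 * ((kq q : ℝ) + 1))) *
                  (x : ℝ) ^ ((0.09 : ℝ) * (4.36 - 0.16 * (kq q : ℝ))) :=
                mul_le_mul (hkq q hq).2.2 hs2 (by positivity) (by positivity)
            _ = (x : ℝ) ^ (0.4968 : ℝ) := by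
                rw [← Real.rpow_add hx0]
                congr 1
                ring
      · exact ArrE_sup (by norm_num) hL2 T g2
    · exact ArrE_sup (by norm_num) hU2 T g1
  · rw [hcBD]
    have g1 := hL3 m
    split_ifs with g2
    · rw [if_pos g2] at g1
      have g3 : ((Qs.filter (fun q => q ∣ m)).card : ℝ) ≤
          ∑ q ∈ Qs, (if q ∣ m then (1 : ℝ) else 0) * evD (PX x) (cq q) m := by
        rw [Finset.card_filter]
        push_cast
        refine Finset.sum_le_sum fun q hq => ?_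
        have g4 := hcqD q hq m
        rw [if_pos g2] at g4
        split_ifs
        · rw [one_mul]
          exact g4
        · rw [zero_mul]
      linarith
    · rw [if_neg g2] at g1
      have g3 := hsumD m
      linarith
  · have g1 : (1.0025 + ε) * V2 x δ 0.09 ≤ 1.01 * V2 x δ 0.09 := by
      refine mul_le_mul_of_nonneg_right ?_ hV0.le
      rw [hεd]
      norm_num
    linarith

end Pool.Agent.H36.IS2
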