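import Pool.Agent.H91.PK.SvB

/-!
# ISP HiB: very precise sieve weights at s = 61

`SvB_low m k z` (Pool/Agent/H91/PK/SvB.lean) with k = 10 (and m from `SvB_exists`): Ch g1 P (z^60) (z^61) (1 + 9.6e-7/1024) (4.8e-7/1024).
As in `U1_base`, `L1_base`: `(Ch ..).up`, `(Ch ..).lo`; 9.6e-7/1024 < 1e-9.
-/

set_option autoImplicit false

namespace Pool.Agent.H36.IS2

open Pool.Agent.H91.PK (U1 L1)

private theorem HiB_main (z : ℝ) (hz : 1 ≤ z) (P : Finset ℕ) (hP : Pool.Agent.H91.PK.BigP z P) :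
    Pool.Agent.H91.PK.Ch Pool.Agent.H91.PK.g1 P (z ^ (60 : ℝ)) (z ^ (61 : ℝ)) (1 + 1e-9) 1e-9 := by
  obtain ⟨m, hm⟩ := Pool.Agent.H91.PK.SvB_exists z
  have h := Pool.Agent.H91.PK.SvB_low m 10 z hz hm P hP
  refine h.mono (Pool.Agent.H91.PK.V_pos hP) ?_ ?_ ?_ ?_
  · apply Real.rpow_le_rpow_of_exponent_le hz
    norm_num
  · apply Real.rpow_le_rpow_of_exponent_le hz
    norm_num
  · norm_num
  · norm_num

theorem U1_61 : U1 61 (1 + 1e-9) := by
  intro z hz P hP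
  have h := (HiB_main z hz P hP).up
  refine h.mono ?_ le_rfl
  apply Real.rpow_le_rpow_of_exponent_le hz
  norm_num

theorem L1_61 : L1 61 (1 - 1e-9) := by
  intro z hz P hP
  have h := (HiB_main z hz P hP).lo (by norm_num)
  exact h

end Pool.Agent.H36.IS2
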