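import Mathlib

/-!
# ISP LossC: the numerical double sum of the loss

a_j = 0.09 + 0.2404 j/40 (j = 0..40, a_40 = 0.3304), b_k = 0.3348 + 0.1202 k/20 (k = 0..20, b_20 = 0.455).  a_j + 2 b_k < 1 or = 1 is decided exactly:
0.2404 j/40 + 0.2404 k/20 < 1 - 0.09 - 0.6696 = 0.2404, i.e. j + 2k < 40.
log(v'/v) ≤ (v' - v)(1/v + 1/v')/2.  The double sum (half of it) is then ≤ 0.28666 (floating point: 0.2866524).
Rational arithmetic: scale 10^4·40 etc. to integers; a list / sum over range 40 × range 20 with `decide +kernel` on natural numbers (round each term up to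
10^-9), or `norm_num`.
-/

set_option autoImplicit false

namespace Pool.Agent.H36.IS2

open Finset

noncomputable def ca (j : ℕ) : ℝ := 0.09 + 0.00601 * j

noncomputable def cb (k : ℕ) : ℝ := 0.3348 + 0.00601 * k

private def LossC_A (j : ℕ) : ℕ := 9000 + 601 * j

private def LossC_B (k : ℕ) : ℕ := 33480 + 601 * k

private def LossC_n (j k : ℕ) : ℕ :=
  601 ^ 2 * (LossC_A j + LossC_A (j + 1)) * (LossC_B k + LossC_B (k + 1)) * 10 ^ 5 * 10 ^ 9

private def LossC_d (j k : ℕ) : ℕ :=
  4 * LossC_A j * LossC_A (j + 1) * LossC_B k * LossC_B (k + 1) *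
    (10 ^ 5 - (LossC_A (j + 1) + LossC_B (k + 1)))

private def LossC_t (j k : ℕ) : ℕ := if j + 2 * k < 40 then LossC_n j k / LossC_d j k + 1 else 0

private theorem LossC_dec : ∑ j ∈ range 40, ∑ k ∈ range 20, LossC_t j k ≤ 573400000 := by
  decide +kernel

private theorem LossC_log {v w : ℝ} (hv : 0 < v) (hvw : v ≤ w) :
    Real.log (w / v) ≤ (w / v - v / w) / 2 := by
  have hw : 0 < w := lt_of_lt_of_le hv hvw
  have h1 : 0 ≤ Real.log (w / v) := Real.log_nonneg (by rw [le_div_iff₀ hv]; linarith)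
  have h2 := Real.self_le_sinh_iff.2 h1
  rw [Real.sinh_log (div_pos hw hv), inv_div] at h2
  exact h2

private theorem LossC_ca (j : ℕ) : ca j = (LossC_A j : ℝ) / 10 ^ 5 := by
  unfold ca LossC_A
  push_cast
  ring

private theorem LossC_cb (j : ℕ) : cb j = (LossC_B j : ℝ) / 10 ^ 5 := by
  unfold cb LossC_B
  push_cast
  ring

private theorem LossC_div (n d : ℕ) (hd : 0 < d) : (n : ℝ) / d ≤ ((n / d + 1 : ℕ) : ℝ) := by
  rw [div_le_iff₀ (by exact_mod_cast hd)]
  have h1 := Nat.div_add_mod n d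
  have h2 := Nat.mod_lt n hd
  have h3 : n ≤ (n / d + 1) * d := by nlinarith
  exact_mod_cast h3

private theorem LossC_term (j k : ℕ) :
    (if j + 2 * k < 40 then Real.log (ca (j + 1) / ca j) * Real.log (cb (k + 1) / cb k) /
      (1 - ca (j + 1) - cb (k + 1)) else 0) ≤ (LossC_t j k : ℝ) / 10 ^ 9 := by
  unfold LossC_t
  split_ifs with h
  · have hA0 : (0 : ℝ) < LossC_A j := by exact_mod_cast (by unfold LossC_A; omega : 0 < LossC_A j)
    have hB0 : (0 : ℝ) < LossC_B k := by exact_mod_cast (by unfold LossC_B; omega : 0 < LossC_B k)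
    have hA1 : (LossC_A (j + 1) : ℝ) = LossC_A j + 601 := by
      unfold LossC_A
      push_cast
      ring
    have hB1 : (LossC_B (k + 1) : ℝ) = LossC_B k + 601 := by
      unfold LossC_B
      push_cast
      ring
    have hAB : LossC_A (j + 1) + LossC_B (k + 1) < 10 ^ 5 := by
      unfold LossC_A LossC_B
      omega
    have hABr : (LossC_A (j + 1) : ℝ) + LossC_B (k + 1) < 10 ^ 5 := by exact_mod_cast hAB
    have hd0 : 0 < LossC_d j k := by
      unfold LossC_d
      have h1 : 0 < LossC_A j := by unfold LossC_A; omega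
      have h2 : 0 < LossC_B k := by unfold LossC_B; omega
      have h3 : 0 < LossC_A (j + 1) := by unfold LossC_A; omega
      have h4 : 0 < LossC_B (k + 1) := by unfold LossC_B; omega
      have h5 : 0 < 10 ^ 5 - (LossC_A (j + 1) + LossC_B (k + 1)) := Nat.sub_pos_of_lt hAB
      exact Nat.mul_pos (Nat.mul_pos (Nat.mul_pos (Nat.mul_pos (Nat.mul_pos (by norm_num) h1) h3)
        h2) h4) h5
    have hdr : (LossC_d j k : ℝ) = 4 * LossC_A j * LossC_A (j + 1) * LossC_B k * LossC_B (k + 1) *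
        (10 ^ 5 - (LossC_A (j + 1) + LossC_B (k + 1))) := by
      unfold LossC_d
      rw [Nat.cast_mul, Nat.cast_sub hAB.le]
      push_cast
      ring
    have hnr : (LossC_n j k : ℝ) = 601 ^ 2 * (LossC_A j + LossC_A (j + 1)) *
        (LossC_B k + LossC_B (k + 1)) * 10 ^ 5 * 10 ^ 9 := by
      unfold LossC_n
      push_cast
      ring
    have hca0 : 0 < ca j := by rw [LossC_ca]; exact div_pos hA0 (by norm_num)
    have hcb0 : 0 < cb k := by rw [LossC_cb]; exact div_pos hB0 (by norm_num)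
    have hca1 : ca j ≤ ca (j + 1) := by
      rw [LossC_ca, LossC_ca, hA1]
      gcongr
      linarith
    have hcb1 : cb k ≤ cb (k + 1) := by
      rw [LossC_cb, LossC_cb, hB1]
      gcongr
      linarith
    have hpos : 0 < 1 - ca (j + 1) - cb (k + 1) := by
      rw [LossC_ca, LossC_cb]
      have : (LossC_A (j + 1) : ℝ) / 10 ^ 5 + LossC_B (k + 1) / 10 ^ 5 < 1 := by
        rw [← add_div, div_lt_one (by norm_num)]
        exact hABr
      linarith
    have hl1 := LossC_log hca0 hca1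
    have hl2 := LossC_log hcb0 hcb1
    have hl2' : 0 ≤ Real.log (cb (k + 1) / cb k) :=
      Real.log_nonneg (by rw [le_div_iff₀ hcb0]; linarith)
    have hl1' : 0 ≤ (ca (j + 1) / ca j - ca j / ca (j + 1)) / 2 :=
      le_trans (Real.log_nonneg (by rw [le_div_iff₀ hca0]; linarith)) hl1
    have hq : (ca (j + 1) / ca j - ca j / ca (j + 1)) / 2 *
        ((cb (k + 1) / cb k - cb k / cb (k + 1)) / 2) / (1 - ca (j + 1) - cb (k + 1)) =
        (LossC_n j k : ℝ) / LossC_d j k / 10 ^ 9 := by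
      rw [hnr, hdr, LossC_ca, LossC_ca, LossC_cb, LossC_cb]
      have hx : (0 : ℝ) < LossC_A (j + 1) := by rw [hA1]; linarith
      have hy : (0 : ℝ) < LossC_B (k + 1) := by rw [hB1]; linarith
      have hz : (0 : ℝ) < 10 ^ 5 - (LossC_A (j + 1) + LossC_B (k + 1)) := by linarith
      have hz' : (1 : ℝ) - LossC_A (j + 1) / 10 ^ 5 - LossC_B (k + 1) / 10 ^ 5 =
          (10 ^ 5 - (LossC_A (j + 1) + LossC_B (k + 1))) / 10 ^ 5 := by
        field_simp
        ring
      rw [hz']
      have e1 : ((LossC_A (j + 1) : ℝ) / 10 ^ 5 / (LossC_A j / 10 ^ 5) -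
          LossC_A j / 10 ^ 5 / (LossC_A (j + 1) / 10 ^ 5)) / 2 =
          601 * (LossC_A j + LossC_A (j + 1)) / (2 * (LossC_A j * LossC_A (j + 1))) := by
        have : (601 : ℝ) = LossC_A (j + 1) - LossC_A j := by rw [hA1]; ring
        rw [this]
        field_simp
        ring
      have e2 : ((LossC_B (k + 1) : ℝ) / 10 ^ 5 / (LossC_B k / 10 ^ 5) -
          LossC_B k / 10 ^ 5 / (LossC_B (k + 1) / 10 ^ 5)) / 2 =
          601 * (LossC_B k + LossC_B (k + 1)) / (2 * (LossC_B k * LossC_B (k + 1))) := by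
        have : (601 : ℝ) = LossC_B (k + 1) - LossC_B k := by rw [hB1]; ring
        rw [this]
        field_simp
        ring
      rw [e1, e2]
      generalize (LossC_A j : ℝ) = a at *
      generalize (LossC_A (j + 1) : ℝ) = a' at *
      generalize (LossC_B k : ℝ) = b at *
      generalize (LossC_B (k + 1) : ℝ) = b' at *
      generalize (10 : ℝ) ^ 5 - (a' + b') = z at *
      field_simp
      ring
    calc Real.log (ca (j + 1) / ca j) * Real.log (cb (k + 1) / cb k) / (1 - ca (j + 1) - cb (k + 1))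
        ≤ (ca (j + 1) / ca j - ca j / ca (j + 1)) / 2 *
          ((cb (k + 1) / cb k - cb k / cb (k + 1)) / 2) / (1 - ca (j + 1) - cb (k + 1)) := by
          apply div_le_div_of_nonneg_right _ hpos.le
          exact mul_le_mul hl1 hl2 hl2' hl1'
      _ = (LossC_n j k : ℝ) / LossC_d j k / 10 ^ 9 := hq
      _ ≤ _ := by
          apply div_le_div_of_nonneg_right _ (by norm_num)
          exact LossC_div _ _ hd0
  · simp

theorem loss_num : 1 / 2 * ∑ j ∈ range 40, ∑ k ∈ range 20,
    (if j + 2 * k < 40 then Real.log (ca (j + 1) / ca j) * Real.log (cb (k + 1) / cb k) / (1 - ca (j + 1) - cb (k + 1)) else 0) ≤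
      (0.2867 : ℝ) := by
  have h1 : ∑ j ∈ range 40, ∑ k ∈ range 20,
      (if j + 2 * k < 40 then Real.log (ca (j + 1) / ca j) * Real.log (cb (k + 1) / cb k) / (1 - ca (j + 1) - cb (k + 1)) else 0) ≤
      ∑ j ∈ range 40, ∑ k ∈ range 20, (LossC_t j k : ℝ) / 10 ^ 9 :=
    Finset.sum_le_sum fun j _ => Finset.sum_le_sum fun k _ => LossC_term j k
  have h2 : ∑ j ∈ range 40, ∑ k ∈ range 20, (LossC_t j k : ℝ) / 10 ^ 9 =
      ((∑ j ∈ range 40, ∑ k ∈ range 20, LossC_t j k : ℕ) : ℝ) / 10 ^ 9 := by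
    push_cast
    rw [Finset.sum_div]
    refine Finset.sum_congr rfl fun j _ => ?_
    rw [Finset.sum_div]
  have h3 : ((∑ j ∈ range 40, ∑ k ∈ range 20, LossC_t j k : ℕ) : ℝ) ≤ 573400000 := by
    exact_mod_cast LossC_dec
  rw [h2] at h1
  have h4 : ((∑ j ∈ range 40, ∑ k ∈ range 20, LossC_t j k : ℕ) : ℝ) / 10 ^ 9 ≤ 573400000 / 10 ^ 9 :=
    div_le_div_of_nonneg_right h3 (by norm_num)
  have h5 : (573400000 : ℝ) / 10 ^ 9 = 2 * 0.2867 := by norm_num
  rw [h5] at h4
  linarith

end Pool.Agent.H36.IS2
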