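import Pool.Agent.H36.IS2.Defs2

/-!
# ISP LossP: pointwise bound outside R12

`SL_cof`: a = p₁ p₂ ∈ SL x 0.09 0.3348: p₁ ≤ 3x/p₂² < 3 x^(1 - 0.6696), a² = p₁ · (p₁ p₂²) ≤ 3 x^(0.3304) · 3x, so a ≤ 3 x^(0.6652) ≤ x^(0.7) for large x;
 the prime factors of a are p₁, p₂ > x^(0.09) > x^δ.
`loss_pt`: let x be large, x < m ≤ 2x + s, m not in R12, no p ∈ PZ x δ divides m, no p ∈ PZ x 0.09 \ PZ x δ divides m; let N = #{q ∈ PZ x 0.3348 \ PZ x 0.09 : q ∣ m}.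
Then 1 - N/2 ≤ (1/2) [MkS (SL x) m] + [∃ p prime, x^δ < p, p² ∣ m].
Proof: all prime factors of m are > x^(0.09) (those ≤ z0 x: hypothesis hz), hence m < p^12 for them (p^12 > x^(1.08) > 2x + s);
so m ∉ R12 means m has at least 3 prime factors with multiplicity.  If N ≥ 2 the left side is ≤ 0.  If some p² ∣ m the right side is ≥ 1.
Otherwise m is squarefree.  If N = 0: three prime factors > x^(0.3348): m > x^(1.0044) > 2x + s, contradiction.  If N = 1: p₁ the only prime factor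
≤ x^(0.3348), the others are > x^(0.3348); there are exactly two others (three: m > x^(0.09 + 1.0044)): m = p₁ p₂ p₃ with p₂ < p₃,
p₁ p₂² < m ≤ 2x + s ≤ 3x, so a = p₁ p₂ ∈ SL and m/a = p₃ is prime.
-/

set_option autoImplicit false

namespace Pool.Agent.H36.IS2

open Finset Filter Pool.Agent.H36.IS Pool.Agent.H76.ISE

private theorem LossP_ev (c : ℝ) (r : ℝ) (hr : 0 < r) :
    ∀ᶠ x : ℕ in atTop, c ≤ (x : ℝ) ^ r :=
  ((tendsto_rpow_atTop hr).comp tendsto_natCast_atTop_atTop).eventually_ge_atTop c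

theorem SL_cof (δ : ℝ) (hδ : 0 < δ) (hδ1 : δ < 0.09) : ∀ᶠ x : ℕ in atTop, ∀ a ∈ SL x 0.09 0.3348,
    0 < a ∧ (a : ℝ) ≤ (x : ℝ) ^ (7 / 10 : ℝ) ∧ ∀ p : ℕ, p.Prime → p ∣ a → (x : ℝ) ^ δ < p := by
  filter_upwards [LossP_ev 9 0.0696 (by norm_num), eventually_ge_atTop 1] with x hx hx1 a ha
  have hxr : (1 : ℝ) ≤ x := by exact_mod_cast hx1
  have hx0 : (0 : ℝ) < x := by linarith
  unfold SL at ha
  rw [mem_image] at ha
  obtain ⟨⟨p₁, p₂⟩, hpq, rfl⟩ := ha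
  rw [mem_filter, mem_product, mem_filter, mem_filter] at hpq
  obtain ⟨⟨⟨-, hp1, h1, h2⟩, -, hp2, h3⟩, h4⟩ := hpq
  simp only at hp1 h1 h2 hp2 h3 h4 ⊢
  have q1 : (0 : ℝ) < p₁ := by exact_mod_cast hp1.pos
  have q2 : (0 : ℝ) < p₂ := by exact_mod_cast hp2.pos
  have h4' : (p₁ : ℝ) * (p₂ : ℝ) ^ 2 ≤ 3 * x := by exact_mod_cast h4
  refine ⟨Nat.mul_pos hp1.pos hp2.pos, ?_, ?_⟩
  · -- the size
    have e1 : ((x : ℝ) ^ (0.3348 : ℝ)) ^ 2 = (x : ℝ) ^ (0.6696 : ℝ) := by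
      rw [← Real.rpow_natCast, ← Real.rpow_mul hx0.le]
      norm_num
    have e2 : (x : ℝ) ^ (0.6696 : ℝ) ≤ (p₂ : ℝ) ^ 2 := by
      rw [← e1]
      exact pow_le_pow_left₀ (by positivity) h3.le 2
    have e3 : (p₁ : ℝ) * (x : ℝ) ^ (0.6696 : ℝ) ≤ 3 * x :=
      (mul_le_mul_of_nonneg_left e2 q1.le).trans h4'
    have e4 : (x : ℝ) ^ (0.6696 : ℝ) * (x : ℝ) ^ (0.3304 : ℝ) = x := by
      rw [← Real.rpow_add hx0]
      norm_num
    have e5 : (p₁ : ℝ) ≤ 3 * (x : ℝ) ^ (0.3304 : ℝ) := by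
      have : (0 : ℝ) < (x : ℝ) ^ (0.6696 : ℝ) := by positivity
      refine le_of_mul_le_mul_right ?_ this
      calc (p₁ : ℝ) * (x : ℝ) ^ (0.6696 : ℝ) ≤ 3 * x := e3
        _ = 3 * ((x : ℝ) ^ (0.6696 : ℝ) * (x : ℝ) ^ (0.3304 : ℝ)) := by rw [e4]
        _ = 3 * (x : ℝ) ^ (0.3304 : ℝ) * (x : ℝ) ^ (0.6696 : ℝ) := by ring
    have e6 : ((p₁ : ℝ) * p₂) ^ 2 ≤ ((x : ℝ) ^ (7 / 10 : ℝ)) ^ 2 := by
      calc ((p₁ : ℝ) * p₂) ^ 2 = p₁ * (p₁ * p₂ ^ 2) := by ring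
        _ ≤ (3 * (x : ℝ) ^ (0.3304 : ℝ)) * (3 * x) :=
            mul_le_mul e5 h4' (by positivity) (by positivity)
        _ = 9 * ((x : ℝ) ^ (0.3304 : ℝ) * x) := by ring
        _ ≤ (x : ℝ) ^ (0.0696 : ℝ) * ((x : ℝ) ^ (0.3304 : ℝ) * x) :=
            mul_le_mul_of_nonneg_right hx (by positivity)
        _ = (x : ℝ) ^ (0.0696 : ℝ) * ((x : ℝ) ^ (0.3304 : ℝ) * (x : ℝ) ^ (1 : ℝ)) := by
            rw [Real.rpow_one]
        _ = ((x : ℝ) ^ (7 / 10 : ℝ)) ^ 2 := by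
            rw [← Real.rpow_add hx0, ← Real.rpow_add hx0, ← Real.rpow_natCast,
              ← Real.rpow_mul hx0.le]
            norm_num
    push_cast
    exact (pow_le_pow_iff_left₀ (by positivity) (by positivity) two_ne_zero).1 e6
  · intro p hp hpa
    have b1 : (x : ℝ) ^ δ ≤ (x : ℝ) ^ (0.09 : ℝ) := Real.rpow_le_rpow_of_exponent_le hxr hδ1.le
    have b2 : (x : ℝ) ^ δ ≤ (x : ℝ) ^ (0.3348 : ℝ) :=
      Real.rpow_le_rpow_of_exponent_le hxr (by linarith)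
    rcases hp.dvd_mul.1 hpa with h | h
    · rw [(Nat.prime_dvd_prime_iff_eq hp hp1).1 h]
      linarith
    · rw [(Nat.prime_dvd_prime_iff_eq hp hp2).1 h]
      linarith

open Classical in
theorem loss_pt (δ : ℝ) (hδ : 0 < δ) (hδ1 : δ < 0.09) (s : ℕ) : ∀ᶠ x : ℕ in atTop, ∀ m : ℕ, x < m → m ≤ 2 * x + s →
    ¬ R12 m → (∀ p : ℕ, p.Prime → (p : ℝ) ≤ z0 x → ¬ p ∣ m) → (∀ p ∈ PZ x δ, ¬ p ∣ m) →
    (∀ p ∈ PZ x 0.09 \ PZ x δ, ¬ p ∣ m) →
    1 - 1 / 2 * (((PZ x 0.3348 \ PZ x 0.09).filter (fun q => q ∣ m)).card : ℝ) ≤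
      (if MkS (SL x 0.09 0.3348) m then 1 / 2 else 0) +
        (if ∃ p : ℕ, p.Prime ∧ (x : ℝ) ^ δ < p ∧ p ^ 2 ∣ m then 1 else 0) := by
  filter_upwards [LossP_ev 3 0.0044 (by norm_num), eventually_ge_atTop (s + 1)] with x hx hxs
    m hm1 hm2 hR hz h1 h2
  have hx1 : 1 ≤ x := by omega
  have hxr : (1 : ℝ) ≤ x := by exact_mod_cast hx1
  have hx0 : (0 : ℝ) < x := by linarith
  have hm0 : m ≠ 0 := by omega
  have hm3 : m ≤ 3 * x := by omega
  have hm3r : (m : ℝ) ≤ 3 * x := by exact_mod_cast hm3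
  -- size
  have hbig : (m : ℝ) ≤ (x : ℝ) ^ (1.0044 : ℝ) := by
    calc (m : ℝ) ≤ 3 * x := hm3r
      _ ≤ (x : ℝ) ^ (0.0044 : ℝ) * x := mul_le_mul_of_nonneg_right hx hx0.le
      _ = (x : ℝ) ^ (0.0044 : ℝ) * (x : ℝ) ^ (1 : ℝ) := by rw [Real.rpow_one]
      _ = (x : ℝ) ^ (1.0044 : ℝ) := by
          rw [← Real.rpow_add hx0]
          norm_num
  -- all prime factors are large
  have hlarge : ∀ p : ℕ, p.Prime → p ∣ m → (x : ℝ) ^ (0.09 : ℝ) < p := by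
    intro p hp hpm
    by_contra hcon
    push Not at hcon
    have hpx : (p : ℝ) ≤ x := by
      calc (p : ℝ) ≤ (x : ℝ) ^ (0.09 : ℝ) := hcon
        _ ≤ (x : ℝ) ^ (1 : ℝ) := Real.rpow_le_rpow_of_exponent_le hxr (by norm_num)
        _ = x := Real.rpow_one _
    have hpx' : p ≤ x := by exact_mod_cast hpx
    have hz' : z0 x < p := by
      by_contra hc
      exact hz p hp (not_lt.1 hc) hpm
    have hmem : p ∈ PZ x 0.09 := by
      unfold PZ PX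
      rw [mem_filter, mem_filter, mem_range]
      exact ⟨⟨by omega, hp, hz'⟩, hcon⟩
    by_cases hmd : p ∈ PZ x δ
    · exact h1 p hmd hpm
    · exact h2 p (mem_sdiff.2 ⟨hmem, hmd⟩) hpm
  have hrough : ∀ p : ℕ, p.Prime → p ∣ m → m < p ^ 12 := by
    intro p hp hpm
    have a1 := hlarge p hp hpm
    have a2 : ((x : ℝ) ^ (0.09 : ℝ)) ^ 12 = (x : ℝ) ^ (1.08 : ℝ) := by
      rw [← Real.rpow_natCast, ← Real.rpow_mul hx0.le]
      norm_num
    have a3 : ((x : ℝ) ^ (0.09 : ℝ)) ^ 12 < (p : ℝ) ^ 12 :=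
      pow_lt_pow_left₀ a1 (by positivity) (by norm_num)
    have a4 : (x : ℝ) ^ (1.0044 : ℝ) ≤ (x : ℝ) ^ (1.08 : ℝ) :=
      Real.rpow_le_rpow_of_exponent_le hxr (by norm_num)
    have a5 : (m : ℝ) < (p : ℝ) ^ 12 := by linarith
    exact_mod_cast a5
  have hlen : 3 ≤ m.primeFactorsList.length := by
    by_contra hcon
    exact hR ⟨by omega, hrough⟩
  have hn0 : (0 : ℝ) ≤ (if MkS (SL x 0.09 0.3348) m then 1 / 2 else 0) := by
    split_ifs <;> norm_num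
  -- square factors
  by_cases hsq : ∃ p : ℕ, p.Prime ∧ (x : ℝ) ^ δ < p ∧ p ^ 2 ∣ m
  · rw [if_pos hsq]
    have : (0 : ℝ) ≤ (((PZ x 0.3348 \ PZ x 0.09).filter (fun q => q ∣ m)).card : ℝ) :=
      Nat.cast_nonneg _
    linarith
  rw [if_neg hsq, add_zero]
  have hδx : (x : ℝ) ^ δ ≤ (x : ℝ) ^ (0.09 : ℝ) := Real.rpow_le_rpow_of_exponent_le hxr hδ1.le
  have hsqf : Squarefree m := by
    rw [Nat.squarefree_iff_prime_squarefree]
    intro p hp hpp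
    refine hsq ⟨p, hp, ?_, by rw [pow_two]; exact hpp⟩
    have := hlarge p hp (dvd_trans (dvd_mul_right p p) hpp)
    linarith
  have hcard : 3 ≤ m.primeFactors.card := by
    have : m.primeFactorsList.toFinset.card = m.primeFactorsList.length :=
      List.toFinset_card_of_nodup ((Nat.squarefree_iff_nodup_primeFactorsList hm0).1 hsqf)
    have h' : m.primeFactors = m.primeFactorsList.toFinset := rfl
    rw [h', this]
    exact hlen
  set F₁ : Finset ℕ := m.primeFactors.filter (fun p : ℕ => (p : ℝ) ≤ (x : ℝ) ^ (0.3348 : ℝ)) with hF₁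
  set F₂ : Finset ℕ := m.primeFactors.filter (fun p : ℕ => ¬ (p : ℝ) ≤ (x : ℝ) ^ (0.3348 : ℝ)) with hF₂
  have hF₁N : (PZ x 0.3348 \ PZ x 0.09).filter (fun q => q ∣ m) = F₁ := by
    ext p
    rw [Finset.mem_filter, Finset.mem_sdiff, hF₁, Finset.mem_filter, Nat.mem_primeFactors]
    constructor
    · rintro ⟨⟨ha, hb⟩, hc⟩
      unfold PZ PX at ha
      rw [mem_filter, mem_filter] at ha
      exact ⟨⟨ha.1.2.1, hc, hm0⟩, ha.2⟩
    · rintro ⟨⟨hp, hpm, -⟩, hle⟩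
      have hl := hlarge p hp hpm
      have hpx : (p : ℝ) ≤ x := by
        calc (p : ℝ) ≤ (x : ℝ) ^ (0.3348 : ℝ) := hle
          _ ≤ (x : ℝ) ^ (1 : ℝ) := Real.rpow_le_rpow_of_exponent_le hxr (by norm_num)
          _ = x := Real.rpow_one _
      have hpx' : p ≤ x := by exact_mod_cast hpx
      have hz' : z0 x < p := by
        by_contra hc
        exact hz p hp (not_lt.1 hc) hpm
      refine ⟨⟨?_, ?_⟩, hpm⟩
      · unfold PZ PX
        rw [mem_filter, mem_filter, mem_range]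
        exact ⟨⟨by omega, hp, hz'⟩, hle⟩
      · intro hc
        unfold PZ at hc
        rw [mem_filter] at hc
        linarith [hc.2]
  rw [hF₁N]
  have hsum : F₁.card + F₂.card = m.primeFactors.card :=
    card_filter_add_card_filter_not _
  have hprodm : ∏ p ∈ m.primeFactors, p = m := Nat.prod_primeFactors_of_squarefree hsqf
  have hpos : ∀ p ∈ m.primeFactors, 0 < p := fun p hp => (Nat.prime_of_mem_primeFactors hp).pos
  have hprod : (∏ p ∈ F₁, p) * ∏ p ∈ F₂, p = m := by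
    rw [← hprodm]
    exact prod_filter_mul_prod_filter_not _ _ _
  have hF₂le : F₂.card ≤ 2 := by
    by_contra hcon
    have c1 : ((x : ℝ) ^ (0.3348 : ℝ)) ^ F₂.card < ∏ p ∈ F₂, (p : ℝ) := by
      rw [← prod_const]
      have hne : F₂.Nonempty := card_pos.1 (by omega)
      refine prod_lt_prod_of_nonempty (fun i _ => by positivity) (fun i hi => ?_) hne
      rw [hF₂, mem_filter] at hi
      exact not_le.1 hi.2
    have c2 : (1 : ℝ) ≤ (x : ℝ) ^ (0.3348 : ℝ) := Real.one_le_rpow hxr (by norm_num)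
    have c3 : ((x : ℝ) ^ (0.3348 : ℝ)) ^ 3 ≤ ((x : ℝ) ^ (0.3348 : ℝ)) ^ F₂.card :=
      pow_le_pow_right₀ c2 (by omega)
    have c4 : ((x : ℝ) ^ (0.3348 : ℝ)) ^ 3 = (x : ℝ) ^ (1.0044 : ℝ) := by
      rw [← Real.rpow_natCast, ← Real.rpow_mul hx0.le]
      norm_num
    have c5 : ∏ p ∈ F₂, (p : ℝ) ≤ m := by
      have : ∏ p ∈ F₂, p ≤ m := by
        conv_rhs => rw [← hprod]
        refine Nat.le_mul_of_pos_left _ (prod_pos fun p hp => hpos p ?_)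
        exact (mem_filter.1 hp).1
      have h' : ((∏ p ∈ F₂, p : ℕ) : ℝ) ≤ m := by exact_mod_cast this
      rwa [Nat.cast_prod] at h'
    linarith
  rcases Nat.lt_or_ge 1 F₁.card with hN | hN
  · have : (2 : ℝ) ≤ (F₁.card : ℝ) := by exact_mod_cast hN
    linarith
  have hc1 : F₁.card = 1 := by omega
  have hc2 : F₂.card = 2 := by omega
  obtain ⟨p₁, hp₁⟩ := card_eq_one.1 hc1
  obtain ⟨p₂, p₃, hp₂₃, hp₂⟩ : ∃ p₂ p₃, p₂ < p₃ ∧ F₂ = {p₂, p₃} := by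
    obtain ⟨a, b, hab, hF⟩ := card_eq_two.1 hc2
    rcases lt_or_gt_of_ne hab with h | h
    · exact ⟨a, b, h, hF⟩
    · exact ⟨b, a, h, by rw [hF, pair_comm]⟩
  have m1 : p₁ ∈ F₁ := by rw [hp₁]; exact mem_singleton_self _
  have m2 : p₂ ∈ F₂ := by rw [hp₂]; simp
  have m3 : p₃ ∈ F₂ := by rw [hp₂]; simp
  rw [hF₁, mem_filter] at m1
  rw [hF₂, mem_filter] at m2 m3
  have P1 := Nat.prime_of_mem_primeFactors m1.1
  have P2 := Nat.prime_of_mem_primeFactors m2.1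
  have P3 := Nat.prime_of_mem_primeFactors m3.1
  have hmeq : p₁ * p₂ * p₃ = m := by
    rw [hp₁, hp₂, prod_singleton, prod_pair hp₂₃.ne] at hprod
    rw [← hprod]
    ring
  have hM : MkS (SL x 0.09 0.3348) m := by
    refine ⟨p₁ * p₂, ?_, ⟨p₃, hmeq.symm⟩, ?_⟩
    · have hle : p₁ * p₂ ^ 2 ≤ 3 * x := by
        calc p₁ * p₂ ^ 2 = p₁ * p₂ * p₂ := by ring
          _ ≤ p₁ * p₂ * p₃ := Nat.mul_le_mul_left _ hp₂₃.le
          _ = m := hmeq
          _ ≤ 3 * x := hm3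
      have hle1 : p₁ ≤ 3 * x := (Nat.le_of_dvd (by omega) (Nat.dvd_of_mem_primeFactors m1.1)).trans hm3
      have hle2 : p₂ ≤ 3 * x := (Nat.le_of_dvd (by omega) (Nat.dvd_of_mem_primeFactors m2.1)).trans hm3
      unfold SL
      rw [mem_image]
      refine ⟨(p₁, p₂), ?_, rfl⟩
      rw [mem_filter, mem_product, mem_filter, mem_filter, mem_range, mem_range]
      refine ⟨⟨⟨by simp only; omega, P1, ?_, m1.2⟩, by simp only; omega, P2, not_le.1 m2.2⟩, hle⟩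
      exact hlarge p₁ P1 (Nat.dvd_of_mem_primeFactors m1.1)
    · have : m / (p₁ * p₂) = p₃ := by
        rw [← hmeq]
        exact Nat.mul_div_cancel_left _ (Nat.mul_pos P1.pos P2.pos)
      rw [this]
      exact P3
  rw [if_pos hM, hc1]
  norm_num

end Pool.Agent.H36.IS2
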