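import Pool.Agent.H76.ISE.Defs
import Pool.Agent.H36.IS.Pnt
import Pool.Agent.H36.IS.MCa
import Pool.Agent.H36.IS2.Defs2
import Pool.Agent.H36.IS2.LossC
import Pool.Agent.H36.IS2.LossP

/-!
# ISP LossN: the size of the loss

`DP_cof_up`: for a ≤ x^(7/10): DP(x/a) log x/x ≤ (1 + ε)(1/a)/(1 - log a/log x)   (as `DP_cof` in Pool/Agent/H76/ISE/DPa.lean, with the upper bound of
 `DP_pnt`: y = x/a (floor) → ∞ uniformly, DP y ≤ (1+ε') y/log y, and t/log t is increasing for t ≥ e.)
Cells: α_0 = 0.09, α_j = ca j + ν (j ≥ 1), β_0 = 0.3348, β_k = cb k + ν (k ≥ 1).  A pair (p₁,p₂) with p₁ p₂² ≤ 3x < x^(1+ν) lies in a cell (j,k) with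
 j + 2k < 40.  In a cell: 1/(1 - log a/log x) ≤ 1/(1 - ca (j+1) - cb (k+1) - 2ν) and ∑ 1/(p₁p₂) ≤ ∑ fn p₁ ∑ fn p₂ (`mert_cell`).
ν is chosen by continuity from `loss_num`.
-/

set_option autoImplicit false

namespace Pool.Agent.H36.IS2

open Finset Filter Pool.Agent.H36.IS Pool.Agent.H76.ISE

theorem DP_cof_up (ε : ℝ) (hε : 0 < ε) : ∀ᶠ x : ℕ in atTop, ∀ a : ℕ, 0 < a → (a : ℝ) ≤ (x : ℝ) ^ (7 / 10 : ℝ) →
    DP (x / a) * Real.log x / x ≤ (1 + ε) * (1 / (a : ℝ) * (1 / (1 - Real.log a / Real.log x))) := by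
  obtain ⟨Y, hY⟩ := eventually_atTop.1 (DP_pnt ε hε)
  have ht : Tendsto (fun x : ℕ => (x : ℝ) ^ (3 / 10 : ℝ)) atTop atTop :=
    (tendsto_rpow_atTop (by norm_num)).comp tendsto_natCast_atTop_atTop
  filter_upwards [ht.eventually_ge_atTop (Y + 4 : ℝ), eventually_ge_atTop 2] with x hx3 hx2 a ha hax
  have hxR : (2 : ℝ) ≤ x := by exact_mod_cast hx2
  have hx0 : (0 : ℝ) < x := by linarith
  have haR : (1 : ℝ) ≤ a := by exact_mod_cast ha
  have ha0 : (0 : ℝ) < a := by linarith
  -- x / a is large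
  have hq : (x : ℝ) ^ (3 / 10 : ℝ) ≤ x / a := by
    rw [le_div_iff₀ ha0]
    calc (x : ℝ) ^ (3 / 10 : ℝ) * a ≤ (x : ℝ) ^ (3 / 10 : ℝ) * (x : ℝ) ^ (7 / 10 : ℝ) :=
          mul_le_mul_of_nonneg_left hax (by positivity)
      _ = x := by
          rw [← Real.rpow_add hx0]
          norm_num
  have hfl : (x : ℝ) / a - 1 < ((x / a : ℕ) : ℝ) := by
    have := Nat.lt_floor_add_one ((x : ℝ) / a)
    rw [Nat.floor_div_natCast, Nat.floor_natCast] at this
    linarith
  have hfl2 : ((x / a : ℕ) : ℝ) ≤ x / a := Nat.cast_div_le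
  set y : ℕ := x / a with hy
  have hY0 : (0 : ℝ) ≤ Y := Nat.cast_nonneg Y
  have hyY : Y ≤ y := by
    have : (Y : ℝ) ≤ y := by linarith
    exact_mod_cast this
  have hy3 : (3 : ℝ) < y := by linarith
  have he : Real.exp 1 ≤ y := by
    have := Real.exp_one_lt_d9
    linarith
  have hy0 : (0 : ℝ) < y := by linarith
  have hlogy : 0 < Real.log y := Real.log_pos (by linarith)
  have hDP := (hY y hyY).2
  have hlogx : 0 < Real.log x := Real.log_pos (by linarith)
  have hX0 : (0 : ℝ) < x / a := div_pos hx0 ha0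
  have hlX : 0 < Real.log ((x : ℝ) / a) := Real.log_pos (by linarith)
  have hlog : Real.log ((x : ℝ) / a) = Real.log x - Real.log a := Real.log_div hx0.ne' ha0.ne'
  have hmono : (y : ℝ) / Real.log y ≤ (x / a) / Real.log ((x : ℝ) / a) := by
    have h1 := Real.log_div_self_antitoneOn (a := (y : ℝ)) (b := (x : ℝ) / a) he (he.trans hfl2) hfl2
    simp only at h1
    rw [div_le_div_iff₀ hX0 hy0] at h1
    rw [div_le_div_iff₀ hlogy hlX]
    linarith
  have hd : 0 < Real.log x - Real.log a := by rw [← hlog]; exact hlX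
  have h6 : 1 / (1 - Real.log a / Real.log x) = Real.log x / (Real.log x - Real.log a) := by
    have : 1 - Real.log a / Real.log x = (Real.log x - Real.log a) / Real.log x := by
      field_simp
    rw [this, one_div_div]
  rw [h6]
  have h7 : DP y ≤ (1 + ε) * ((x / a) / (Real.log x - Real.log a)) := by
    rw [← hlog]
    exact hDP.trans (mul_le_mul_of_nonneg_left hmono (by linarith))
  have h8 : (1 + ε) * (1 / (a : ℝ) * (Real.log x / (Real.log x - Real.log a))) =
      (1 + ε) * ((x / a) / (Real.log x - Real.log a)) * Real.log x / x := by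
    field_simp
  rw [h8]
  apply div_le_div_of_nonneg_right _ hx0.le
  exact mul_le_mul_of_nonneg_right h7 hlogx.le

/-- the bound as a function of `ν` -/
private noncomputable def Hn (ν : ℝ) : ℝ := ∑ j ∈ range 40, ∑ k ∈ range 20,
  (if j + 2 * k < 40 then (1 + ν) * ((Real.log ((ca (j + 1) + ν) / ca j) + ν) * (Real.log ((cb (k + 1) + ν) / cb k) + ν)) /
    (1 - (ca (j + 1) + ν) - (cb (k + 1) + ν)) else 0)

private theorem ca_pos (j : ℕ) : 0 < ca j := by unfold ca; positivity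

private theorem cb_pos (j : ℕ) : 0 < cb j := by unfold cb; positivity

private theorem den_pos {j k : ℕ} (h : j + 2 * k < 40) : 0.3 < 1 - ca (j + 1) - cb (k + 1) := by
  have h1 : (j : ℝ) + 2 * k ≤ 39 := by exact_mod_cast (by omega : j + 2 * k ≤ 39)
  have h2 : (0 : ℝ) ≤ k := Nat.cast_nonneg k
  unfold ca cb
  push_cast
  norm_num
  linarith

private theorem Hn_lim : Tendsto Hn (nhds 0) (nhds (Hn 0)) := by
  unfold Hn
  refine tendsto_finsetSum _ (fun j _ => tendsto_finsetSum _ (fun k _ => ?_))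
  split_ifs with h
  · have hd := den_pos h
    have h1 : ContinuousAt (fun ν : ℝ => (1 + ν) * ((Real.log ((ca (j + 1) + ν) / ca j) + ν) *
        (Real.log ((cb (k + 1) + ν) / cb k) + ν)) / (1 - (ca (j + 1) + ν) - (cb (k + 1) + ν))) 0 := by
      have e1 : ContinuousAt (fun ν : ℝ => Real.log ((ca (j + 1) + ν) / ca j)) 0 := by
        apply ContinuousAt.log
        · fun_prop
        · have := div_pos (ca_pos (j + 1)) (ca_pos j)
          simp only [add_zero]
          exact this.ne'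
      have e2 : ContinuousAt (fun ν : ℝ => Real.log ((cb (k + 1) + ν) / cb k)) 0 := by
        apply ContinuousAt.log
        · fun_prop
        · have := div_pos (cb_pos (k + 1)) (cb_pos k)
          simp only [add_zero]
          exact this.ne'
      apply ContinuousAt.div
      · fun_prop
      · fun_prop
      · simp only [add_zero]
        norm_num at hd
        linarith
    exact h1
  · exact tendsto_const_nhds

private theorem Hn_zero : Hn 0 ≤ 2 * 0.2867 := by
  have h := loss_num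
  have h1 : Hn 0 = ∑ j ∈ range 40, ∑ k ∈ range 20,
    (if j + 2 * k < 40 then Real.log (ca (j + 1) / ca j) * Real.log (cb (k + 1) / cb k) /
      (1 - ca (j + 1) - cb (k + 1)) else 0) := by
    unfold Hn
    simp
  rw [h1]
  linarith

private theorem Hn_ex : ∃ ν : ℝ, 0 < ν ∧ ν ≤ 0.0001 ∧ Hn ν ≤ 2 * 0.2868 := by
  have h1 : ∀ᶠ ν in nhds (0 : ℝ), Hn ν < 2 * 0.2868 :=
    Hn_lim.eventually_lt_const (lt_of_le_of_lt Hn_zero (by norm_num))
  have h2 : ∀ᶠ ν in nhdsWithin (0 : ℝ) (Set.Ioi 0), Hn ν < 2 * 0.2868 := h1.filter_mono nhdsWithin_le_nhds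
  have h3 : ∀ᶠ ν in nhdsWithin (0 : ℝ) (Set.Ioi 0), ν ∈ Set.Ioo (0 : ℝ) 0.0001 :=
    Ioo_mem_nhdsGT (by norm_num)
  obtain ⟨ν, h4, h5⟩ := (h2.and h3).exists
  exact ⟨ν, h5.1, h5.2.le, h4.le⟩

private noncomputable def aa (ν : ℝ) (j : ℕ) : ℝ := if j = 0 then 0.09 else ca j + ν

private noncomputable def bb (ν : ℝ) (k : ℕ) : ℝ := if k = 0 then 0.3348 else cb k + ν

private theorem aa_ge {ν : ℝ} (hν : 0 < ν) (j : ℕ) : ca j ≤ aa ν j := by
  unfold aa
  split_ifs with h
  · rw [h]; unfold ca; norm_num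
  · linarith

private theorem bb_ge {ν : ℝ} (hν : 0 < ν) (j : ℕ) : cb j ≤ bb ν j := by
  unfold bb
  split_ifs with h
  · rw [h]; unfold cb; norm_num
  · linarith

private theorem aa_succ (ν : ℝ) (j : ℕ) : aa ν (j + 1) = ca (j + 1) + ν := by
  unfold aa
  rw [if_neg (Nat.succ_ne_zero j)]

private theorem bb_succ (ν : ℝ) (j : ℕ) : bb ν (j + 1) = cb (j + 1) + ν := by
  unfold bb
  rw [if_neg (Nat.succ_ne_zero j)]

private theorem find_cell (f : ℕ → ℝ) (u : ℝ) (N : ℕ) (h0 : f 0 < u) (hN : u ≤ f (N + 1)) :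
    ∃ j, j ≤ N ∧ f j < u ∧ u ≤ f (j + 1) := by
  classical
  have hex : ∃ j, u ≤ f (j + 1) := ⟨N, hN⟩
  refine ⟨Nat.find hex, Nat.find_min' hex hN, ?_, Nat.find_spec hex⟩
  rcases Nat.eq_zero_or_pos (Nat.find hex) with h | h
  · rw [h]; exact h0
  · have := Nat.find_min hex (m := Nat.find hex - 1) (by omega)
    rw [Nat.sub_add_cancel h] at this
    exact not_le.1 this

private theorem cells {ν u v : ℝ} (hν : 0 < ν) (hu : 0.09 < u) (hv : 0.3348 < v)
    (h : u + 2 * v < 1 + ν) : ∃ j k, j < 40 ∧ k < 20 ∧ j + 2 * k < 40 ∧ (aa ν j < u ∧ u ≤ aa ν (j + 1)) ∧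
      (bb ν k < v ∧ v ≤ bb ν (k + 1)) := by
  obtain ⟨j, hj, h1, h2⟩ := find_cell (aa ν) u 39 (by unfold aa; rw [if_pos rfl]; exact hu) (by
    rw [aa_succ]
    unfold ca
    norm_num at hv ⊢
    linarith)
  obtain ⟨k, hk, h3, h4⟩ := find_cell (bb ν) v 19 (by unfold bb; rw [if_pos rfl]; exact hv) (by
    rw [bb_succ]
    unfold cb
    norm_num at hu ⊢
    linarith)
  refine ⟨j, k, by omega, by omega, ?_, ⟨h1, h2⟩, ⟨h3, h4⟩⟩
  by_contra hc
  have hc1 : (40 : ℝ) ≤ j + 2 * k := by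
    push Not at hc
    exact_mod_cast hc
  have h5 : aa ν j + 2 * bb ν k < 1 + ν := by linarith
  have h6 := aa_ge hν j
  have h7 := bb_ge hν k
  have h8 : 1 ≤ ca j + 2 * cb k := by
    unfold ca cb
    norm_num
    linarith
  rcases Nat.eq_zero_or_pos j with hj0 | hj0
  · have hk0 : k ≠ 0 := by
      rintro rfl
      subst hj0
      norm_num at hc1
    have : bb ν k = cb k + ν := by unfold bb; rw [if_neg hk0]
    linarith
  · have : aa ν j = ca j + ν := by unfold aa; rw [if_neg (by omega)]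
    linarith

private theorem sum_image_le' {α β : Type*} [DecidableEq β] (T : Finset α) (f : α → β) (g : β → ℝ) (hg : ∀ b, 0 ≤ g b) :
    ∑ a ∈ T.image f, g a ≤ ∑ t ∈ T, g (f t) := by
  rw [← Finset.sum_fiberwise_of_maps_to (fun t ht => Finset.mem_image_of_mem f ht) (fun t => g (f t))]
  apply Finset.sum_le_sum
  intro b hb
  obtain ⟨t, ht, hf⟩ := Finset.mem_image.1 hb
  refine le_trans (le_of_eq (by rw [hf])) (Finset.single_le_sum (f := fun t => g (f t)) (fun t _ => hg _)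
    (Finset.mem_filter.2 ⟨ht, hf⟩))

private theorem DP_nonneg (x : ℕ) : 0 ≤ DP x := by
  unfold DP
  have : Nat.primeCounting x ≤ Nat.primeCounting (2 * x) := Nat.monotone_primeCounting (by omega)
  have : (Nat.primeCounting x : ℝ) ≤ Nat.primeCounting (2 * x) := by exact_mod_cast this
  linarith

private noncomputable def CC (x : ℕ) (a b : ℝ) : Finset ℕ :=
  (PX x).filter (fun p : ℕ => (x : ℝ) ^ a < p ∧ (p : ℝ) ≤ (x : ℝ) ^ b)

private theorem CC_mert (ν : ℝ) (hν : 0 < ν) (f g : ℕ → ℝ) (j : ℕ) (h0 : 0 < g j) (h1 : g j ≤ f j)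
    (h2 : f j ≤ f (j + 1)) (h3 : f (j + 1) ≤ 1) : ∀ᶠ x : ℕ in atTop,
      ∑ p ∈ CC x (f j) (f (j + 1)), fn p ≤ Real.log (f (j + 1) / g j) + ν := by
  filter_upwards [mert_cell (f j) (f (j + 1)) ν (lt_of_lt_of_le h0 h1) h2 h3 hν] with x hx
  unfold CC
  refine hx.trans ?_
  have h4 : 0 < f j := lt_of_lt_of_le h0 h1
  have h5 : 0 < f (j + 1) := lt_of_lt_of_le h4 h2
  have : Real.log (f (j + 1) / f j) ≤ Real.log (f (j + 1) / g j) :=
    Real.log_le_log (div_pos h5 h4) (div_le_div_of_nonneg_left h5.le h0 h1)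
  linarith

private theorem aa_mono {ν : ℝ} (hν : 0 < ν) (j : ℕ) : aa ν j ≤ aa ν (j + 1) := by
  rw [aa_succ]
  unfold aa
  split_ifs with h
  · subst h
    have : ca (0 + 1) = 0.09601 := by
      unfold ca
      norm_num
    rw [this]
    norm_num
    linarith
  · have : ca (j + 1) = ca j + 0.00601 := by
      unfold ca
      push_cast
      ring
    rw [this]
    norm_num

private theorem bb_mono {ν : ℝ} (hν : 0 < ν) (j : ℕ) : bb ν j ≤ bb ν (j + 1) := by
  rw [bb_succ]
  unfold bb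
  split_ifs with h
  · subst h
    have : cb (0 + 1) = 0.34081 := by
      unfold cb
      norm_num
    rw [this]
    norm_num
    linarith
  · have : cb (j + 1) = cb j + 0.00601 := by
      unfold cb
      push_cast
      ring
    rw [this]
    norm_num

private theorem aa_le {ν : ℝ} (hν : ν ≤ 0.0001) {j : ℕ} (hj : j < 40) : aa ν (j + 1) ≤ 1 := by
  rw [aa_succ]
  have : ((j : ℝ) + 1) ≤ 40 := by exact_mod_cast hj
  unfold ca
  push_cast
  norm_num at hν ⊢
  linarith

private theorem bb_le {ν : ℝ} (hν : ν ≤ 0.0001) {j : ℕ} (hj : j < 20) : bb ν (j + 1) ≤ 1 := by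
  rw [bb_succ]
  have : ((j : ℝ) + 1) ≤ 20 := by exact_mod_cast hj
  unfold cb
  push_cast
  norm_num at hν ⊢
  linarith

private theorem fnn {p : ℕ} (hp : p.Prime) : 1 / (p : ℝ) ≤ fn p := by
  unfold fn
  have : (1 : ℝ) < p := by exact_mod_cast hp.one_lt
  exact one_div_le_one_div_of_le (by linarith) (by linarith)

private theorem CC_prime {x : ℕ} {a b : ℝ} {p : ℕ} (hp : p ∈ CC x a b) : p.Prime := by
  unfold CC PX at hp
  rw [Finset.mem_filter, Finset.mem_filter] at hp
  exact hp.1.2.1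

private theorem fn_nonneg {x : ℕ} {a b : ℝ} {p : ℕ} (hp : p ∈ CC x a b) : 0 ≤ fn p :=
  le_trans (by positivity) (fnn (CC_prime hp))

private theorem LossN_z0 {δ : ℝ} (hδ : 0 < δ) : ∀ᶠ x : ℕ in atTop, z0 x ≤ (x : ℝ) ^ δ := by
  have h1 : Tendsto (fun x : ℕ => Real.log (Real.log (x : ℝ))) atTop atTop :=
    Real.tendsto_log_atTop.comp (Real.tendsto_log_atTop.comp tendsto_natCast_atTop_atTop)
  filter_upwards [h1.eventually (eventually_ge_atTop (1 + 1 / δ)), eventually_ge_atTop 2] with x hx hx1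
  have hx0 : (1 : ℝ) < x := by exact_mod_cast (by omega : 1 < x)
  have hL : 0 < Real.log (x : ℝ) := Real.log_pos hx0
  unfold z0
  rw [Real.rpow_def_of_pos (by linarith)]
  apply Real.exp_le_exp.2
  have hd : 0 < 1 / δ := by positivity
  have h2 : 1 / δ ≤ (Real.log (Real.log x)) ^ 2 := by
    have h3 : 1 ≤ Real.log (Real.log x) := by linarith
    nlinarith
  rw [div_le_iff₀ (by linarith)]
  have h3 := mul_le_mul_of_nonneg_left h2 hδ.le
  rw [mul_one_div_cancel hδ.ne'] at h3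
  have h4 := mul_le_mul_of_nonneg_left h3 hL.le
  linarith

theorem loss_val : ∀ᶠ x : ℕ in atTop,
    1 / 2 * ((∑ a ∈ SL x 0.09 0.3348, DP (x / a)) * Real.log x / x) ≤ (0.2868 : ℝ) := by
  classical
  obtain ⟨ν, hν0, hν1, hH⟩ := Hn_ex
  have hA : ∀ᶠ x : ℕ in atTop, ∀ j ∈ range 40,
      ∑ p ∈ CC x (aa ν j) (aa ν (j + 1)), fn p ≤ Real.log ((ca (j + 1) + ν) / ca j) + ν := by
    rw [Filter.eventually_all_finset]
    intro j hj
    have := CC_mert ν hν0 (aa ν) ca j (ca_pos j) (aa_ge hν0 j) (aa_mono hν0 j) (aa_le hν1 (Finset.mem_range.1 hj))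
    filter_upwards [this] with x hx
    rw [aa_succ] at hx ⊢
    exact hx
  have hB : ∀ᶠ x : ℕ in atTop, ∀ k ∈ range 20,
      ∑ p ∈ CC x (bb ν k) (bb ν (k + 1)), fn p ≤ Real.log ((cb (k + 1) + ν) / cb k) + ν := by
    rw [Filter.eventually_all_finset]
    intro j hj
    have := CC_mert ν hν0 (bb ν) cb j (cb_pos j) (bb_ge hν0 j) (bb_mono hν0 j) (bb_le hν1 (Finset.mem_range.1 hj))
    filter_upwards [this] with x hx
    rw [bb_succ] at hx ⊢
    exact hx
  have h3 : ∀ᶠ x : ℕ in atTop, (3 : ℝ) < (x : ℝ) ^ ν :=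
    ((tendsto_rpow_atTop hν0).comp tendsto_natCast_atTop_atTop).eventually (eventually_gt_atTop 3)
  filter_upwards [hA, hB, h3, DP_cof_up ν hν0, SL_cof 0.00001 (by norm_num) (by norm_num), LossN_z0 (δ := 0.09) (by norm_num),
    eventually_ge_atTop 2] with x hAx hBx h3x hDP hSL hz hx2
  have hx1 : (1 : ℝ) < x := by exact_mod_cast (by omega : 1 < x)
  have hx0 : (0 : ℝ) < x := by linarith
  have hL : 0 < Real.log (x : ℝ) := Real.log_pos hx1
  set T := (((range (3 * x + 1)).filter (fun p : ℕ => p.Prime ∧ (x : ℝ) ^ (0.09 : ℝ) < p ∧ (p : ℝ) ≤ (x : ℝ) ^ (0.3348 : ℝ)) ×ˢ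
    (range (3 * x + 1)).filter (fun p : ℕ => p.Prime ∧ (x : ℝ) ^ (0.3348 : ℝ) < p)).filter
      (fun pq : ℕ × ℕ => pq.1 * pq.2 ^ 2 ≤ 3 * x)) with hT
  have hSLT : SL x 0.09 0.3348 = T.image (fun pq : ℕ × ℕ => pq.1 * pq.2) := by
    rw [hT]
    unfold SL
    congr
  have e1 : ∑ a ∈ SL x 0.09 0.3348, DP (x / a) ≤ ∑ t ∈ T, DP (x / (t.1 * t.2)) := by
    rw [hSLT]
    exact sum_image_le' T (fun pq : ℕ × ℕ => pq.1 * pq.2) (fun a => DP (x / a)) (fun a => DP_nonneg _)
  have e2 : ∀ t ∈ T, DP (x / (t.1 * t.2)) * Real.log x / x ≤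
      ∑ j ∈ range 40, ∑ k ∈ range 20, if j + 2 * k < 40 then
        (if t ∈ CC x (aa ν j) (aa ν (j + 1)) ×ˢ CC x (bb ν k) (bb ν (k + 1)) then
          (1 + ν) * (fn t.1 * fn t.2) / (1 - (ca (j + 1) + ν) - (cb (k + 1) + ν)) else 0) else 0 := by
    intro t ht
    have hcof := hSL (t.1 * t.2) (by rw [hSLT]; exact Finset.mem_image_of_mem _ ht)
    rw [hT, Finset.mem_filter, Finset.mem_product, Finset.mem_filter, Finset.mem_filter] at ht
    obtain ⟨⟨⟨_, hp1, hp2, hp3⟩, ⟨_, hq1, hq2⟩⟩, hpq⟩ := ht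
    have hp0 : (0 : ℝ) < t.1 := by exact_mod_cast hp1.pos
    have hq0 : (0 : ℝ) < t.2 := by exact_mod_cast hq1.pos
    set u := Real.log t.1 / Real.log x with hu
    set v := Real.log t.2 / Real.log x with hv
    have hpu : (t.1 : ℝ) = (x : ℝ) ^ u := by
      rw [Real.rpow_def_of_pos hx0, hu, mul_div_cancel₀ _ hL.ne', Real.exp_log hp0]
    have hqv : (t.2 : ℝ) = (x : ℝ) ^ v := by
      rw [Real.rpow_def_of_pos hx0, hv, mul_div_cancel₀ _ hL.ne', Real.exp_log hq0]
    have hu1 : 0.09 < u := by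
      rw [hpu] at hp2
      exact (Real.rpow_lt_rpow_left_iff hx1).1 hp2
    have hv1 : 0.3348 < v := by
      rw [hqv] at hq2
      exact (Real.rpow_lt_rpow_left_iff hx1).1 hq2
    have huv : u + 2 * v < 1 + ν := by
      have h4 : (x : ℝ) ^ (u + 2 * v) < (x : ℝ) ^ (1 + ν) := by
        rw [Real.rpow_add hx0, Real.rpow_add hx0, Real.rpow_one, ← hpu, mul_comm 2 v, Real.rpow_mul hx0.le, ← hqv]
        have h5 : (t.1 : ℝ) * (t.2 : ℝ) ^ 2 ≤ 3 * x := by exact_mod_cast hpq
        have h6 : ((t.2 : ℝ)) ^ (2 : ℝ) = (t.2 : ℝ) ^ 2 := by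
          rw [← Real.rpow_natCast]
          norm_num
        rw [h6]
        refine lt_of_le_of_lt h5 ?_
        rw [mul_comm]
        exact mul_lt_mul_of_pos_left h3x hx0
      exact (Real.rpow_lt_rpow_left_iff hx1).1 h4
    obtain ⟨j, k, hj, hk, hjk, ⟨ha1, ha2⟩, ⟨hb1, hb2⟩⟩ := cells hν0 hu1 hv1 huv
    have hd := den_pos hjk
    have hu2 : u ≤ 1 := ha2.trans (aa_le hν1 hj)
    have hv2 : v ≤ 1 := hb2.trans (bb_le hν1 hk)
    have hmem1 : t.1 ∈ CC x (aa ν j) (aa ν (j + 1)) := by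
      unfold CC PX
      rw [Finset.mem_filter, Finset.mem_filter, Finset.mem_range]
      refine ⟨⟨?_, hp1, lt_of_le_of_lt hz hp2⟩, ?_, ?_⟩
      · have : (t.1 : ℝ) ≤ x := by
          rw [hpu]
          calc (x : ℝ) ^ u ≤ (x : ℝ) ^ (1 : ℝ) := Real.rpow_le_rpow_of_exponent_le hx1.le hu2
            _ = x := Real.rpow_one _
        have : t.1 ≤ x := by exact_mod_cast this
        omega
      · rw [hpu]
        exact (Real.rpow_lt_rpow_left_iff hx1).2 ha1
      · rw [hpu]
        exact (Real.rpow_le_rpow_left_iff hx1).2 ha2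
    have hmem2 : t.2 ∈ CC x (bb ν k) (bb ν (k + 1)) := by
      unfold CC PX
      rw [Finset.mem_filter, Finset.mem_filter, Finset.mem_range]
      refine ⟨⟨?_, hq1, lt_of_le_of_lt hz (lt_of_le_of_lt ?_ hq2)⟩, ?_, ?_⟩
      · have : (t.2 : ℝ) ≤ x := by
          rw [hqv]
          calc (x : ℝ) ^ v ≤ (x : ℝ) ^ (1 : ℝ) := Real.rpow_le_rpow_of_exponent_le hx1.le hv2
            _ = x := Real.rpow_one _
        have : t.2 ≤ x := by exact_mod_cast this
        omega
      · exact Real.rpow_le_rpow_of_exponent_le hx1.le (by norm_num)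
      · rw [hqv]
        exact (Real.rpow_lt_rpow_left_iff hx1).2 hb1
      · rw [hqv]
        exact (Real.rpow_le_rpow_left_iff hx1).2 hb2
    have hnn : ∀ j ∈ range 40, ∀ k ∈ range 20, 0 ≤ (if j + 2 * k < 40 then
        (if t ∈ CC x (aa ν j) (aa ν (j + 1)) ×ˢ CC x (bb ν k) (bb ν (k + 1)) then
          (1 + ν) * (fn t.1 * fn t.2) / (1 - (ca (j + 1) + ν) - (cb (k + 1) + ν)) else 0) else 0) := by
      intro j _ k _
      split_ifs with h1 h2
      · have h3 := den_pos h1
        rw [Finset.mem_product] at h2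
        apply div_nonneg
        · exact mul_nonneg (by linarith) (mul_nonneg (fn_nonneg h2.1) (fn_nonneg h2.2))
        · norm_num at h3 hν1
          linarith
      · exact le_rfl
      · exact le_rfl
    refine le_trans ?_ (Finset.single_le_sum (fun j hj => Finset.sum_nonneg (hnn j hj)) (Finset.mem_range.2 hj))
    refine le_trans ?_ (Finset.single_le_sum (hnn j (Finset.mem_range.2 hj)) (Finset.mem_range.2 hk))
    rw [if_pos hjk, if_pos (Finset.mem_product.2 ⟨hmem1, hmem2⟩)]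
    have h7 := hDP (t.1 * t.2) hcof.1 hcof.2.1
    refine h7.trans ?_
    have h8 : Real.log ((t.1 * t.2 : ℕ) : ℝ) / Real.log x = u + v := by
      push_cast
      rw [Real.log_mul hp0.ne' hq0.ne', add_div]
    rw [h8, mul_div_assoc]
    apply mul_le_mul_of_nonneg_left _ (by linarith)
    have h9 : 0 < 1 - (ca (j + 1) + ν) - (cb (k + 1) + ν) := by
      norm_num at hd hν1
      linarith
    rw [div_eq_mul_one_div (fn t.1 * fn t.2)]
    rw [aa_succ] at ha2
    rw [bb_succ] at hb2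
    apply mul_le_mul
    · push_cast
      rw [← one_div_mul_one_div]
      exact mul_le_mul (fnn hp1) (fnn hq1) (by positivity) (fn_nonneg hmem1)
    · exact one_div_le_one_div_of_le h9 (by linarith)
    · exact one_div_nonneg.2 (by linarith)
    · exact mul_nonneg (fn_nonneg hmem1) (fn_nonneg hmem2)
  have e3 : (∑ a ∈ SL x 0.09 0.3348, DP (x / a)) * Real.log x / x ≤ Hn ν := by
    calc (∑ a ∈ SL x 0.09 0.3348, DP (x / a)) * Real.log x / x ≤ (∑ t ∈ T, DP (x / (t.1 * t.2))) * Real.log x / x := by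
          apply div_le_div_of_nonneg_right _ hx0.le
          exact mul_le_mul_of_nonneg_right e1 hL.le
      _ = ∑ t ∈ T, DP (x / (t.1 * t.2)) * Real.log x / x := by
          rw [Finset.sum_mul, Finset.sum_div]
      _ ≤ ∑ t ∈ T, ∑ j ∈ range 40, ∑ k ∈ range 20, (if j + 2 * k < 40 then
        (if t ∈ CC x (aa ν j) (aa ν (j + 1)) ×ˢ CC x (bb ν k) (bb ν (k + 1)) then
          (1 + ν) * (fn t.1 * fn t.2) / (1 - (ca (j + 1) + ν) - (cb (k + 1) + ν)) else 0) else 0) :=
          Finset.sum_le_sum e2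
      _ = ∑ j ∈ range 40, ∑ k ∈ range 20, ∑ t ∈ T, (if j + 2 * k < 40 then
        (if t ∈ CC x (aa ν j) (aa ν (j + 1)) ×ˢ CC x (bb ν k) (bb ν (k + 1)) then
          (1 + ν) * (fn t.1 * fn t.2) / (1 - (ca (j + 1) + ν) - (cb (k + 1) + ν)) else 0) else 0) := by
          rw [Finset.sum_comm]
          refine Finset.sum_congr rfl (fun j _ => ?_)
          rw [Finset.sum_comm]
      _ ≤ Hn ν := by
          unfold Hn
          refine Finset.sum_le_sum (fun j hj => Finset.sum_le_sum (fun k hk => ?_))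
          by_cases hjk : j + 2 * k < 40
          · simp only [if_pos hjk]
            have hd := den_pos hjk
            have h9 : 0 < 1 - (ca (j + 1) + ν) - (cb (k + 1) + ν) := by
              norm_num at hd hν1
              linarith
            rw [← Finset.sum_filter]
            calc ∑ t ∈ T.filter (fun t => t ∈ CC x (aa ν j) (aa ν (j + 1)) ×ˢ CC x (bb ν k) (bb ν (k + 1))),
                  (1 + ν) * (fn t.1 * fn t.2) / (1 - (ca (j + 1) + ν) - (cb (k + 1) + ν))
                ≤ ∑ t ∈ CC x (aa ν j) (aa ν (j + 1)) ×ˢ CC x (bb ν k) (bb ν (k + 1)),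
                  (1 + ν) * (fn t.1 * fn t.2) / (1 - (ca (j + 1) + ν) - (cb (k + 1) + ν)) := by
                  apply Finset.sum_le_sum_of_subset_of_nonneg
                  · intro t ht
                    exact (Finset.mem_filter.1 ht).2
                  · intro t ht _
                    rw [Finset.mem_product] at ht
                    apply div_nonneg _ h9.le
                    exact mul_nonneg (by linarith) (mul_nonneg (fn_nonneg ht.1) (fn_nonneg ht.2))
              _ = (1 + ν) * ((∑ p ∈ CC x (aa ν j) (aa ν (j + 1)), fn p) *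
                  (∑ p ∈ CC x (bb ν k) (bb ν (k + 1)), fn p)) / (1 - (ca (j + 1) + ν) - (cb (k + 1) + ν)) := by
                  rw [← Finset.sum_div, ← Finset.mul_sum, Finset.sum_product, Finset.sum_mul_sum]
              _ ≤ _ := by
                  apply div_le_div_of_nonneg_right _ h9.le
                  apply mul_le_mul_of_nonneg_left _ (by linarith)
                  have h10 : 0 ≤ ∑ p ∈ CC x (bb ν k) (bb ν (k + 1)), fn p :=
                    Finset.sum_nonneg (fun p hp => fn_nonneg hp)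
                  have h11 : 0 ≤ ∑ p ∈ CC x (aa ν j) (aa ν (j + 1)), fn p :=
                    Finset.sum_nonneg (fun p hp => fn_nonneg hp)
                  exact mul_le_mul (hAx j hj) (hBx k hk) h10 (h11.trans (hAx j hj))
          · simp only [if_neg hjk]
            simp
  linarith

end Pool.Agent.H36.IS2
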