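import Pool.Agent.H76.ISE.SumE
import Pool.Agent.H36.IS2.Defs2

/-!
# ISP LossT: upper bound for the sum over the marks with cofactors in a set S (no uniqueness needed)

Copy of Pool/Agent/H76/ISE/SumE.lean without step (1): [MkS S m] ≤ ∑_{a ∈ S} [Mk1 a m], so ∑_{MkS} Ly² ≤ ∑_{a ∈ S} ∑_{Mk1 a} Ly².
For n with Mk1 a (n + h i), n > x, a ≤ x^(7/10) with all prime factors > x^δ: no atom of Si x δ i occurs (δ ≤ 3/10; `SumE_yy_zero`-like;
only the condition on the prime factors is used), so Ly(y)² = Ly(v)² and `trQ` (for every a; class level x^(2θ) ≤ x^(1/10)) gives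
≤ Mn DP(x/a)/(x A0) My(v) + x/(a L^A').  ∑_{a ∈ S} 1/a ≤ 1 + log x + .. (a ≤ x).
-/

set_option autoImplicit false

namespace Pool.Agent.H36.IS2

open Finset Filter Pool.Agent.H36.IS Pool.Agent.H76.ISE

section

variable {ι : Type} [Fintype ι] [DecidableEq ι]

private def LossT_CofW (x : ℕ) (δ : ℝ) (a : ℕ) : Prop :=
  0 < a ∧ (a : ℝ) ≤ (x : ℝ) ^ (7 / 10 : ℝ) ∧ ∀ p : ℕ, p.Prime → p ∣ a → (x : ℝ) ^ δ < p

private theorem LossT_EZ_sub (x : ℕ) (δ : ℝ) : EZ ι x δ ⊆ EX ι x := by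
  intro e he
  unfold EZ at he
  unfold EX
  rw [mem_product] at he ⊢
  exact ⟨he.1, filter_subset _ _ he.2⟩

private theorem LossT_Si_sub (x : ℕ) (δ : ℝ) (i : ι) : Si x δ i ⊆ EZ ι x δ := by
  intro e he
  unfold Si at he
  unfold EZ
  rw [mem_product] at he ⊢
  exact ⟨mem_univ _, he.2⟩

private theorem LossT_mem_Si {x : ℕ} {δ : ℝ} {i : ι} {e : ι × ℕ} :
    e ∈ Si x δ i ↔ e.1 = i ∧ e.2 ∈ PZ x δ := by
  unfold Si
  rw [mem_product, mem_singleton]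

private theorem LossT_hg (x : ℕ) (δ : ℝ) : ∀ e ∈ EZ ι x δ, 0 < gi e ∧ gi e < 1 := fun e he =>
  (fo_gi (LossT_EZ_sub (ι := ι) x δ he)).2

private theorem LossT_yy (h : ι → ℕ) (n : ℕ) (e : ι × ℕ) : yy h n e = 0 ∨ yy h n e = 1 := by
  unfold yy
  split_ifs
  · exact Or.inr rfl
  · exact Or.inl rfl

private theorem LossT_yy_zero {h : ι → ℕ} {n x a : ℕ} {δ : ℝ} {i : ι} (hδ1 : δ ≤ 3 / 10) (hn : x < n)
    (hx : 1 ≤ x) (ha : LossT_CofW x δ a) (hm : Mk1 a (n + h i)) :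
    ∀ e ∈ Si x δ i, yy h n e = 0 := by
  intro e he
  obtain ⟨h1, h2⟩ := LossT_mem_Si.1 he
  unfold PZ PX at h2
  rw [mem_filter, mem_filter, mem_range] at h2
  obtain ⟨⟨h3, h4, _⟩, h5⟩ := h2
  unfold yy
  rw [if_neg]
  intro hd
  rw [h1] at hd
  obtain ⟨ha0, ha1, ha2⟩ := ha
  obtain ⟨hm1, hm2⟩ := hm
  have hmul : a * ((n + h i) / a) = n + h i := Nat.mul_div_cancel' hm1
  rw [← hmul] at hd
  have hx1 : (1 : ℝ) ≤ x := by exact_mod_cast hx
  have hx0 : (0 : ℝ) < x := by linarith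
  rcases (Nat.Prime.dvd_mul h4).1 hd with hd' | hd'
  · have := ha2 e.2 h4 hd'
    linarith
  · have h6 := (Nat.prime_dvd_prime_iff_eq h4 hm2).1 hd'
    rw [← h6] at hmul
    have h7 : (x : ℝ) < a * e.2 := by
      have : x < a * e.2 := by omega
      exact_mod_cast this
    have h8 : (e.2 : ℝ) ≤ (x : ℝ) ^ (3 / 10 : ℝ) :=
      h5.trans (Real.rpow_le_rpow_of_exponent_le hx1 hδ1)
    have h9 : (a : ℝ) * e.2 ≤ (x : ℝ) ^ (7 / 10 : ℝ) * (x : ℝ) ^ (3 / 10 : ℝ) :=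
      mul_le_mul ha1 h8 (Nat.cast_nonneg _) (Real.rpow_nonneg hx0.le _)
    rw [← Real.rpow_add hx0] at h9
    norm_num at h9
    linarith

private theorem LossT_harm {x : ℕ} {S : Finset ℕ} (hS : ∀ a ∈ S, 0 < a ∧ a ≤ x) :
    ∑ a ∈ S, 1 / (a : ℝ) ≤ 1 + Real.log x := by
  have h1 := harmonic_le_one_add_log x
  rw [harmonic_eq_sum_Icc] at h1
  push_cast at h1
  refine le_trans ?_ h1
  calc ∑ a ∈ S, 1 / (a : ℝ) = ∑ a ∈ S, (a : ℝ)⁻¹ := sum_congr rfl fun a _ => one_div _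
    _ ≤ ∑ a ∈ Icc 1 x, (a : ℝ)⁻¹ := by
      refine sum_le_sum_of_subset_of_nonneg ?_ fun a _ _ => by positivity
      intro a ha
      exact mem_Icc.mpr (hS a ha)

open Classical in
/-- the basic sum over the marks with cofactor `a` for arrays without atoms in component `i` -/
private theorem LossT_core (ι : Type) [Fintype ι] [DecidableEq ι] (h : ι → ℕ) (W b : ℕ) (hG : Good h W b) (B1 : ℕ)
    (δ θ : ℝ) (hδ : 0 < δ) (hθ1 : θ ≤ 1 / 20) (A : ℕ) :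
    ∀ᶠ x : ℕ in atTop, ∀ i : ι, ∀ v : Finset (ι × ℕ) → ℝ, Yok x δ θ (Real.log x ^ B1) v →
      (∀ R, v R ≠ 0 → Disjoint R (Si x δ i)) → ∀ a : ℕ, LossT_CofW x δ a →
      |∑ n ∈ (AA h W b x).filter (fun n => Mk1 a (n + h i)), Ly h x δ v n ^ 2 -
        Mn ι W x * (DP (x / a) / (x * A0 x)) * My ι x δ v| ≤ x / (a * Real.log x ^ A) := by
  obtain ⟨B, hB⟩ := cls_lam ι B1
  have hT : ∀ᶠ x : ℕ in atTop, ∀ i : ι, ∀ a : ℕ,
      0 < a → (a : ℝ) ≤ (x : ℝ) ^ (7 / 10 : ℝ) → (∀ p : ℕ, p.Prime → p ∣ a → (x : ℝ) ^ δ < p) →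
      ∀ c : Finset (ι × ℕ) → ℝ, Cls x (B + B) (2 + 2 + 2 * 2) ((x : ℝ) ^ (1 / 10 : ℝ)) c →
      (∀ Q, c Q ≠ 0 → ∀ e ∈ Q, e.1 ≠ i) →
      |∑ n ∈ (AA h W b x).filter (fun n => Mk1 a (n + h i)), Ev (EX ι x) c (yy h n) -
          Mn ι W x * (DP (x / a) / (x * A0 x)) * Ev (EX ι x) c gi| ≤ x / (a * Real.log x ^ A) :=
    eventually_all.2 fun i => trQ ι h W b hG i (B + B) (2 + 2 + 2 * 2) δ (by norm_num) hδ A
  have hlog : ∀ᶠ x : ℕ in atTop, 1 ≤ Real.log x :=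
    (Real.tendsto_log_atTop.comp tendsto_natCast_atTop_atTop).eventually_ge_atTop 1
  filter_upwards [hB, hT, hlog, eventually_ge_atTop 1] with x hx hI hx1 hx2
  intro i v hv hvd a ha
  have hx1' : (1 : ℝ) ≤ x := by exact_mod_cast hx2
  have hx0 : (0 : ℝ) < x := by linarith
  have hc := hx δ θ v hv
  have hsup : ∀ D, lam (EZ ι x δ) gi v D ≠ 0 → D ⊆ EZ ι x δ \ Si x δ i := by
    intro D hD
    obtain ⟨R, h1, h2, h3⟩ := lam_sup hD
    intro e he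
    rw [Finset.mem_sdiff]
    exact ⟨h2 (h1 he), fun h4 => (Finset.disjoint_left.1 (hvd R h3)) (h1 he) h4⟩
  have hsup' : ∀ D, lam (EZ ι x δ) gi v D ≠ 0 → D ⊆ EZ ι x δ := fun D hD =>
    (hsup D hD).trans sdiff_subset
  have hcc := cls_uc hx1 (by norm_num) (by norm_num) (Real.rpow_nonneg hx0.le _) (Real.rpow_nonneg hx0.le _) hc hc
  rw [← Real.rpow_add hx0] at hcc
  have hcc2 := hcc.mono hx1 le_rfl (by norm_num) le_rfl
    (Real.rpow_le_rpow_of_exponent_le hx1' (by linarith : θ + θ ≤ 1 / 10))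
  have hne : ∀ Q, uc (EX ι x) (lam (EZ ι x δ) gi v) (lam (EZ ι x δ) gi v) Q ≠ 0 → ∀ e ∈ Q, e.1 ≠ i := by
    intro Q hQ e he h1
    have h2 := (uc_sup hsup hsup Q hQ).1 he
    rw [union_self, Finset.mem_sdiff] at h2
    refine h2.2 (LossT_mem_Si.2 ⟨h1, ?_⟩)
    have h3 := h2.1
    unfold EZ at h3
    exact (mem_product.1 h3).2
  have hmain := hI i a ha.1 ha.2.1 (fun p hp hpa => ha.2.2 p hp hpa) _ hcc2 hne
  have hsup2 : ∀ Q, uc (EZ ι x δ) (lam (EZ ι x δ) gi v) (lam (EZ ι x δ) gi v) Q ≠ 0 → Q ⊆ EZ ι x δ :=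
    fun Q hQ => (uc_sup hsup' hsup' Q hQ).2
  have hEv : ∀ z : ι × ℕ → ℝ, Ev (EX ι x) (uc (EX ι x) (lam (EZ ι x δ) gi v) (lam (EZ ι x δ) gi v)) z =
      Ev (EZ ι x δ) (uc (EZ ι x δ) (lam (EZ ι x δ) gi v) (lam (EZ ι x δ) gi v)) z := by
    intro z
    rw [uc_ground (LossT_EZ_sub x δ) hsup' hsup', Ev_sup (LossT_EZ_sub x δ) hsup2]
  have h1 : ∀ n, Ev (EX ι x) (uc (EX ι x) (lam (EZ ι x δ) gi v) (lam (EZ ι x δ) gi v)) (yy h n) =
      Ly h x δ v n ^ 2 := by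
    intro n
    rw [hEv, Ev_uc _ _ (fun e _ => LossT_yy h n e), sq]
    rfl
  have h2 : Ev (EX ι x) (uc (EX ι x) (lam (EZ ι x δ) gi v) (lam (EZ ι x δ) gi v)) gi = My ι x δ v := by
    rw [hEv, EE_lam (LossT_hg x δ)]
    unfold My MM
    refine sum_congr rfl fun R _ => ?_
    rw [sq]
  rw [h2] at hmain
  simp only [h1] at hmain
  exact hmain

end

open Classical in
theorem lossT (ι : Type) [Fintype ι] [DecidableEq ι] (h : ι → ℕ) (W b : ℕ) (hG : Good h W b) (B1 : ℕ) (δ θ : ℝ)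
    (hδ : 0 < δ) (hδ1 : δ ≤ 3 / 10) (hθ : 0 ≤ θ) (hθ1 : θ ≤ 1 / 20) (A : ℕ) :
    ∀ᶠ x : ℕ in atTop, ∀ S : Finset ℕ,
      (∀ a ∈ S, 0 < a ∧ (a : ℝ) ≤ (x : ℝ) ^ (7 / 10 : ℝ) ∧ ∀ p : ℕ, p.Prime → p ∣ a → (x : ℝ) ^ δ < p) →
      ∀ y : Finset (ι × ℕ) → ℝ, Yok x δ θ (Real.log x ^ B1) y → ∀ i,
      ∑ n ∈ (AA h W b x).filter (fun n => MkS S (n + h i)), Ly h x δ y n ^ 2 ≤
        Mn ι W x * ((∑ a ∈ S, DP (x / a)) / (x * A0 x)) * My ι x δ (pr (Si x δ i) (fo gi) y) +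
          x / Real.log x ^ A := by
  obtain ⟨B, hB⟩ := yok_pr ι B1
  have hlog : ∀ᶠ x : ℕ in atTop, 2 ≤ Real.log x :=
    (Real.tendsto_log_atTop.comp tendsto_natCast_atTop_atTop).eventually_ge_atTop 2
  filter_upwards [hB, LossT_core ι h W b hG B δ θ hδ hθ1 (A + 2), hlog, eventually_ge_atTop 1]
    with x hx hI hL hx2
  intro S hS y hy i
  have hx1' : (1 : ℝ) ≤ x := by exact_mod_cast hx2
  have hx0 : (0 : ℝ) < x := by linarith
  have hL0 : 0 < Real.log x := by linarith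
  set v := pr (Si x δ i) (fo gi) y with hv
  have hvY := hx δ θ y (Si x δ i) (LossT_Si_sub x δ i) hy
  have hvd : ∀ R, v R ≠ 0 → Disjoint R (Si x δ i) := fun R hR => (pr_disj hR).1
  have hmem : ∀ n ∈ AA h W b x, x < n := by
    intro n hn
    unfold AA at hn
    rw [mem_filter, mem_Ioc] at hn
    exact hn.1.1
  -- the sum is at most a sum over the cofactors
  have hsum0 : ∑ n ∈ (AA h W b x).filter (fun n => MkS S (n + h i)), Ly h x δ y n ^ 2 ≤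
      ∑ a ∈ S, ∑ n ∈ (AA h W b x).filter (fun n => Mk1 a (n + h i)), Ly h x δ y n ^ 2 := by
    simp only [sum_filter]
    rw [sum_comm]
    refine sum_le_sum fun n _ => ?_
    have hnn : ∀ a ∈ S, (0 : ℝ) ≤ if Mk1 a (n + h i) then Ly h x δ y n ^ 2 else 0 := by
      intro a _
      split_ifs
      · exact sq_nonneg _
      · exact le_rfl
    by_cases hm : MkS S (n + h i)
    · rw [if_pos hm]
      obtain ⟨a, ha, hma⟩ := hm
      refine le_trans ?_ (single_le_sum hnn ha)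
      rw [if_pos hma]
    · rw [if_neg hm]
      exact sum_nonneg hnn
  have hsum : ∑ a ∈ S, ∑ n ∈ (AA h W b x).filter (fun n => Mk1 a (n + h i)), Ly h x δ y n ^ 2 =
      ∑ a ∈ S, ∑ n ∈ (AA h W b x).filter (fun n => Mk1 a (n + h i)), Ly h x δ v n ^ 2 := by
    refine sum_congr rfl fun a ha => sum_congr rfl fun n hn => ?_
    rw [mem_filter] at hn
    have h1 : Ly h x δ y n = Ly h x δ v n := by
      unfold Ly
      exact (Ev_lam_pr (LossT_Si_sub x δ i) (LossT_hg x δ) y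
        (LossT_yy_zero hδ1 (hmem n hn.1) hx2 (hS a ha) hn.2)).symm
    rw [h1]
  have hmain : Mn ι W x * ((∑ a ∈ S, DP (x / a)) / (x * A0 x)) * My ι x δ v =
      ∑ a ∈ S, Mn ι W x * (DP (x / a) / (x * A0 x)) * My ι x δ v := by
    rw [sum_div, mul_sum, sum_mul]
  have hax : ∀ a ∈ S, 0 < a ∧ a ≤ x := by
    intro a ha
    refine ⟨(hS a ha).1, ?_⟩
    have h1 := (hS a ha).2.1
    have h2 : (x : ℝ) ^ (7 / 10 : ℝ) ≤ (x : ℝ) ^ (1 : ℝ) :=
      Real.rpow_le_rpow_of_exponent_le hx1' (by norm_num)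
    rw [Real.rpow_one] at h2
    exact_mod_cast h1.trans h2
  have herr : ∑ a ∈ S, (x : ℝ) / (a * Real.log x ^ (A + 2)) ≤ x / Real.log x ^ A := by
    calc ∑ a ∈ S, (x : ℝ) / (a * Real.log x ^ (A + 2))
        = x / Real.log x ^ (A + 2) * ∑ a ∈ S, 1 / (a : ℝ) := by
          rw [mul_sum]
          refine sum_congr rfl fun a ha => ?_
          have h1 : (a : ℝ) ≠ 0 := by exact_mod_cast (hS a ha).1.ne'
          field_simp
      _ ≤ x / Real.log x ^ (A + 2) * (Real.log x ^ 2) := by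
          refine mul_le_mul_of_nonneg_left ((LossT_harm hax).trans ?_) (by positivity)
          nlinarith
      _ = x / Real.log x ^ A := by
          rw [pow_add]
          field_simp
  calc ∑ n ∈ (AA h W b x).filter (fun n => MkS S (n + h i)), Ly h x δ y n ^ 2
      ≤ ∑ a ∈ S, ∑ n ∈ (AA h W b x).filter (fun n => Mk1 a (n + h i)), Ly h x δ v n ^ 2 :=
        hsum0.trans hsum.le
    _ ≤ ∑ a ∈ S, (Mn ι W x * (DP (x / a) / (x * A0 x)) * My ι x δ v + x / (a * Real.log x ^ (A + 2))) := by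
        refine sum_le_sum fun a ha => ?_
        have := (abs_le.1 (hI i v hvY hvd a (hS a ha))).2
        linarith
    _ ≤ _ := by
        rw [sum_add_distrib, hmain]
        linarith

end Pool.Agent.H36.IS2
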