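import Pool.Agent.H36.IS.AlgA
import Pool.Agent.H36.IS2.Defs2

/-!
# ISP TrcA: transport of arrays to a component

`trc i c` is supported on sets Q with all first coordinates i; Q ↦ Q.image Prod.snd is a bijection onto sets of primes, with the same card and
∏_{e ∈ Q} g e.2 = ∏_{p ∈ image} g p.  (Compare `Wts_tr`, `Wts_Ev`, `Wts_cls` in Pool/Agent/H36/IS/Wts.lean.)
`evD_bd`: m ≤ 4x without prime factors in PZ x δ, c in ArrN: only the T whose primes all divide m contribute, at most 2^(number of prime factors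
of m > x^δ) ≤ 2^(1/δ + 1) of them: (x^δ)^k ≤ 4x gives k ≤ (1 + log 4/log x)/δ ≤ 1/δ + 1 for large x.
-/

set_option autoImplicit false

namespace Pool.Agent.H36.IS2

open Finset Filter Pool.Agent.H36.IS

private theorem TrcA_injOn {ι : Type} {i : ι} {Q : Finset (ι × ℕ)} (hQ : ∀ e ∈ Q, e.1 = i) :
    Set.InjOn Prod.snd (Q : Set (ι × ℕ)) := by
  rintro ⟨a, p⟩ ha ⟨b, q⟩ hb hpq
  have h1 := hQ _ (mem_coe.mp ha)
  have h2 := hQ _ (mem_coe.mp hb)
  simp only at h1 h2 hpq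
  rw [h1, h2, hpq]

private theorem TrcA_prod {ι : Type} {i : ι} {Q : Finset (ι × ℕ)} (hQ : ∀ e ∈ Q, e.1 = i)
    (y : ι × ℕ → ℝ) : ∏ e ∈ Q, y e = ∏ p ∈ Q.image Prod.snd, y (i, p) := by
  rw [Finset.prod_image (fun a ha b hb hab => TrcA_injOn hQ (mem_coe.mpr ha) (mem_coe.mpr hb) hab)]
  refine Finset.prod_congr rfl fun e he => ?_
  rw [← hQ e he]

private theorem TrcA_back {ι : Type} [DecidableEq ι] {i : ι} {Q : Finset (ι × ℕ)} (hQ : ∀ e ∈ Q, e.1 = i) :
    {i} ×ˢ (Q.image Prod.snd) = Q := by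
  ext ⟨a, p⟩
  rw [mem_product, mem_singleton, mem_image]
  constructor
  · rintro ⟨h1, ⟨⟨b, q⟩, h2, h3⟩⟩
    have h4 := hQ _ h2
    simp only at h1 h3 h4
    rw [h1, ← h3, ← h4]
    exact h2
  · intro h
    exact ⟨hQ _ h, ⟨(a, p), h, rfl⟩⟩

private theorem TrcA_Ev {ι : Type} [Fintype ι] [DecidableEq ι] (i : ι) (P : Finset ℕ) (c : Finset ℕ → ℝ)
    (y : ι × ℕ → ℝ) :
    Ev (univ ×ˢ P) (trc i c) y = Pool.Agent.H91.PK.ev c P (fun p => y (i, p)) := by
  unfold Ev Pool.Agent.H91.PK.ev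
  have hZ : ({i} : Finset ι) ×ˢ P ⊆ univ ×ˢ P :=
    Finset.product_subset_product (Finset.subset_univ _) (Finset.Subset.refl _)
  have hall : ∀ T ∈ (({i} : Finset ι) ×ˢ P).powerset, ∀ e ∈ T, e.1 = i := by
    intro T hT e he
    exact mem_singleton.mp (mem_product.mp (mem_powerset.mp hT he)).1
  rw [← Finset.sum_subset (Finset.powerset_mono.mpr hZ)]
  · refine Finset.sum_nbij' (fun T => T.image Prod.snd) (fun S => {i} ×ˢ S) ?_ ?_ ?_ ?_ ?_
    · intro T hT
      rw [mem_powerset]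
      intro p hp
      obtain ⟨e, he, rfl⟩ := mem_image.mp hp
      exact (mem_product.mp (mem_powerset.mp hT he)).2
    · intro S hS
      exact mem_powerset.mpr (Finset.product_subset_product (Finset.Subset.refl _)
        (mem_powerset.mp hS))
    · intro T hT
      exact TrcA_back (hall T hT)
    · intro S _
      exact Finset.product_image_snd (Finset.singleton_nonempty i)
    · intro T hT
      rw [TrcA_prod (hall T hT) y]
      unfold trc
      rw [if_pos (hall T hT)]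
  · intro T hT hT2
    have h1 : ¬ ∀ e ∈ T, e.1 = i := by
      intro h
      apply hT2
      rw [mem_powerset]
      intro e he
      rw [mem_product, mem_singleton]
      exact ⟨h e he, (mem_product.mp (mem_powerset.mp hT he)).2⟩
    unfold trc
    rw [if_neg h1, zero_mul]

theorem trc_yy {ι : Type} [Fintype ι] [DecidableEq ι] (h : ι → ℕ) (i : ι) (x : ℕ) (c : Finset ℕ → ℝ)
    (hc : ∀ T, c T ≠ 0 → T ⊆ PX x) (n : ℕ) : Ev (EX ι x) (trc i c) (yy h n) = evD (PX x) c (n + h i) := by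
  unfold EX evD
  rw [TrcA_Ev]
  rfl

theorem trc_gi {ι : Type} [Fintype ι] [DecidableEq ι] (i : ι) (x : ℕ) (c : Finset ℕ → ℝ)
    (hc : ∀ T, c T ≠ 0 → T ⊆ PX x) : Ev (EX ι x) (trc i c) gi = evM (PX x) c := by
  unfold EX evM
  rw [TrcA_Ev]
  rfl

theorem trc_sup {ι : Type} [DecidableEq ι] (i : ι) {P : Finset ℕ} {c : Finset ℕ → ℝ} (hc : ∀ T, c T ≠ 0 → T ⊆ P)
    (Q : Finset (ι × ℕ)) (hQ : trc i c Q ≠ 0) : Q ⊆ {i} ×ˢ P ∧ c (Q.image Prod.snd) ≠ 0 := by
  unfold trc at hQ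
  by_cases h : ∀ e ∈ Q, e.1 = i
  · rw [if_pos h] at hQ
    refine ⟨fun e he => ?_, hQ⟩
    rw [mem_product, mem_singleton]
    exact ⟨h e he, hc _ hQ (mem_image_of_mem _ he)⟩
  · rw [if_neg h] at hQ
    exact absurd rfl hQ

theorem trc_cls {ι : Type} [Fintype ι] [DecidableEq ι] (i : ι) {x : ℕ} (hx : 3 ≤ Real.log x) {δ D : ℝ} {c : Finset ℕ → ℝ}
    (hc : ArrN x δ D c) : Cls x 1 1 D (trc i c) := by
  intro Q
  constructor
  · rw [pow_one, one_pow, mul_one]
    unfold trc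
    split_ifs
    · exact ((hc.1 _).1).trans hx
    · rw [abs_zero]
      linarith
  · intro hQ
    obtain ⟨h1, h2⟩ := trc_sup i (P := PX x) (fun T hT => ((hc.1 T).2 hT).1) Q hQ
    have h3 : ∀ e ∈ Q, e.1 = i := fun e he => mem_singleton.mp (mem_product.mp (h1 he)).1
    refine ⟨fun e he => ?_, ?_⟩
    · unfold EX
      rw [mem_product]
      exact ⟨mem_univ _, (mem_product.mp (h1 he)).2⟩
    · rw [TrcA_prod h3 (fun e => (e.2 : ℝ))]
      exact ((hc.1 _).2 h2).2.2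

private theorem TrcA_card {δ : ℝ} (hδ : 0 < δ) {x m : ℕ} (hx : 4 ≤ x) (hm : 0 < m) (hmx : m ≤ 4 * x)
    {S : Finset ℕ} (hS : ∀ p ∈ S, p.Prime ∧ p ∣ m ∧ (x : ℝ) ^ δ < p) : (S.card : ℝ) ≤ 2 / δ := by
  have hx0 : (0 : ℝ) < x := by
    have : 0 < x := by omega
    exact_mod_cast this
  have hx4 : (4 : ℝ) ≤ x := by exact_mod_cast hx
  have h1 : ∏ p ∈ S, p ∣ m := by
    refine Finset.prod_primes_dvd m (fun p hp => (hS p hp).1.prime) (fun p hp => (hS p hp).2.1)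
  have h2 : (∏ p ∈ S, (p : ℝ)) ≤ m := by
    have h5 := Nat.le_of_dvd hm h1
    have h6 : ((∏ p ∈ S, p : ℕ) : ℝ) ≤ m := Nat.cast_le.mpr h5
    rw [Nat.cast_prod] at h6
    exact h6
  have h3 : ((x : ℝ) ^ δ) ^ S.card ≤ ∏ p ∈ S, (p : ℝ) := by
    rw [← Finset.prod_const]
    refine Finset.prod_le_prod (fun p _ => Real.rpow_nonneg hx0.le _) (fun p hp => (hS p hp).2.2.le)
  have h4 : ((x : ℝ) ^ δ) ^ S.card ≤ (x : ℝ) ^ (2 : ℝ) := by
    have h5 : (m : ℝ) ≤ 4 * x := by exact_mod_cast hmx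
    have h6 : (x : ℝ) ^ (2 : ℝ) = x * x := by
      rw [show (2 : ℝ) = ((2 : ℕ) : ℝ) by norm_num, Real.rpow_natCast, pow_two]
    rw [h6]
    nlinarith
  rw [← Real.rpow_natCast, ← Real.rpow_mul hx0.le] at h4
  have h5 : δ * (S.card : ℝ) ≤ 2 := by
    by_contra h
    have h6 := Real.rpow_lt_rpow_of_exponent_lt (x := (x : ℝ)) (by linarith) (not_le.mp h)
    linarith
  rw [le_div_iff₀ hδ]
  linarith

theorem evD_bd (δ : ℝ) (hδ : 0 < δ) : ∃ C : ℝ, 0 < C ∧ ∀ᶠ x : ℕ in atTop, ∀ (D : ℝ) (c : Finset ℕ → ℝ), ArrN x δ D c →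
    ∀ m : ℕ, 0 < m → m ≤ 4 * x → evD (PX x) c m ≤ C := by
  refine ⟨3 * 2 ^ ⌈2 / δ⌉₊, by positivity, ?_⟩
  filter_upwards [eventually_ge_atTop 4] with x hx D c hc m hm hmx
  classical
  set S : Finset ℕ := (PX x).filter (fun p => p ∣ m ∧ (x : ℝ) ^ δ < p) with hS
  have hSP : S ⊆ PX x := Finset.filter_subset _ _
  have hcard : S.card ≤ ⌈2 / δ⌉₊ := by
    have h1 := TrcA_card hδ hx hm hmx (S := S) (by
      intro p hp
      rw [hS, mem_filter] at hp
      have h2 := hp.1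
      unfold PX at h2
      rw [mem_filter] at h2
      exact ⟨h2.2.1, hp.2.1, hp.2.2⟩)
    exact_mod_cast h1.trans (Nat.le_ceil _)
  unfold evD Pool.Agent.H91.PK.ev
  rw [← Finset.sum_subset (Finset.powerset_mono.mpr hSP)]
  · have h1 : ∀ T ∈ S.powerset, c T * ∏ p ∈ T, (if p ∣ m then (1 : ℝ) else 0) ≤ 3 := by
      intro T hT
      have h2 : ∏ p ∈ T, (if p ∣ m then (1 : ℝ) else 0) = 1 := by
        refine Finset.prod_eq_one fun p hp => ?_
        have h3 := mem_powerset.mp hT hp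
        rw [hS, mem_filter] at h3
        rw [if_pos h3.2.1]
      rw [h2, mul_one]
      exact (le_abs_self _).trans (hc.1 T).1
    refine (Finset.sum_le_sum h1).trans ?_
    rw [Finset.sum_const, Finset.card_powerset, nsmul_eq_mul, mul_comm]
    push_cast
    exact mul_le_mul_of_nonneg_left (pow_le_pow_right₀ (by norm_num) hcard) (by norm_num)
  · intro T hT hT2
    by_contra hne
    apply hT2
    rw [mem_powerset]
    intro p hp
    have hcT : c T ≠ 0 := fun h => hne (by rw [h, zero_mul])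
    have hpT : ∏ p ∈ T, (if p ∣ m then (1 : ℝ) else 0) ≠ 0 := fun h => hne (by rw [h, mul_zero])
    have h3 := Finset.prod_ne_zero_iff.mp hpT p hp
    have h4 : p ∣ m := by
      by_contra h5
      rw [if_neg h5] at h3
      exact h3 rfl
    rw [hS, mem_filter]
    exact ⟨mem_powerset.mp hT hp, h4, ((hc.1 T).2 hcT).2.1 p hp⟩

end Pool.Agent.H36.IS2
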