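import Pool.Agent.H36.IS.Wts
import Pool.Agent.H36.IS2.Defs2

/-!
# ISP WtLU: lower and upper weights on one component (with comparison)

As `wtL` and `wtU` (Pool/Agent/H36/IS/Wts.lean; copy the private lemmas you need), with in addition Ev cL gi ≤ V1 ≤ Ev cU gi:
from ev cL P y ≤ Vg y P for all 0/1 vectors y we get the same for all y with values in [0,1] (both sides are multilinear: the lemma
`Wts_nonneg_aux` applied to c' = (exact weights) - cL, resp. cU - (exact weights), where the exact weights are T ↦ (-1)^|T| (T ⊆ P): `SvA_ex`,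
`SvA_ev_ex`, `SvA_ev_sub` in Pool/Agent/H91/PK/SvA.lean; or directly by induction), at y = 1/p: Vg (1/p) P = V1 x δ.
-/

set_option autoImplicit false

namespace Pool.Agent.H36.IS2

open Finset Filter Pool.Agent.H36.IS

open Pool.Agent.H91.PK (L1 U1)

open Pool.Agent.H91.PK (ev Vg ZO Wt g1 BigP)

private theorem WtLU_affine (c : Finset ℕ → ℝ) (P : Finset ℕ) (g : ℕ → ℝ) (a : ℕ) :
    ev c P g = g a * ev c P (Function.update g a 1) +
      (1 - g a) * ev c P (Function.update g a 0) := by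
  unfold ev
  rw [Finset.mul_sum, Finset.mul_sum, ← Finset.sum_add_distrib]
  refine Finset.sum_congr rfl fun T _ => ?_
  by_cases h : a ∈ T
  · have h1 : ∀ v : ℝ, ∏ p ∈ T, Function.update g a v p = v * ∏ p ∈ T.erase a, g p := by
      intro v
      rw [← Finset.mul_prod_erase T _ h, Function.update_self]
      congr 1
      exact Finset.prod_congr rfl fun p hp => Function.update_of_ne (Finset.ne_of_mem_erase hp) _ _
    rw [h1, h1, ← Finset.mul_prod_erase T g h]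
    ring
  · have h1 : ∀ v : ℝ, ∏ p ∈ T, Function.update g a v p = ∏ p ∈ T, g p := by
      intro v
      refine Finset.prod_congr rfl fun p hp => Function.update_of_ne ?_ _ _
      rintro rfl
      exact h hp
    rw [h1, h1]
    ring

private theorem WtLU_nonneg_aux (c : Finset ℕ → ℝ) (P : Finset ℕ) (h : ∀ y, ZO y → 0 ≤ ev c P y)
    (A : Finset ℕ) : ∀ g : ℕ → ℝ, (∀ p ∈ A, 0 ≤ g p ∧ g p ≤ 1) →
      (∀ p, p ∉ A → g p = 0 ∨ g p = 1) → 0 ≤ ev c P g := by
  induction A using Finset.induction_on with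
  | empty =>
    intro g _ hg
    exact h g (fun p => hg p (Finset.notMem_empty p))
  | insert a A ha ih =>
    intro g hg1 hg2
    rw [WtLU_affine c P g a]
    have h1 := hg1 a (mem_insert_self a A)
    have h2 : ∀ v : ℝ, v = 0 ∨ v = 1 → 0 ≤ ev c P (Function.update g a v) := by
      intro v hv
      apply ih
      · intro p hp
        have hne : p ≠ a := by
          rintro rfl
          exact ha hp
        rw [Function.update_of_ne hne]
        exact hg1 p (mem_insert_of_mem hp)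
      · intro p hp
        by_cases e : p = a
        · subst e
          rw [Function.update_self]
          exact hv
        · rw [Function.update_of_ne e]
          apply hg2
          rw [mem_insert, not_or]
          exact ⟨e, hp⟩
    have h3 := mul_nonneg h1.1 (h2 1 (Or.inr rfl))
    have h4 := mul_nonneg (by linarith : 0 ≤ 1 - g a) (h2 0 (Or.inl rfl))
    linarith

private theorem WtLU_ev_congr (c : Finset ℕ → ℝ) (P : Finset ℕ) {g g' : ℕ → ℝ}
    (h : ∀ p ∈ P, g p = g' p) : ev c P g = ev c P g' := by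
  unfold ev
  refine Finset.sum_congr rfl fun T hT => ?_
  congr 1
  exact Finset.prod_congr rfl fun p hp => h p (mem_powerset.mp hT hp)

private theorem WtLU_nonneg (c : Finset ℕ → ℝ) (P : Finset ℕ) (h : ∀ y, ZO y → 0 ≤ ev c P y)
    (g : ℕ → ℝ) (hg : ∀ p ∈ P, 0 ≤ g p ∧ g p ≤ 1) : 0 ≤ ev c P g := by
  classical
  rw [WtLU_ev_congr c P (g' := fun p => if p ∈ P then g p else 0)
    (fun p hp => by simp only [hp, if_true])]
  apply WtLU_nonneg_aux c P h P
  · intro p hp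
    simp only [hp, if_true]
    exact hg p hp
  · intro p hp
    left
    simp only [hp, if_false]

section Transport

variable {ι : Type} [DecidableEq ι]

/-- The weights on the component `i`. -/
private noncomputable def WtLU_tr (i : ι) (P : Finset ℕ) (c : Finset ℕ → ℝ) : Finset (ι × ℕ) → ℝ :=
  fun Q => if Q ⊆ {i} ×ˢ P then c (Q.image Prod.snd) else 0

private theorem WtLU_injOn {i : ι} {P : Finset ℕ} {Q : Finset (ι × ℕ)} (hQ : Q ⊆ {i} ×ˢ P) :
    Set.InjOn Prod.snd (Q : Set (ι × ℕ)) := by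
  rintro ⟨a, p⟩ ha ⟨b, q⟩ hb hpq
  have h1 := hQ (mem_coe.mp ha)
  have h2 := hQ (mem_coe.mp hb)
  rw [mem_product, mem_singleton] at h1 h2
  simp only at h1 h2 hpq
  rw [h1.1, h2.1, hpq]

private theorem WtLU_img {i : ι} {P : Finset ℕ} {Q : Finset (ι × ℕ)} (hQ : Q ⊆ {i} ×ˢ P) :
    Q.image Prod.snd ⊆ P := by
  intro p hp
  rw [mem_image] at hp
  obtain ⟨e, he, rfl⟩ := hp
  exact (mem_product.mp (hQ he)).2

private theorem WtLU_back {i : ι} {P : Finset ℕ} {Q : Finset (ι × ℕ)} (hQ : Q ⊆ {i} ×ˢ P) :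
    {i} ×ˢ (Q.image Prod.snd) = Q := by
  ext ⟨a, p⟩
  rw [mem_product, mem_singleton, mem_image]
  constructor
  · rintro ⟨h1, ⟨⟨b, q⟩, h2, h3⟩⟩
    have h4 := hQ h2
    rw [mem_product, mem_singleton] at h4
    simp only at h1 h3 h4
    rw [h1, ← h3, ← h4.1]
    exact h2
  · intro h
    have h4 := hQ h
    rw [mem_product, mem_singleton] at h4
    exact ⟨h4.1, ⟨(a, p), h, rfl⟩⟩

private theorem WtLU_prod {i : ι} {P : Finset ℕ} {Q : Finset (ι × ℕ)} (hQ : Q ⊆ {i} ×ˢ P)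
    (y : ι × ℕ → ℝ) : ∏ e ∈ Q, y e = ∏ p ∈ Q.image Prod.snd, y (i, p) := by
  rw [Finset.prod_image (fun a ha b hb hab => WtLU_injOn hQ (mem_coe.mpr ha) (mem_coe.mpr hb) hab)]
  refine Finset.prod_congr rfl fun e he => ?_
  have h4 := hQ he
  rw [mem_product, mem_singleton] at h4
  rw [← h4.1]

private theorem WtLU_Ev (i : ι) (P : Finset ℕ) (c : Finset ℕ → ℝ) (Z : Finset (ι × ℕ))
    (hZ : {i} ×ˢ P ⊆ Z) (y : ι × ℕ → ℝ) :
    Ev Z (WtLU_tr i P c) y = ev c P (fun p => y (i, p)) := by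
  unfold Ev ev
  rw [← Finset.sum_subset (Finset.powerset_mono.mpr hZ)]
  · refine Finset.sum_nbij' (fun T => T.image Prod.snd) (fun S => {i} ×ˢ S) ?_ ?_ ?_ ?_ ?_
    · intro T hT
      exact mem_powerset.mpr (WtLU_img (mem_powerset.mp hT))
    · intro S hS
      exact mem_powerset.mpr (Finset.product_subset_product (Finset.Subset.refl _)
        (mem_powerset.mp hS))
    · intro T hT
      exact WtLU_back (mem_powerset.mp hT)
    · intro S _
      exact Finset.product_image_snd (Finset.singleton_nonempty i)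
    · intro T hT
      have hT' := mem_powerset.mp hT
      rw [WtLU_prod hT' y]
      unfold WtLU_tr
      rw [if_pos hT']
  · intro T _ hT
    rw [mem_powerset] at hT
    unfold WtLU_tr
    rw [if_neg hT, zero_mul]

end Transport

private theorem WtLU_prod_ge (P : Finset ℕ) (a : ℕ → ℝ) (ha : ∀ p ∈ P, 0 ≤ a p ∧ a p ≤ 1) :
    1 - ∑ p ∈ P, a p ≤ ∏ p ∈ P, (1 - a p) := by
  classical
  induction P using Finset.induction_on with
  | empty => simp
  | insert q P hq ih =>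
    rw [Finset.sum_insert hq, Finset.prod_insert hq]
    have h1 := ha q (mem_insert_self q P)
    have h2 := ih (fun p hp => ha p (mem_insert_of_mem hp))
    have h3 : ∏ p ∈ P, (1 - a p) ≤ 1 :=
      Finset.prod_le_one (fun p hp => by linarith [(ha p (mem_insert_of_mem hp)).2])
        (fun p hp => by linarith [(ha p (mem_insert_of_mem hp)).1])
    nlinarith

private theorem WtLU_sum_le (P : Finset ℕ) (a : ℕ → ℝ) (ha : ∀ p ∈ P, 0 ≤ a p) :
    1 ≤ ∏ p ∈ P, (1 + a p) ∧ ∑ p ∈ P, a p ≤ ∏ p ∈ P, (1 + a p) := by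
  classical
  induction P using Finset.induction_on with
  | empty => simp
  | insert q P hq ih =>
    rw [Finset.sum_insert hq, Finset.prod_insert hq]
    have h1 := ha q (mem_insert_self q P)
    obtain ⟨h2, h3⟩ := ih (fun p hp => ha p (mem_insert_of_mem hp))
    constructor
    · nlinarith
    · nlinarith

/-- The comparison of the densities `1 / (p - 1)` and `1 / p`. -/
private theorem WtLU_dens (P : Finset ℕ) (Z F : ℝ) (hZ : 1 < Z) (hP : ∀ p ∈ P, Z ≤ (p : ℝ))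
    (hP2 : ∀ p ∈ P, 2 ≤ p) (hF : ∏ p ∈ P, (1 + fn p) ≤ F) :
    0 < ∏ p ∈ P, (1 - 1 / (p : ℝ)) ∧ 1 ≤ F ∧
    Vg g1 P ≤ ∏ p ∈ P, (1 - 1 / (p : ℝ)) ∧
    (∏ p ∈ P, (1 - 1 / (p : ℝ))) * (1 - F / (Z - 1)) ≤ Vg g1 P ∧
    ∀ c : Finset ℕ → ℝ, (∀ T, |c T| ≤ 1) → |ev c P g1 - ev c P (fun p => 1 / (p : ℝ))| ≤
      (∏ p ∈ P, (1 - 1 / (p : ℝ))) * (F ^ 3 / (Z - 1)) := by
  have hp2 : ∀ p ∈ P, (2 : ℝ) ≤ p := fun p hp => by exact_mod_cast hP2 p hp
  have hfn0 : ∀ p ∈ P, 0 ≤ fn p := by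
    intro p hp
    unfold fn
    have := hp2 p hp
    exact div_nonneg zero_le_one (by linarith)
  have hfn1 : ∀ p ∈ P, fn p ≤ 1 := by
    intro p hp
    unfold fn
    have := hp2 p hp
    rw [div_le_one (by linarith)]
    linarith
  have hr0 : ∀ p ∈ P, 0 ≤ 1 / (p : ℝ) := fun p _ => by positivity
  have hrf : ∀ p ∈ P, 1 / (p : ℝ) ≤ fn p := by
    intro p hp
    unfold fn
    have := hp2 p hp
    exact one_div_le_one_div_of_le (by linarith) (by linarith)
  have hr1 : ∀ p ∈ P, 0 < 1 - 1 / (p : ℝ) := by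
    intro p hp
    have := hp2 p hp
    have h1 : 1 / (p : ℝ) ≤ 1 / 2 := one_div_le_one_div_of_le (by norm_num) this
    linarith
  set Fp : ℝ := ∏ p ∈ P, (1 + fn p) with hFp
  set V : ℝ := ∏ p ∈ P, (1 - 1 / (p : ℝ)) with hV
  obtain ⟨hFp1, hsum⟩ := WtLU_sum_le P fn hfn0
  rw [← hFp] at hFp1 hsum
  have hF1 : 1 ≤ F := hFp1.trans hF
  have hVpos : 0 < V := Finset.prod_pos hr1
  have hVF : V * Fp = 1 := by
    rw [hV, hFp, ← Finset.prod_mul_distrib]
    apply Finset.prod_eq_one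
    intro p hp
    unfold fn
    have := hp2 p hp
    have h1 : (p : ℝ) - 1 ≠ 0 := by
      intro h
      linarith
    have h2 : (p : ℝ) ≠ 0 := by
      intro h
      linarith
    field_simp
    ring
  have hZ1 : 0 < Z - 1 := by linarith
  have hS2 : ∑ p ∈ P, fn p ^ 2 ≤ F / (Z - 1) := by
    calc ∑ p ∈ P, fn p ^ 2 ≤ ∑ p ∈ P, fn p * (1 / (Z - 1)) := by
          apply Finset.sum_le_sum
          intro p hp
          rw [sq]
          apply mul_le_mul_of_nonneg_left _ (hfn0 p hp)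
          unfold fn
          exact one_div_le_one_div_of_le hZ1 (by linarith [hP p hp])
      _ = (∑ p ∈ P, fn p) * (1 / (Z - 1)) := by rw [Finset.sum_mul]
      _ ≤ F * (1 / (Z - 1)) :=
          mul_le_mul_of_nonneg_right (hsum.trans hF) (by positivity)
      _ = F / (Z - 1) := by ring
  have hg1 : ∀ p, g1 p = fn p := fun p => rfl
  refine ⟨hVpos, hF1, ?_, ?_, ?_⟩
  · unfold Vg
    apply Finset.prod_le_prod
    · intro p hp
      rw [hg1]
      linarith [hfn1 p hp]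
    · intro p hp
      rw [hg1]
      linarith [hrf p hp]
  · have h1 : Vg g1 P = V * ∏ p ∈ P, (1 - fn p ^ 2) := by
      unfold Vg
      rw [hV, ← Finset.prod_mul_distrib]
      refine Finset.prod_congr rfl fun p hp => ?_
      rw [hg1]
      unfold fn
      have := hp2 p hp
      have h1 : (p : ℝ) - 1 ≠ 0 := by
        intro h
        linarith
      have h2 : (p : ℝ) ≠ 0 := by
        intro h
        linarith
      field_simp
      ring
    rw [h1]
    apply mul_le_mul_of_nonneg_left _ hVpos.le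
    have h2 := WtLU_prod_ge P (fun p => fn p ^ 2) (fun p hp => ⟨sq_nonneg _, by
      have h3 := hfn1 p hp
      have h4 := hfn0 p hp
      nlinarith⟩)
    linarith
  · intro c hc
    have h1 : |ev c P g1 - ev c P (fun p => 1 / (p : ℝ))| ≤
        ∑ T ∈ P.powerset, (∏ p ∈ T, fn p - ∏ p ∈ T, 1 / (p : ℝ)) := by
      unfold ev
      rw [← Finset.sum_sub_distrib]
      refine (Finset.abs_sum_le_sum_abs _ _).trans ?_
      apply Finset.sum_le_sum
      intro T hT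
      have hT' := mem_powerset.mp hT
      rw [← mul_sub, abs_mul]
      have h2 : ∏ p ∈ T, 1 / (p : ℝ) ≤ ∏ p ∈ T, fn p :=
        Finset.prod_le_prod (fun p hp => hr0 p (hT' hp)) (fun p hp => hrf p (hT' hp))
      have h3 : |∏ p ∈ T, g1 p - ∏ p ∈ T, 1 / (p : ℝ)| =
          ∏ p ∈ T, fn p - ∏ p ∈ T, 1 / (p : ℝ) := by
        apply abs_of_nonneg
        have : ∏ p ∈ T, g1 p = ∏ p ∈ T, fn p := rfl
        rw [this]
        linarith
      rw [h3]
      calc |c T| * (∏ p ∈ T, fn p - ∏ p ∈ T, 1 / (p : ℝ)) ≤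
            1 * (∏ p ∈ T, fn p - ∏ p ∈ T, 1 / (p : ℝ)) :=
            mul_le_mul_of_nonneg_right (hc T) (by linarith)
        _ = _ := one_mul _
    refine h1.trans ?_
    rw [Finset.sum_sub_distrib, ← Finset.prod_one_add, ← Finset.prod_one_add]
    have h4 : ∏ p ∈ P, (1 + 1 / (p : ℝ)) = Fp * ∏ p ∈ P, (1 - (1 / (p : ℝ)) ^ 2) := by
      rw [hFp, ← Finset.prod_mul_distrib]
      refine Finset.prod_congr rfl fun p hp => ?_
      unfold fn
      have := hp2 p hp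
      have h1 : (p : ℝ) - 1 ≠ 0 := by
        intro h
        linarith
      have h2 : (p : ℝ) ≠ 0 := by
        intro h
        linarith
      field_simp
      ring
    have h5 := WtLU_prod_ge P (fun p => (1 / (p : ℝ)) ^ 2) (fun p hp => ⟨sq_nonneg _, by
      have h3 := hr1 p hp
      have h4 := hr0 p hp
      nlinarith⟩)
    have h6 : ∑ p ∈ P, (1 / (p : ℝ)) ^ 2 ≤ ∑ p ∈ P, fn p ^ 2 := by
      apply Finset.sum_le_sum
      intro p hp
      exact pow_le_pow_left₀ (hr0 p hp) (hrf p hp) 2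
    have h7 : 1 - F / (Z - 1) ≤ ∏ p ∈ P, (1 - (1 / (p : ℝ)) ^ 2) := by linarith
    have hFp0 : 0 ≤ Fp := by linarith
    have h8 : Fp * (1 - F / (Z - 1)) ≤ ∏ p ∈ P, (1 + 1 / (p : ℝ)) := by
      rw [h4]
      exact mul_le_mul_of_nonneg_left h7 hFp0
    have h9 : Fp * (F / (Z - 1)) = V * (Fp ^ 2 * F / (Z - 1)) := by
      have : V * (Fp ^ 2 * F / (Z - 1)) = (V * Fp) * (Fp * (F / (Z - 1))) := by ring
      rw [this, hVF, one_mul]
    have h10 : Fp ^ 2 * F / (Z - 1) ≤ F ^ 3 / (Z - 1) := by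
      apply div_le_div_of_nonneg_right _ hZ1.le
      have h11 : Fp ^ 2 ≤ F ^ 2 := pow_le_pow_left₀ hFp0 hF 2
      calc Fp ^ 2 * F ≤ F ^ 2 * F := mul_le_mul_of_nonneg_right h11 (by linarith)
        _ = F ^ 3 := by ring
    have h12 := mul_le_mul_of_nonneg_left h10 hVpos.le
    have h13 : Fp - ∏ p ∈ P, (1 + 1 / (p : ℝ)) ≤ Fp * (F / (Z - 1)) := by
      have : Fp * (1 - F / (Z - 1)) = Fp - Fp * (F / (Z - 1)) := by ring
      linarith
    linarith

private theorem WtLU_growth (K : ℝ) (N : ℕ) (hK : 0 ≤ K) : ∀ᶠ x : ℕ in atTop,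
    K * Real.log x ^ N + 1 ≤ z0 x := by
  have hL : Tendsto (fun x : ℕ => Real.log (x : ℝ)) atTop atTop :=
    Real.tendsto_log_atTop.comp tendsto_natCast_atTop_atTop
  have hl : Tendsto (fun x : ℕ => Real.log (Real.log (x : ℝ))) atTop atTop :=
    Real.tendsto_log_atTop.comp hL
  have hN : (0 : ℝ) < (N : ℝ) + 2 := by positivity
  have ho : ∀ᶠ L : ℝ in atTop, ‖Real.log L ^ 3‖ ≤ (1 / ((N : ℝ) + 2)) * ‖L‖ :=
    (Real.isLittleO_pow_log_id_atTop (n := 3)).def (by positivity)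
  filter_upwards [hL.eventually ho, hL.eventually_ge_atTop (K + 1), hl.eventually_ge_atTop 1]
    with x h1 h2 h3
  set L : ℝ := Real.log x with hLdef
  set l : ℝ := Real.log L with hldef
  have hL1 : 1 ≤ L := by linarith
  have hL0 : 0 < L := by linarith
  have hl2 : 0 < l ^ 2 := by positivity
  have h5 : l ^ 3 ≤ (1 / ((N : ℝ) + 2)) * L := by
    rw [Real.norm_of_nonneg (by positivity), Real.norm_of_nonneg hL0.le] at h1
    exact h1
  have h6 : ((N : ℝ) + 2) * l ≤ L / l ^ 2 := by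
    rw [le_div_iff₀ hl2]
    have h7 : ((N : ℝ) + 2) * l ^ 3 ≤ L := by
      have := mul_le_mul_of_nonneg_left h5 hN.le
      have h8 : ((N : ℝ) + 2) * (1 / ((N : ℝ) + 2) * L) = L := by field_simp
      linarith
    calc ((N : ℝ) + 2) * l * l ^ 2 = ((N : ℝ) + 2) * l ^ 3 := by ring
      _ ≤ L := h7
  have h9 : L ^ (N + 2) ≤ z0 x := by
    have h10 : z0 x = Real.exp (L / l ^ 2) := rfl
    rw [h10]
    calc L ^ (N + 2) = Real.exp (((N : ℝ) + 2) * l) := by
          have h11 : ((N : ℝ) + 2) * l = ((N + 2 : ℕ) : ℝ) * l := by push_cast; ring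
          rw [h11, Real.exp_nat_mul, hldef, Real.exp_log hL0]
      _ ≤ Real.exp (L / l ^ 2) := Real.exp_le_exp.mpr h6
  have h12 : (1 : ℝ) ≤ L ^ N := one_le_pow₀ hL1
  have h13 : L ^ (N + 2) = L ^ N * (L * L) := by ring
  have h14 : K + 1 ≤ L * L := by nlinarith
  have h15 : L ^ N * (K + 1) ≤ L ^ N * (L * L) := mul_le_mul_of_nonneg_left h14 (by positivity)
  linarith

/-- All that is needed about large `x`. -/
private theorem WtLU_ev (δ K : ℝ) (hδ : 0 < δ) (hK : 0 ≤ K) (ε : ℝ) (hε : 0 < ε) :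
    ∀ᶠ x : ℕ in atTop, 1 ≤ x ∧ BigP ((x : ℝ) ^ δ) (PZ x δ) ∧ 1 < z0 x ∧
      ∃ F : ℝ, ∏ p ∈ PZ x δ, (1 + fn p) ≤ F ∧ K * (F ^ 3 / (z0 x - 1)) ≤ ε := by
  obtain ⟨B, hB⟩ := euler_pow 1 zero_le_one
  filter_upwards [hB, WtLU_growth (K / ε + Real.exp 24 + 1) (3 * B) (by positivity),
    eventually_ge_atTop 3] with x h1 h2 h3
  have hx3 : (3 : ℝ) ≤ x := by exact_mod_cast h3
  have hlog : 1 ≤ Real.log x := by
    rw [← Real.log_exp 1]
    apply Real.log_le_log (Real.exp_pos 1)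
    have := Real.exp_one_lt_d9
    linarith
  have hpow : 1 ≤ Real.log x ^ (3 * B) := one_le_pow₀ hlog
  have hKε : 0 ≤ K / ε := by positivity
  have he : 0 < Real.exp 24 := Real.exp_pos 24
  have hz1 : (K / ε + Real.exp 24 + 1) * Real.log x ^ (3 * B) + 1 ≤ z0 x := h2
  have hz2 : K / ε + Real.exp 24 + 1 + 1 ≤ z0 x := by nlinarith
  refine ⟨by omega, ?_, by linarith, Real.log x ^ B, ?_, ?_⟩
  · intro p hp
    unfold PZ at hp
    rw [mem_filter] at hp
    obtain ⟨hp1, hp2⟩ := hp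
    unfold PX at hp1
    rw [mem_filter] at hp1
    exact ⟨hp1.2.1, by linarith [hp1.2.2], hp2⟩
  · refine le_trans ?_ h1
    have hsub : PZ x δ ⊆ (range (x + 1)).filter Nat.Prime := by
      intro p hp
      unfold PZ PX at hp
      rw [mem_filter, mem_filter] at hp
      rw [mem_filter]
      exact ⟨hp.1.1, hp.1.2.1⟩
    have hf : ∀ p ∈ (range (x + 1)).filter Nat.Prime, 0 ≤ fn p := by
      intro p hp
      rw [mem_filter] at hp
      have h4 : (2 : ℝ) ≤ p := by exact_mod_cast hp.2.two_le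
      unfold fn
      exact div_nonneg zero_le_one (by linarith)
    calc ∏ p ∈ PZ x δ, (1 + fn p)
        ≤ ∏ p ∈ (range (x + 1)).filter Nat.Prime, (1 + fn p) := by
          rw [← Finset.prod_sdiff hsub]
          have h10 : 1 ≤ ∏ p ∈ (range (x + 1)).filter Nat.Prime \ PZ x δ, (1 + fn p) :=
            (WtLU_sum_le _ fn (fun p hp => hf p (mem_sdiff.mp hp).1)).1
          have h11 : 0 ≤ ∏ p ∈ PZ x δ, (1 + fn p) :=
            Finset.prod_nonneg fun p hp => by linarith [hf p (hsub hp)]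
          exact le_mul_of_one_le_left h11 h10
      _ = ∏ p ∈ (range (x + 1)).filter Nat.Prime, (1 + 1 * fn p) := by
          refine Finset.prod_congr rfl fun p _ => ?_
          rw [one_mul]
  · have h5 : (Real.log x ^ B) ^ 3 = Real.log x ^ (3 * B) := by
      rw [← pow_mul, mul_comm]
    rw [h5, ← mul_div_assoc, div_le_iff₀ (by linarith)]
    have h6 : K = ε * (K / ε) := by field_simp
    have h7 : (K / ε) * Real.log x ^ (3 * B) ≤ z0 x - 1 := by
      have h8 : 0 ≤ (Real.exp 24 + 1) * Real.log x ^ (3 * B) := by positivity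
      have h9 : (K / ε + Real.exp 24 + 1) * Real.log x ^ (3 * B) =
        (K / ε) * Real.log x ^ (3 * B) + (Real.exp 24 + 1) * Real.log x ^ (3 * B) := by ring
      linarith
    calc K * Real.log x ^ (3 * B) = ε * ((K / ε) * Real.log x ^ (3 * B)) := by
          rw [← mul_assoc, ← h6]
      _ ≤ ε * (z0 x - 1) := mul_le_mul_of_nonneg_left h7 hε.le

/-- The properties of the transported weights. -/
private theorem WtLU_cls (ι : Type) [Fintype ι] [DecidableEq ι] (i : ι) (δ s : ℝ) (x : ℕ)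
    (c : Finset ℕ → ℝ) (hc : Wt (PZ x δ) (((x : ℝ) ^ δ) ^ s) c) :
    Cls x 0 1 ((x : ℝ) ^ (δ * s)) (WtLU_tr i (PZ x δ) c) ∧
      (∀ Q, WtLU_tr i (PZ x δ) c Q ≠ 0 → Q ⊆ Si x δ i) ∧
      {i} ×ˢ PZ x δ ⊆ EX ι x := by
  have hsub : {i} ×ˢ PZ x δ ⊆ EX ι x := by
    intro e he
    rw [mem_product] at he
    unfold EX
    rw [mem_product]
    refine ⟨mem_univ _, ?_⟩
    have := he.2
    unfold PZ at this
    exact (mem_filter.mp this).1
  have hne : ∀ Q, WtLU_tr i (PZ x δ) c Q ≠ 0 → Q ⊆ {i} ×ˢ PZ x δ := by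
    intro Q hQ
    by_contra h
    apply hQ
    unfold WtLU_tr
    rw [if_neg h]
  refine ⟨?_, fun Q hQ => hne Q hQ, hsub⟩
  intro Q
  constructor
  · rw [pow_zero, one_pow, one_mul]
    unfold WtLU_tr
    split_ifs
    · exact hc.1 _
    · rw [abs_zero]
      exact zero_le_one
  · intro hQ
    have h1 := hne Q hQ
    refine ⟨h1.trans hsub, ?_⟩
    have h2 : c (Q.image Prod.snd) ≠ 0 := by
      unfold WtLU_tr at hQ
      rwa [if_pos h1] at hQ
    have h3 := (hc.2 _ h2).2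
    rw [WtLU_prod h1 (fun e => (e.2 : ℝ)), Real.rpow_mul (Nat.cast_nonneg x)]
    exact h3

open Classical in
private theorem WtLU_Vg {ι : Type} (h : ι → ℕ) (i : ι) (n : ℕ) (P : Finset ℕ) :
    ZO (fun p => yy h n (i, p)) ∧
      Vg (fun p => yy h n (i, p)) P = if ∀ p ∈ P, ¬ p ∣ n + h i then 1 else 0 := by
  constructor
  · intro p
    unfold yy
    simp only
    split_ifs
    · right
      rfl
    · left
      rfl
  · unfold Vg
    split_ifs with h1
    · apply Finset.prod_eq_one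
      intro p hp
      unfold yy
      simp only
      rw [if_neg (h1 p hp), sub_zero]
    · push Not at h1
      obtain ⟨p, hp, hdvd⟩ := h1
      apply Finset.prod_eq_zero hp
      unfold yy
      simp only
      rw [if_pos hdvd, sub_self]

private theorem WtLU_le (c d : Finset ℕ → ℝ) (P : Finset ℕ) (h : ∀ y, ZO y → ev c P y ≤ ev d P y)
    (g : ℕ → ℝ) (hg : ∀ p ∈ P, 0 ≤ g p ∧ g p ≤ 1) : ev c P g ≤ ev d P g := by
  have h1 := WtLU_nonneg (fun T => d T - c T) P (fun y hy => by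
    rw [Pool.Agent.H91.PK.SvA_ev_sub]
    linarith [h y hy]) g hg
  rw [Pool.Agent.H91.PK.SvA_ev_sub] at h1
  linarith

theorem wtLU (ι : Type) [Fintype ι] [DecidableEq ι] (h : ι → ℕ) (i : ι) (δ s f F ε : ℝ) (hδ : 0 < δ) (hδ1 : δ ≤ 1)
    (hs : 0 ≤ s) (hf : 0 ≤ f) (hF : 0 ≤ F) (hL : L1 s f) (hU : U1 s F) (hε : 0 < ε) :
    ∀ᶠ x : ℕ in atTop, ∃ cL cU : Finset (ι × ℕ) → ℝ,
      Cls x 0 1 ((x : ℝ) ^ (δ * s)) cL ∧ Cls x 0 1 ((x : ℝ) ^ (δ * s)) cU ∧
      (∀ Q, cL Q ≠ 0 → Q ⊆ Si x δ i) ∧ (∀ Q, cU Q ≠ 0 → Q ⊆ Si x δ i) ∧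
      (∀ n, Ev (EX ι x) cL (yy h n) ≤ if ∀ p ∈ PZ x δ, ¬ p ∣ n + h i then 1 else 0) ∧
      (∀ n, (if ∀ p ∈ PZ x δ, ¬ p ∣ n + h i then 1 else 0) ≤ Ev (EX ι x) cU (yy h n)) ∧
      (f - ε) * V1 x δ ≤ Ev (Si x δ i) cL gi ∧ Ev (Si x δ i) cL gi ≤ V1 x δ ∧
      V1 x δ ≤ Ev (Si x δ i) cU gi ∧ Ev (Si x δ i) cU gi ≤ (F + ε) * V1 x δ := by
  filter_upwards [WtLU_ev δ (f + 1) hδ (by linarith) ε hε, WtLU_ev δ 1 hδ zero_le_one ε hε]
    with x hx hx'
  obtain ⟨hx1, hbig, hz, F0, hF0, hFε⟩ := hx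
  obtain ⟨-, -, -, G, hG, hGε⟩ := hx'
  have hx1' : (1 : ℝ) ≤ x := by exact_mod_cast hx1
  have hzp : ∀ p ∈ PZ x δ, z0 x ≤ (p : ℝ) := by
    intro p hp
    unfold PZ PX at hp
    rw [mem_filter, mem_filter] at hp
    exact hp.1.2.2.le
  have hg01 : ∀ p ∈ PZ x δ, 0 ≤ 1 / (p : ℝ) ∧ 1 / (p : ℝ) ≤ 1 := by
    intro p hp
    have h2 : (2 : ℝ) ≤ p := by exact_mod_cast (hbig p hp).1.two_le
    refine ⟨by positivity, ?_⟩
    rw [div_le_one (by linarith)]
    linarith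
  have hVV : V1 x δ = Vg (fun p => 1 / (p : ℝ)) (PZ x δ) := rfl
  obtain ⟨cL, hcL1, hcL2, hcL3⟩ := hL ((x : ℝ) ^ δ) (Real.one_le_rpow hx1' hδ.le) (PZ x δ) hbig
  obtain ⟨hclL, hsupL, hsub⟩ := WtLU_cls ι i δ s x cL hcL1
  obtain ⟨cU, hcU1, hcU2, hcU3⟩ := hU ((x : ℝ) ^ δ) (Real.one_le_rpow hx1' hδ.le) (PZ x δ) hbig
  obtain ⟨hclU, hsupU, -⟩ := WtLU_cls ι i δ s x cU hcU1
  have h5L : Ev (Si x δ i) (WtLU_tr i (PZ x δ) cL) gi = ev cL (PZ x δ) (fun p => 1 / (p : ℝ)) :=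
    WtLU_Ev i (PZ x δ) cL (Si x δ i) (Finset.Subset.refl _) gi
  have h5U : Ev (Si x δ i) (WtLU_tr i (PZ x δ) cU) gi = ev cU (PZ x δ) (fun p => 1 / (p : ℝ)) :=
    WtLU_Ev i (PZ x δ) cU (Si x δ i) (Finset.Subset.refl _) gi
  refine ⟨WtLU_tr i (PZ x δ) cL, WtLU_tr i (PZ x δ) cU, hclL, hclU, hsupL, hsupU, ?_, ?_, ?_, ?_,
    ?_, ?_⟩
  · intro n
    rw [WtLU_Ev i (PZ x δ) cL (EX ι x) hsub]
    obtain ⟨h1, h2⟩ := WtLU_Vg h i n (PZ x δ)
    have h3 := hcL2 _ h1
    rw [h2] at h3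
    refine h3.trans (le_of_eq ?_)
    split_ifs <;> rfl
  · intro n
    rw [WtLU_Ev i (PZ x δ) cU (EX ι x) hsub]
    obtain ⟨h1, h2⟩ := WtLU_Vg h i n (PZ x δ)
    have h3 := hcU2 _ h1
    rw [h2] at h3
    refine le_trans (le_of_eq ?_) h3
    split_ifs <;> rfl
  · obtain ⟨hV0, hF1, hV1, hV2, hV3⟩ := WtLU_dens (PZ x δ) (z0 x) F0 hz hzp
      (fun p hp => (hbig p hp).1.two_le) hF0
    have h4 := hV3 cL hcL1.1
    rw [h5L]
    have hVV : V1 x δ = ∏ p ∈ PZ x δ, (1 - 1 / (p : ℝ)) := rfl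
    rw [hVV]
    set V : ℝ := ∏ p ∈ PZ x δ, (1 - 1 / (p : ℝ)) with hVdef
    have hz1 : 0 < z0 x - 1 := by linarith
    have h6 : F0 / (z0 x - 1) ≤ F0 ^ 3 / (z0 x - 1) := by
      apply div_le_div_of_nonneg_right _ hz1.le
      nlinarith [mul_self_nonneg (F0 - 1)]
    have h7 : f * (V * (1 - F0 / (z0 x - 1))) ≤ f * Vg g1 (PZ x δ) :=
      mul_le_mul_of_nonneg_left hV2 hf
    have h8 := abs_le.mp h4
    have h9 : f * (V * (F0 / (z0 x - 1))) ≤ f * (V * (F0 ^ 3 / (z0 x - 1))) :=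
      mul_le_mul_of_nonneg_left (mul_le_mul_of_nonneg_left h6 hV0.le) hf
    have h10 : V * ((f + 1) * (F0 ^ 3 / (z0 x - 1))) ≤ V * ε :=
      mul_le_mul_of_nonneg_left hFε hV0.le
    have h11 : f * (V * (1 - F0 / (z0 x - 1))) = f * V - f * (V * (F0 / (z0 x - 1))) := by ring
    have h12 : V * ((f + 1) * (F0 ^ 3 / (z0 x - 1))) =
      f * (V * (F0 ^ 3 / (z0 x - 1))) + V * (F0 ^ 3 / (z0 x - 1)) := by ring
    have h13 : (f - ε) * V = f * V - V * ε := by ring
    linarith [h8.2, hcL3]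
  · rw [h5L, hVV, ← Pool.Agent.H91.PK.SvA_ev_ex]
    apply WtLU_le _ _ _ _ _ hg01
    intro y hy
    rw [Pool.Agent.H91.PK.SvA_ev_ex]
    exact hcL2 y hy
  · rw [h5U, hVV, ← Pool.Agent.H91.PK.SvA_ev_ex]
    apply WtLU_le _ _ _ _ _ hg01
    intro y hy
    rw [Pool.Agent.H91.PK.SvA_ev_ex]
    exact hcU2 y hy
  · obtain ⟨hV0, hF1, hV1, hV2, hV3⟩ := WtLU_dens (PZ x δ) (z0 x) G hz hzp
      (fun p hp => (hbig p hp).1.two_le) hG
    have h4 := hV3 cU hcU1.1
    rw [h5U]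
    have hVV : V1 x δ = ∏ p ∈ PZ x δ, (1 - 1 / (p : ℝ)) := rfl
    rw [hVV]
    set V : ℝ := ∏ p ∈ PZ x δ, (1 - 1 / (p : ℝ)) with hVdef
    have h8 := abs_le.mp h4
    have h9 : F * Vg g1 (PZ x δ) ≤ F * V := mul_le_mul_of_nonneg_left hV1 hF
    have h10 : V * (1 * (G ^ 3 / (z0 x - 1))) ≤ V * ε := mul_le_mul_of_nonneg_left hGε hV0.le
    rw [one_mul] at h10
    have h13 : (F + ε) * V = F * V + V * ε := by ring
    linarith [h8.1, hcU3]

end Pool.Agent.H36.IS2
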