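import Pool.Agent.H36.IS.SumI
import Pool.Agent.H36.IS.AlgC
import Pool.Agent.H36.IS2.TrcA
import Pool.Agent.H36.IS2.WtLU

/-!
# ISP SumN: sums with one nonnegative array

v = pr (Si x δ i) (fo gi) y; on the n with no p ∈ PZ x δ dividing n + h i: Ly(y) = Ly(v) (`Ev_lam_pr`).  With cL, cU from `wtLU`, E = trc i c
(pointwise ≥ 0 by ArrN and `trc_yy`):
 ∑_{AA} [rough] Ly(y)² E ≥ ∑_{AA} Ly(v)² Ev cL E  and  ≤ ∑_{AA} Ly(v)² Ev cU E.
The arrays uc (uc (uc λ λ) cL) E (λ = lam EZ gi v) are in a class of level 2θ + δ s + a < 1 (`cls_lam`, `yok_pr`, `cls_uc`, `trc_cls`): `trI`; the main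
terms factor: λ is supported on EZ \ Si, cL on Si, E on {i} × (primes > x^δ) (`Ev_uc_disj` twice, `EE_lam`, `trc_gi`).
0 ≤ evM c, 0 ≤ My, Mn ≥ 0.  Compare SumL.lean, SumX.lean.
-/

set_option autoImplicit false

namespace Pool.Agent.H36.IS2

open Finset Filter Pool.Agent.H36.IS

open Pool.Agent.H91.PK (L1 U1)

private lemma SumN_Si_sub (x : ℕ) {ι : Type} [Fintype ι] [DecidableEq ι] (δ : ℝ) (i : ι) : Si x δ i ⊆ EZ ι x δ := by
  unfold Si EZ
  intro e he
  rw [Finset.mem_product] at he ⊢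
  exact ⟨Finset.mem_univ _, he.2⟩

private lemma SumN_EZ_sub (x : ℕ) {ι : Type} [Fintype ι] [DecidableEq ι] (δ : ℝ) : EZ ι x δ ⊆ EX ι x := by
  unfold EZ EX
  intro e he
  rw [Finset.mem_product] at he ⊢
  refine ⟨Finset.mem_univ _, ?_⟩
  unfold PZ at he
  exact (Finset.mem_filter.1 he.2).1

private lemma SumN_yy01 {ι : Type} [Fintype ι] [DecidableEq ι] (h : ι → ℕ) (n : ℕ) (e : ι × ℕ) :
    yy h n e = 0 ∨ yy h n e = 1 := by
  unfold yy
  split_ifs
  · exact Or.inr rfl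
  · exact Or.inl rfl

private lemma SumN_My_nonneg {ι : Type} [Fintype ι] [DecidableEq ι] (x : ℕ) (δ : ℝ) (v : Finset (ι × ℕ) → ℝ) :
    0 ≤ My ι x δ v := by
  unfold My MM
  apply Finset.sum_nonneg
  intro R hR
  apply mul_nonneg (sq_nonneg _)
  apply Finset.prod_nonneg
  intro e he
  have h1 := fo_gi (SumN_EZ_sub x δ (Finset.mem_powerset.1 hR he))
  unfold fo
  exact div_nonneg h1.2.1.le (by linarith [h1.2.2])

/-- support of the Selberg coefficients of a projected function -/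
private lemma SumN_lam_sup {ι : Type} [Fintype ι] [DecidableEq ι] {P S : Finset (ι × ℕ)} {y : Finset (ι × ℕ) → ℝ}
    (Q : Finset (ι × ℕ)) (h : lam P gi (pr S (fo gi) y) Q ≠ 0) : Q ⊆ P \ S := by
  obtain ⟨R, hQR, hRP, hR⟩ := lam_sup h
  have h1 := (pr_disj hR).1
  intro e he
  rw [Finset.mem_sdiff]
  exact ⟨hRP (hQR he), fun h2 => (Finset.disjoint_left.1 h1) (hQR he) h2⟩

open Classical in
theorem sumN (ι : Type) [Fintype ι] [DecidableEq ι] (h : ι → ℕ) (W b : ℕ) (hG : Good h W b) (B1 : ℕ)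
    (δ θ a s f F ε : ℝ) (hδ : 0 < δ) (hδ1 : δ ≤ 1) (hθ : 0 ≤ θ) (ha : 0 ≤ a) (hs : 0 ≤ s) (hf : 0 ≤ f) (hF : 0 ≤ F)
    (hL : L1 s f) (hU : U1 s F) (hε : 0 < ε) (hlev : 2 * θ + δ * s + a < 1) (A : ℕ) :
    ∀ᶠ x : ℕ in atTop, ∀ y : Finset (ι × ℕ) → ℝ, Yok x δ θ (Real.log x ^ B1) y →
      ∀ c : Finset ℕ → ℝ, ArrN x δ ((x : ℝ) ^ a) c → ∀ i,
      Mn ι W x * ((f - ε) * V1 x δ * evM (PX x) c) * My ι x δ (pr (Si x δ i) (fo gi) y) - x / Real.log x ^ A ≤
        ∑ n ∈ AA h W b x, Ly h x δ y n ^ 2 * (if ∀ p ∈ PZ x δ, ¬ p ∣ n + h i then evD (PX x) c (n + h i) else 0) ∧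
      ∑ n ∈ AA h W b x, Ly h x δ y n ^ 2 * (if ∀ p ∈ PZ x δ, ¬ p ∣ n + h i then evD (PX x) c (n + h i) else 0) ≤
        Mn ι W x * ((F + ε) * V1 x δ * evM (PX x) c) * My ι x δ (pr (Si x δ i) (fo gi) y) + x / Real.log x ^ A := by
  obtain ⟨η, hη, hη1⟩ : ∃ η : ℝ, 0 < η ∧ 2 * θ + δ * s + a ≤ 1 - η :=
    ⟨1 - (2 * θ + δ * s + a), by linarith, by linarith⟩
  obtain ⟨B2, hB2⟩ := yok_pr ι B1
  obtain ⟨Bv, hBv⟩ := cls_lam ι B2
  obtain ⟨B3, hB3⟩ := Mn_low ι h W b hG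
  have hw := Filter.eventually_all.2 (fun i : ι => wtLU ι h i δ s f F ε hδ hδ1 hs hf hF hL hU hε)
  have hlog : ∀ᶠ x : ℕ in atTop, (3 : ℝ) ≤ Real.log x :=
    (Real.tendsto_log_atTop.comp (tendsto_natCast_atTop_atTop (R := ℝ))).eventually (eventually_ge_atTop 3)
  filter_upwards [hB2, hBv, hB3, hw, hlog, eventually_ge_atTop 3,
    trI ι h W b hG (Bv + Bv + 1) 35 η (by norm_num) hη A]
    with x hyokpr hclslam hMn hwx hlog3 hx3 htr
  intro y hy c hc i
  have hlogx : (1 : ℝ) ≤ Real.log x := by linarith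
  have hx1 : (1 : ℝ) ≤ (x : ℝ) := by
    have : (3 : ℝ) ≤ (x : ℝ) := by exact_mod_cast hx3
    linarith
  have hx0 : (0 : ℝ) < (x : ℝ) := by linarith
  obtain ⟨cL, cU, hcLc, hcUc, hcLs, hcUs, hcLp, hcUp, hcLv, -, -, hcUv⟩ := hwx i
  set E := EX ι x with hE
  set P := EZ ι x δ with hP
  set S := Si x δ i with hS
  have hSP : S ⊆ P := SumN_Si_sub x δ i
  have hPE : P ⊆ E := SumN_EZ_sub x δ
  set v := pr S (fo gi) y with hv
  have hyv : Yok x δ θ (Real.log x ^ B2) v := hyokpr δ θ y S hSP hy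
  have hlv : Cls x Bv 2 ((x : ℝ) ^ θ) (lam P gi v) := hclslam δ θ v hyv
  set lv := lam P gi v with hlvdef
  have hlvs : ∀ Q, lv Q ≠ 0 → Q ⊆ P \ S := fun Q hQ => SumN_lam_sup Q hQ
  have hlvsP : ∀ Q, lv Q ≠ 0 → Q ⊆ P := fun Q hQ => (hlvs Q hQ).trans Finset.sdiff_subset
  set q := uc E lv lv with hq
  have hxθ : (0 : ℝ) ≤ (x : ℝ) ^ θ := Real.rpow_nonneg hx0.le _
  have hqc : Cls x (Bv + Bv) (2 + 2 + 2 * 2) ((x : ℝ) ^ θ * (x : ℝ) ^ θ) q :=
    cls_uc hlogx (by norm_num) (by norm_num) hxθ hxθ hlv hlv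
  have hqs : ∀ Q, q Q ≠ 0 → Q ⊆ P \ S := by
    intro Q hQ
    have := (uc_sup hlvs hlvs Q hQ).1
    rwa [Finset.union_self] at this
  have hqE : q = uc P lv lv := uc_ground hPE hlvsP hlvsP
  have hxx : (0 : ℝ) ≤ (x : ℝ) ^ θ * (x : ℝ) ^ θ := mul_nonneg hxθ hxθ
  -- the transported array
  have hcsup : ∀ T, c T ≠ 0 → T ⊆ PX x := fun T hT => ((hc.1 T).2 hT).1
  set Ec := trc i c with hEc
  have hEcc : Cls x 1 1 ((x : ℝ) ^ a) Ec := trc_cls i hlog3 hc
  set S3 : Finset (ι × ℕ) := {i} ×ˢ (PX x).filter (fun p : ℕ => (x : ℝ) ^ δ < p) with hS3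
  have hEcs : ∀ Q, Ec Q ≠ 0 → Q ⊆ S3 := by
    intro Q hQ
    refine (trc_sup i (P := (PX x).filter (fun p : ℕ => (x : ℝ) ^ δ < p)) ?_ Q hQ).1
    intro T hT p hp
    have h1 := (hc.1 T).2 hT
    exact Finset.mem_filter.2 ⟨h1.1 hp, h1.2.1 p hp⟩
  have hS3E : S3 ⊆ E := by
    intro e he
    rw [hS3, Finset.mem_product] at he
    rw [hE]
    unfold EX
    rw [Finset.mem_product]
    exact ⟨Finset.mem_univ _, (Finset.mem_filter.1 he.2).1⟩
  have hPS3 : Disjoint P S3 := by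
    rw [Finset.disjoint_left]
    intro e he he3
    rw [hS3, Finset.mem_product] at he3
    rw [hP] at he
    unfold EZ PZ at he
    rw [Finset.mem_product] at he
    have h1 := (Finset.mem_filter.1 he.2).2
    have h2 := (Finset.mem_filter.1 he3.2).2
    linarith
  -- evaluation at the density
  have hgP : ∀ e ∈ P, 0 < gi e ∧ gi e < 1 := fun e he => (fo_gi (hPE he)).2
  have hqval : Ev (P \ S) q gi = My ι x δ v := by
    rw [← Ev_sup (Finset.sdiff_subset : P \ S ⊆ P) hqs, hqE, hlvdef, EE_lam hgP]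
    unfold My MM
    apply Finset.sum_congr rfl
    intro R hR
    rw [pow_two]
  have hdisj : Disjoint (P \ S) S := Finset.sdiff_disjoint
  have hEcv : Ev E Ec gi = evM (PX x) c := trc_gi i x c hcsup
  -- pointwise values
  have hLyv : ∀ n, Ev E lv (yy h n) = Ly h x δ v n := by
    intro n
    rw [Ev_sup hPE hlvsP]
    rfl
  have hEcy : ∀ n, Ev E Ec (yy h n) = evD (PX x) c (n + h i) := fun n => trc_yy h i x c hcsup n
  have hrough : ∀ n, (∀ p ∈ PZ x δ, ¬ p ∣ n + h i) → Ly h x δ v n = Ly h x δ y n := by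
    intro n hn
    have := Ev_lam_pr hSP hgP y (v := yy h n) (by
      intro e he
      rw [hS] at he
      unfold Si at he
      rw [Finset.mem_product, Finset.mem_singleton] at he
      unfold yy
      rw [if_neg]
      rw [he.1]
      exact hn e.2 he.2)
    exact this
  -- everything about one weight
  have hgen : ∀ w : Finset (ι × ℕ) → ℝ, Cls x 0 1 ((x : ℝ) ^ (δ * s)) w → (∀ Q, w Q ≠ 0 → Q ⊆ S) →
      |∑ n ∈ AA h W b x, Ly h x δ v n ^ 2 * Ev E w (yy h n) * evD (PX x) c (n + h i) -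
        Mn ι W x * (My ι x δ v * Ev S w gi * evM (PX x) c)| ≤ x / Real.log x ^ A := by
    intro w hw hws
    have h0 := cls_uc hlogx (by norm_num) (by norm_num) hxx (Real.rpow_nonneg hx0.le _) hqc hw
    have h1 := cls_uc hlogx (by norm_num) (by norm_num)
      (mul_nonneg hxx (Real.rpow_nonneg hx0.le _)) (Real.rpow_nonneg hx0.le _) h0 hEcc
    have h2 : Cls x (Bv + Bv + 1) 35 ((x : ℝ) ^ (1 - η)) (uc E (uc E q w) Ec) := by
      refine Cls.mono h1 hlogx (by omega) (by norm_num) (by norm_num) ?_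
      rw [← Real.rpow_add hx0, ← Real.rpow_add hx0, ← Real.rpow_add hx0]
      apply Real.rpow_le_rpow_of_exponent_le hx1
      linarith
    have h3 := htr _ h2
    have hwP : ∀ Q, uc E q w Q ≠ 0 → Q ⊆ P := by
      intro Q hQ
      have := (uc_sup hqs hws Q hQ).1
      exact this.trans (Finset.union_subset Finset.sdiff_subset hSP)
    have h4 : Ev E (uc E q w) gi = My ι x δ v * Ev S w gi := by
      rw [Ev_uc_disj (Finset.sdiff_subset.trans hPE) (hSP.trans hPE) hdisj hqs hws, hqval]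
    have h5 : Ev E (uc E (uc E q w) Ec) gi = My ι x δ v * Ev S w gi * evM (PX x) c := by
      rw [Ev_uc_disj hPE hS3E hPS3 hwP hEcs, ← Ev_sup hPE hwP, h4, ← Ev_sup hS3E hEcs, hEcv]
    have h6 : ∀ n, Ev E (uc E (uc E q w) Ec) (yy h n) =
        Ly h x δ v n ^ 2 * Ev E w (yy h n) * evD (PX x) c (n + h i) := by
      intro n
      rw [Ev_uc _ _ (fun e _ => SumN_yy01 h n e), Ev_uc _ _ (fun e _ => SumN_yy01 h n e), hq,
        Ev_uc _ _ (fun e _ => SumN_yy01 h n e), hLyv, hEcy]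
      ring
    rw [h5, Finset.sum_congr rfl (fun n _ => h6 n)] at h3
    exact h3
  have hMn0 : 0 ≤ Mn ι W x := by
    refine le_trans ?_ hMn
    exact div_nonneg hx0.le (pow_nonneg (by linarith) _)
  have hMy0 : 0 ≤ My ι x δ v := SumN_My_nonneg x δ v
  have hM0 : 0 ≤ evM (PX x) c := hc.2.2
  have hC0 : 0 ≤ Mn ι W x * (My ι x δ v * evM (PX x) c) := mul_nonneg hMn0 (mul_nonneg hMy0 hM0)
  constructor
  · have ht := abs_le.1 (hgen cL hcLc hcLs)
    have key : ∀ n ∈ AA h W b x, Ly h x δ v n ^ 2 * Ev E cL (yy h n) * evD (PX x) c (n + h i) ≤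
        Ly h x δ y n ^ 2 * (if ∀ p ∈ PZ x δ, ¬ p ∣ n + h i then evD (PX x) c (n + h i) else 0) := by
      intro n _
      have hcL1 := hcLp n
      have hD0 : 0 ≤ evD (PX x) c (n + h i) := hc.2.1 (n + h i)
      by_cases hr1 : ∀ p ∈ PZ x δ, ¬ p ∣ n + h i
      · rw [if_pos hr1] at hcL1
        rw [if_pos hr1, hrough n hr1]
        apply mul_le_mul_of_nonneg_right _ hD0
        have := mul_le_mul_of_nonneg_left hcL1 (sq_nonneg (Ly h x δ y n))
        linarith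
      · rw [if_neg hr1] at hcL1
        rw [if_neg hr1, mul_zero]
        exact mul_nonpos_of_nonpos_of_nonneg (mul_nonpos_of_nonneg_of_nonpos (sq_nonneg _) hcL1) hD0
    have hsum := Finset.sum_le_sum key
    have h1 := mul_le_mul_of_nonneg_left hcLv hC0
    have e1 : Mn ι W x * (My ι x δ v * evM (PX x) c) * ((f - ε) * V1 x δ) =
      Mn ι W x * ((f - ε) * V1 x δ * evM (PX x) c) * My ι x δ v := by ring
    have e2 : Mn ι W x * (My ι x δ v * evM (PX x) c) * Ev S cL gi =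
      Mn ι W x * (My ι x δ v * Ev S cL gi * evM (PX x) c) := by ring
    rw [e1, e2] at h1
    linarith [ht.1]
  · have ht := abs_le.1 (hgen cU hcUc hcUs)
    have key : ∀ n ∈ AA h W b x,
        Ly h x δ y n ^ 2 * (if ∀ p ∈ PZ x δ, ¬ p ∣ n + h i then evD (PX x) c (n + h i) else 0) ≤
        Ly h x δ v n ^ 2 * Ev E cU (yy h n) * evD (PX x) c (n + h i) := by
      intro n _
      have hcU1 := hcUp n
      have hD0 : 0 ≤ evD (PX x) c (n + h i) := hc.2.1 (n + h i)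
      by_cases hr1 : ∀ p ∈ PZ x δ, ¬ p ∣ n + h i
      · rw [if_pos hr1] at hcU1
        rw [if_pos hr1, hrough n hr1]
        apply mul_le_mul_of_nonneg_right _ hD0
        have := mul_le_mul_of_nonneg_left hcU1 (sq_nonneg (Ly h x δ y n))
        linarith
      · rw [if_neg hr1] at hcU1
        rw [if_neg hr1, mul_zero]
        exact mul_nonneg (mul_nonneg (sq_nonneg _) hcU1) hD0
    have hsum := Finset.sum_le_sum key
    have h1 := mul_le_mul_of_nonneg_left hcUv hC0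
    have e1 : Mn ι W x * (My ι x δ v * evM (PX x) c) * ((F + ε) * V1 x δ) =
      Mn ι W x * ((F + ε) * V1 x δ * evM (PX x) c) * My ι x δ v := by ring
    have e2 : Mn ι W x * (My ι x δ v * evM (PX x) c) * Ev S cU gi =
      Mn ι W x * (My ι x δ v * Ev S cU gi * evM (PX x) c) := by ring
    rw [e1, e2] at h1
    linarith [ht.2]

end Pool.Agent.H36.IS2
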