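import Pool.Agent.H36.IS.SumI
import Pool.Agent.H36.IS.AlgC
import Pool.Agent.H36.IS2.TrcA
import Pool.Agent.H36.IS2.WtLU

/-!
# ISP SumNL: lower bound for the sums with two nonnegative arrays

As SumNU, with the two-dimensional lower sieve [rough_i][rough_j] ≥ L_i U_j + U_i L_j - U_i U_j (L ≤ [rough] ≤ U, U ≥ 0: for r = [rough] ∈ {0,1}:
r r' - (L U' + U L' - U U') = (U - L)(U' - L') + (r r' - L L') ... check: U U' - L U' - U L' = (U - L)(U' - L') - L L', so the claim is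
r r' + (U-L)(U'-L') ≥ L L': if r = r' = 1 then (with L ≤ 1 ≤ U) 1 + (U-L)(U'-L') - L L' = 1 + U U' - L U' - U L' = ... ≥ 0: write U = 1 + u, L = 1 - l
 (u, l ≥ 0): 1 + (u+l)(u'+l') - (1-l)(1-l') = l + l' + (u+l)(u'+l') - l l' ≥ 0.  If r = 0: L ≤ 0 ≤ U: need (U-L)(U'-L') ≥ L L': (U-L) ≥ -L = |L| ≥ 0
 and U' - L' ≥ |L'|, if L' ≤ 0 fine, if L' > 0 then L L' ≤ 0.)
Multiply by Ly(v)² E E' ≥ 0; main term My(v) · (l_i u_j + u_i l_j - u_i u_j) · evM c · evM c' with l = Ev cL gi, u = Ev cU gi, (f-ε)V1 ≤ l ≤ V1 ≤ u ≤ (F+ε)V1: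
 l_i u_j + u_i l_j - u_i u_j = l_i l_j - (u_i - l_i)(u_j - l_j) ≥ ((f-ε)² - (F - f + 2ε)²) V1².  (f - ε ≥ 0 may be assumed small: hfe.)
-/

set_option autoImplicit false

namespace Pool.Agent.H36.IS2

open Finset Filter Pool.Agent.H36.IS

open Pool.Agent.H91.PK (L1 U1)

private lemma SumNL_Si_sub (x : ℕ) {ι : Type} [Fintype ι] [DecidableEq ι] (δ : ℝ) (i : ι) : Si x δ i ⊆ EZ ι x δ := by
  unfold Si EZ
  intro e he
  rw [Finset.mem_product] at he ⊢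
  exact ⟨Finset.mem_univ _, he.2⟩

private lemma SumNL_EZ_sub (x : ℕ) {ι : Type} [Fintype ι] [DecidableEq ι] (δ : ℝ) : EZ ι x δ ⊆ EX ι x := by
  unfold EZ EX
  intro e he
  rw [Finset.mem_product] at he ⊢
  refine ⟨Finset.mem_univ _, ?_⟩
  unfold PZ at he
  exact (Finset.mem_filter.1 he.2).1

private lemma SumNL_yy01 {ι : Type} [Fintype ι] [DecidableEq ι] (h : ι → ℕ) (n : ℕ) (e : ι × ℕ) :
    yy h n e = 0 ∨ yy h n e = 1 := by
  unfold yy
  split_ifs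
  · exact Or.inr rfl
  · exact Or.inl rfl

private lemma SumNL_My_nonneg {ι : Type} [Fintype ι] [DecidableEq ι] (x : ℕ) (δ : ℝ) (v : Finset (ι × ℕ) → ℝ) :
    0 ≤ My ι x δ v := by
  unfold My MM
  apply Finset.sum_nonneg
  intro R hR
  apply mul_nonneg (sq_nonneg _)
  apply Finset.prod_nonneg
  intro e he
  have h1 := fo_gi (SumNL_EZ_sub x δ (Finset.mem_powerset.1 hR he))
  unfold fo
  exact div_nonneg h1.2.1.le (by linarith [h1.2.2])

private lemma SumNL_V1_nonneg (x : ℕ) (δ : ℝ) : 0 ≤ V1 x δ := by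
  unfold V1
  apply Finset.prod_nonneg
  intro p hp
  have hp' : p.Prime := by
    unfold PZ PX at hp
    exact (Finset.mem_filter.1 (Finset.mem_filter.1 hp).1).2.1
  have h1 : (1 : ℝ) < (p : ℝ) := by exact_mod_cast hp'.one_lt
  have : 1 / (p : ℝ) ≤ 1 := by
    rw [div_le_one (by linarith)]
    exact h1.le
  linarith

/-- support of the Selberg coefficients of a projected function -/
private lemma SumNL_lam_sup {ι : Type} [Fintype ι] [DecidableEq ι] {P S : Finset (ι × ℕ)} {y : Finset (ι × ℕ) → ℝ}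
    (Q : Finset (ι × ℕ)) (h : lam P gi (pr S (fo gi) y) Q ≠ 0) : Q ⊆ P \ S := by
  obtain ⟨R, hQR, hRP, hR⟩ := lam_sup h
  have h1 := (pr_disj hR).1
  intro e he
  rw [Finset.mem_sdiff]
  exact ⟨hRP (hQR he), fun h2 => (Finset.disjoint_left.1 h1) (hQR he) h2⟩

/-- the two-dimensional lower sieve, pointwise -/
private lemma SumNL_pt {L U L' U' : ℝ} {p p' : Prop} [Decidable p] [Decidable p']
    (h1 : L ≤ if p then 1 else 0) (h2 : (if p then 1 else 0) ≤ U)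
    (h3 : L' ≤ if p' then 1 else 0) (h4 : (if p' then 1 else 0) ≤ U') :
    (p ∧ p' → L * U' + U * L' - U * U' ≤ 1) ∧ (¬ (p ∧ p') → L * U' + U * L' - U * U' ≤ 0) := by
  constructor
  · rintro ⟨hp, hp'⟩
    rw [if_pos hp] at h1 h2
    rw [if_pos hp'] at h3 h4
    have g1 := mul_nonneg (sub_nonneg.2 h1) (sub_nonneg.2 h4)
    have g2 := mul_nonneg (sub_nonneg.2 h2) (sub_nonneg.2 h3)
    have g3 := mul_nonneg (sub_nonneg.2 h2) (sub_nonneg.2 h4)
    nlinarith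
  · intro hn
    have hU0 : 0 ≤ U := by
      refine le_trans ?_ h2
      split_ifs <;> norm_num
    have hU0' : 0 ≤ U' := by
      refine le_trans ?_ h4
      split_ifs <;> norm_num
    have hLU : L ≤ U := h1.trans h2
    have hLU' : L' ≤ U' := h3.trans h4
    by_cases hp : p
    · have hp' : ¬ p' := fun h => hn ⟨hp, h⟩
      rw [if_neg hp'] at h3 h4
      have g1 := mul_nonneg hU0 (neg_nonneg.2 h3)
      have g2 := mul_nonneg hU0' (sub_nonneg.2 hLU)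
      nlinarith
    · rw [if_neg hp] at h1 h2
      have g1 := mul_nonneg hU0' (neg_nonneg.2 h1)
      have g2 := mul_nonneg hU0 (sub_nonneg.2 hLU')
      nlinarith

/-- the main term -/
private lemma SumNL_num {li ui lj uj V f F ε : ℝ} (h1 : (f - ε) * V ≤ li) (h2 : li ≤ V) (h3 : V ≤ ui) (h4 : ui ≤ (F + ε) * V)
    (h1' : (f - ε) * V ≤ lj) (h2' : lj ≤ V) (h3' : V ≤ uj) (h4' : uj ≤ (F + ε) * V) (hV : 0 ≤ V) (hf : ε ≤ f) :
    ((f - ε) ^ 2 - (F - f + 2 * ε) ^ 2) * V ^ 2 ≤ li * uj + ui * lj - ui * uj := by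
  have e1 : li * uj + ui * lj - ui * uj = li * lj - (ui - li) * (uj - lj) := by ring
  rw [e1]
  have h0 : 0 ≤ (f - ε) * V := mul_nonneg (by linarith) hV
  have g1 : (f - ε) * V * ((f - ε) * V) ≤ li * lj := mul_le_mul h1 h1' h0 (h0.trans h1)
  have g2 : ui - li ≤ (F - f + 2 * ε) * V := by nlinarith
  have g3 : uj - lj ≤ (F - f + 2 * ε) * V := by nlinarith
  have g4 : (ui - li) * (uj - lj) ≤ (F - f + 2 * ε) * V * ((F - f + 2 * ε) * V) :=
    mul_le_mul g2 g3 (by linarith) (by linarith)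
  nlinarith

open Classical in
theorem sumNL (ι : Type) [Fintype ι] [DecidableEq ι] (h : ι → ℕ) (W b : ℕ) (hG : Good h W b) (B1 : ℕ)
    (δ θ a s f F ε : ℝ) (hδ : 0 < δ) (hδ1 : δ ≤ 1) (hθ : 0 ≤ θ) (ha : 0 ≤ a) (hs : 0 ≤ s) (hf : 0 ≤ f) (hF : 0 ≤ F)
    (hL : L1 s f) (hU : U1 s F) (hε : 0 < ε) (hfe : ε ≤ f) (hlev : 2 * θ + 2 * (δ * s) + 2 * a < 1) (A : ℕ) :
    ∀ᶠ x : ℕ in atTop, ∀ y : Finset (ι × ℕ) → ℝ, Yok x δ θ (Real.log x ^ B1) y →
      ∀ c c' : Finset ℕ → ℝ, ArrN x δ ((x : ℝ) ^ a) c → ArrN x δ ((x : ℝ) ^ a) c' → ∀ i j, i ≠ j →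
      Mn ι W x * (((f - ε) ^ 2 - (F - f + 2 * ε) ^ 2) * V1 x δ ^ 2 * (evM (PX x) c * evM (PX x) c')) *
          My ι x δ (pr (Si x δ i ∪ Si x δ j) (fo gi) y) - x / Real.log x ^ A ≤
        ∑ n ∈ AA h W b x, Ly h x δ y n ^ 2 *
          ((if ∀ p ∈ PZ x δ, ¬ p ∣ n + h i then evD (PX x) c (n + h i) else 0) *
            (if ∀ p ∈ PZ x δ, ¬ p ∣ n + h j then evD (PX x) c' (n + h j) else 0)) := by
  obtain ⟨η1, hη1, hη2⟩ : ∃ η1 : ℝ, 0 < η1 ∧ 2 * θ + 2 * (δ * s) + 2 * a ≤ 1 - η1 :=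
    ⟨1 - (2 * θ + 2 * (δ * s) + 2 * a), by linarith, by linarith⟩
  obtain ⟨B2, hB2⟩ := yok_pr ι B1
  obtain ⟨Bv, hBv⟩ := cls_lam ι B2
  obtain ⟨B3, hB3⟩ := Mn_low ι h W b hG
  have hw := Filter.eventually_all.2 (fun i : ι => wtLU ι h i δ s f F ε hδ hδ1 hs hf hF hL hU hε)
  have hlog : ∀ᶠ x : ℕ in atTop, (3 : ℝ) ≤ Real.log x :=
    (Real.tendsto_log_atTop.comp (tendsto_natCast_atTop_atTop (R := ℝ))).eventually (eventually_ge_atTop 3)
  filter_upwards [hB2, hBv, hB3, hw, hlog, eventually_ge_atTop 3,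
    trI ι h W b hG (Bv + Bv + 2) 143 η1 (by norm_num) hη1 (A + 1)]
    with x hyokpr hclslam hMn hwx hlogx hx3 htr
  intro y hy c c' hc hc' i j hij
  have hx0 : (0 : ℝ) < (x : ℝ) := by
    have : (3 : ℝ) ≤ (x : ℝ) := by exact_mod_cast hx3
    linarith
  have hx1 : (1 : ℝ) ≤ (x : ℝ) := by
    have : (3 : ℝ) ≤ (x : ℝ) := by exact_mod_cast hx3
    linarith
  have hlog1 : (1 : ℝ) ≤ Real.log x := by linarith
  obtain ⟨cL, cU, hLc, hUc, hLs, hUs, hLp, hUp, hLv1, hLv2, hUv1, hUv2⟩ := hwx i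
  obtain ⟨dL, dU, hLc', hUc', hLs', hUs', hLp', hUp', hLv1', hLv2', hUv1', hUv2'⟩ := hwx j
  set E := EX ι x with hE
  set P := EZ ι x δ with hP
  set S := Si x δ i ∪ Si x δ j with hS
  have hiP : Si x δ i ⊆ P := SumNL_Si_sub x δ i
  have hjP : Si x δ j ⊆ P := SumNL_Si_sub x δ j
  have hSP : S ⊆ P := Finset.union_subset hiP hjP
  have hPE : P ⊆ E := SumNL_EZ_sub x δ
  set v := pr S (fo gi) y with hv
  have hyv : Yok x δ θ (Real.log x ^ B2) v := hyokpr δ θ y S hSP hy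
  have hlv : Cls x Bv 2 ((x : ℝ) ^ θ) (lam P gi v) := hclslam δ θ v hyv
  set lv := lam P gi v with hlvdef
  have hlvs : ∀ Q, lv Q ≠ 0 → Q ⊆ P \ S := fun Q hQ => SumNL_lam_sup Q hQ
  have hlvsP : ∀ Q, lv Q ≠ 0 → Q ⊆ P := fun Q hQ => (hlvs Q hQ).trans Finset.sdiff_subset
  set q := uc E lv lv with hq
  have hxθ : (0 : ℝ) ≤ (x : ℝ) ^ θ := Real.rpow_nonneg hx0.le _
  have hqc : Cls x (Bv + Bv) (2 + 2 + 2 * 2) ((x : ℝ) ^ θ * (x : ℝ) ^ θ) q :=
    cls_uc hlog1 (by norm_num) (by norm_num) hxθ hxθ hlv hlv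
  have hqs : ∀ Q, q Q ≠ 0 → Q ⊆ P \ S := by
    intro Q hQ
    have := (uc_sup hlvs hlvs Q hQ).1
    rwa [Finset.union_self] at this
  have hqE : q = uc P lv lv := uc_ground hPE hlvsP hlvsP
  -- the arrays on the large primes
  set PB : Finset ℕ := (PX x).filter (fun p => (x : ℝ) ^ δ < (p : ℝ)) with hPB
  have hPBX : PB ⊆ PX x := Finset.filter_subset _ _
  have hcB : ∀ T, c T ≠ 0 → T ⊆ PB := by
    intro T hT p hp
    have h1 := (hc.1 T).2 hT
    exact Finset.mem_filter.2 ⟨h1.1 hp, h1.2.1 p hp⟩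
  have hcB' : ∀ T, c' T ≠ 0 → T ⊆ PB := by
    intro T hT p hp
    have h1 := (hc'.1 T).2 hT
    exact Finset.mem_filter.2 ⟨h1.1 hp, h1.2.1 p hp⟩
  have hcX : ∀ T, c T ≠ 0 → T ⊆ PX x := fun T hT => (hcB T hT).trans hPBX
  have hcX' : ∀ T, c' T ≠ 0 → T ⊆ PX x := fun T hT => (hcB' T hT).trans hPBX
  set T := trc i c with hT
  set T' := trc j c' with hT'
  have hTs : ∀ Q, T Q ≠ 0 → Q ⊆ ({i} : Finset ι) ×ˢ PB := fun Q hQ => (trc_sup i hcB Q hQ).1
  have hTs' : ∀ Q, T' Q ≠ 0 → Q ⊆ ({j} : Finset ι) ×ˢ PB := fun Q hQ => (trc_sup j hcB' Q hQ).1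
  have hTc : Cls x 1 1 ((x : ℝ) ^ a) T := trc_cls i hlogx hc
  have hTc' : Cls x 1 1 ((x : ℝ) ^ a) T' := trc_cls j hlogx hc'
  have hBE : ∀ k : ι, ({k} : Finset ι) ×ˢ PB ⊆ E := by
    intro k e he
    rw [Finset.mem_product] at he
    rw [hE]
    unfold EX
    rw [Finset.mem_product]
    exact ⟨Finset.mem_univ _, hPBX he.2⟩
  have hBP : ∀ k : ι, Disjoint P (({k} : Finset ι) ×ˢ PB) := by
    intro k
    rw [Finset.disjoint_left]
    intro e he he'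
    rw [hP] at he
    unfold EZ at he
    rw [Finset.mem_product] at he he'
    have h1 := he.2
    unfold PZ at h1
    have h2 := (Finset.mem_filter.1 h1).2
    have h3 := (Finset.mem_filter.1 he'.2).2
    linarith
  have hSij : Disjoint (Si x δ i) (Si x δ j) := by
    rw [Finset.disjoint_left]
    intro e he he'
    unfold Si at he he'
    rw [Finset.mem_product, Finset.mem_singleton] at he he'
    exact hij (he.1.symm.trans he'.1)
  have hBij : Disjoint (({i} : Finset ι) ×ˢ PB) (({j} : Finset ι) ×ˢ PB) := by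
    rw [Finset.disjoint_left]
    intro e he he'
    rw [Finset.mem_product, Finset.mem_singleton] at he he'
    exact hij (he.1.symm.trans he'.1)
  -- evaluation at the density
  have hgP : ∀ e ∈ P, 0 < gi e ∧ gi e < 1 := fun e he => (fo_gi (hPE he)).2
  have hqval : Ev (P \ S) q gi = My ι x δ v := by
    rw [← Ev_sup (Finset.sdiff_subset : P \ S ⊆ P) hqs, hqE, hlvdef, EE_lam hgP]
    unfold My MM
    apply Finset.sum_congr rfl
    intro R hR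
    rw [pow_two]
  have hTval : Ev (({i} : Finset ι) ×ˢ PB) T gi = evM (PX x) c := by
    rw [← Ev_sup (hBE i) hTs, hT, hE, trc_gi i x c hcX]
  have hTval' : Ev (({j} : Finset ι) ×ˢ PB) T' gi = evM (PX x) c' := by
    rw [← Ev_sup (hBE j) hTs', hT', hE, trc_gi j x c' hcX']
  have hDi : Disjoint (P \ S) (Si x δ i) := by
    rw [Finset.disjoint_left]
    intro e he he'
    exact (Finset.mem_sdiff.1 he).2 (by rw [hS]; exact Finset.mem_union_left _ he')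
  have hDj : Disjoint (P \ S) (Si x δ j) := by
    rw [Finset.disjoint_left]
    intro e he he'
    exact (Finset.mem_sdiff.1 he).2 (by rw [hS]; exact Finset.mem_union_right _ he')
  have hval : ∀ a1 b1 : Finset (ι × ℕ) → ℝ, (∀ Q, a1 Q ≠ 0 → Q ⊆ Si x δ i) → (∀ Q, b1 Q ≠ 0 → Q ⊆ Si x δ j) →
      Ev E (uc E (uc E (uc E (uc E q a1) b1) T) T') gi =
        My ι x δ v * Ev (Si x δ i) a1 gi * Ev (Si x δ j) b1 gi * evM (PX x) c * evM (PX x) c' := by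
    intro a1 b1 ha1 hb1
    have s1 : ∀ Q, uc E q a1 Q ≠ 0 → Q ⊆ (P \ S) ∪ Si x δ i := fun Q hQ => (uc_sup hqs ha1 Q hQ).1
    have s2 : ∀ Q, uc E (uc E q a1) b1 Q ≠ 0 → Q ⊆ ((P \ S) ∪ Si x δ i) ∪ Si x δ j :=
      fun Q hQ => (uc_sup s1 hb1 Q hQ).1
    have s3 : ∀ Q, uc E (uc E (uc E q a1) b1) T Q ≠ 0 → Q ⊆ (((P \ S) ∪ Si x δ i) ∪ Si x δ j) ∪ ({i} : Finset ι) ×ˢ PB :=
      fun Q hQ => (uc_sup s2 hTs Q hQ).1
    have g1P : (P \ S) ∪ Si x δ i ⊆ P := Finset.union_subset Finset.sdiff_subset hiP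
    have g2P : ((P \ S) ∪ Si x δ i) ∪ Si x δ j ⊆ P := Finset.union_subset g1P hjP
    have g3E : (((P \ S) ∪ Si x δ i) ∪ Si x δ j) ∪ ({i} : Finset ι) ×ˢ PB ⊆ E := Finset.union_subset (g2P.trans hPE) (hBE i)
    have d1 : Disjoint ((P \ S) ∪ Si x δ i) (Si x δ j) := Finset.disjoint_union_left.2 ⟨hDj, hSij⟩
    have d2 : Disjoint (((P \ S) ∪ Si x δ i) ∪ Si x δ j) (({i} : Finset ι) ×ˢ PB) :=
      Finset.disjoint_of_subset_left g2P (hBP i)
    have d3 : Disjoint ((((P \ S) ∪ Si x δ i) ∪ Si x δ j) ∪ ({i} : Finset ι) ×ˢ PB) (({j} : Finset ι) ×ˢ PB) :=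
      Finset.disjoint_union_left.2 ⟨Finset.disjoint_of_subset_left g2P (hBP j), hBij⟩
    rw [Ev_uc_disj g3E (hBE j) d3 s3 hTs', hTval', ← Ev_sup g3E s3,
      Ev_uc_disj (g2P.trans hPE) (hBE i) d2 s2 hTs, hTval, ← Ev_sup (g2P.trans hPE) s2,
      Ev_uc_disj (g1P.trans hPE) (hjP.trans hPE) d1 s1 hb1, ← Ev_sup (g1P.trans hPE) s1,
      Ev_uc_disj (Finset.sdiff_subset.trans hPE) (hiP.trans hPE) hDi hqs ha1, hqval]
  -- the classes
  have hxx : (0 : ℝ) ≤ (x : ℝ) ^ θ * (x : ℝ) ^ θ := mul_nonneg hxθ hxθ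
  have hxs : (0 : ℝ) ≤ (x : ℝ) ^ (δ * s) := Real.rpow_nonneg hx0.le _
  have hxa : (0 : ℝ) ≤ (x : ℝ) ^ a := Real.rpow_nonneg hx0.le _
  have hcls : ∀ a1 b1 : Finset (ι × ℕ) → ℝ, Cls x 0 1 ((x : ℝ) ^ (δ * s)) a1 → Cls x 0 1 ((x : ℝ) ^ (δ * s)) b1 →
      Cls x (Bv + Bv + 2) 143 ((x : ℝ) ^ (1 - η1)) (uc E (uc E (uc E (uc E q a1) b1) T) T') := by
    intro a1 b1 ha1 hb1
    have h1 := cls_uc hlog1 (by norm_num) (by norm_num) hxx hxs hqc ha1
    have h2 := cls_uc hlog1 (by norm_num) (by norm_num) (mul_nonneg hxx hxs) hxs h1 hb1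
    have h3 := cls_uc hlog1 (by norm_num) (by norm_num) (mul_nonneg (mul_nonneg hxx hxs) hxs) hxa h2 hTc
    have h4 := cls_uc hlog1 (by norm_num) (by norm_num) (mul_nonneg (mul_nonneg (mul_nonneg hxx hxs) hxs) hxa) hxa h3 hTc'
    refine Cls.mono h4 hlog1 (by omega) (by norm_num) (by norm_num) ?_
    rw [← Real.rpow_add hx0, ← Real.rpow_add hx0, ← Real.rpow_add hx0, ← Real.rpow_add hx0, ← Real.rpow_add hx0]
    apply Real.rpow_le_rpow_of_exponent_le hx1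
    linarith
  -- pointwise values
  have hLyv : ∀ n, Ev E lv (yy h n) = Ly h x δ v n := by
    intro n
    rw [Ev_sup hPE hlvsP]
    rfl
  have hpt : ∀ (a1 b1 : Finset (ι × ℕ) → ℝ) (n : ℕ), Ev E (uc E (uc E (uc E (uc E q a1) b1) T) T') (yy h n) =
      Ly h x δ v n ^ 2 * Ev E a1 (yy h n) * Ev E b1 (yy h n) * evD (PX x) c (n + h i) * evD (PX x) c' (n + h j) := by
    intro a1 b1 n
    rw [Ev_uc _ _ (fun e _ => SumNL_yy01 h n e), Ev_uc _ _ (fun e _ => SumNL_yy01 h n e),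
      Ev_uc _ _ (fun e _ => SumNL_yy01 h n e), Ev_uc _ _ (fun e _ => SumNL_yy01 h n e), hq,
      Ev_uc _ _ (fun e _ => SumNL_yy01 h n e), hLyv, hT, hT', hE, trc_yy h i x c hcX n, trc_yy h j x c' hcX' n]
    ring
  have hrough : ∀ n, (∀ p ∈ PZ x δ, ¬ p ∣ n + h i) → (∀ p ∈ PZ x δ, ¬ p ∣ n + h j) → Ly h x δ v n = Ly h x δ y n := by
    intro n hn hn'
    have := Ev_lam_pr hSP hgP y (v := yy h n) (by
      intro e he
      rw [hS, Finset.mem_union] at he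
      unfold Si at he
      rw [Finset.mem_product, Finset.mem_singleton, Finset.mem_product, Finset.mem_singleton] at he
      unfold yy
      rw [if_neg]
      rcases he with he | he
      · rw [he.1]
        exact hn e.2 he.2
      · rw [he.1]
        exact hn' e.2 he.2)
    exact this
  have key : ∀ n ∈ AA h W b x, Ev E (uc E (uc E (uc E (uc E q cL) dU) T) T') (yy h n) +
      Ev E (uc E (uc E (uc E (uc E q cU) dL) T) T') (yy h n) - Ev E (uc E (uc E (uc E (uc E q cU) dU) T) T') (yy h n) ≤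
      Ly h x δ y n ^ 2 * ((if ∀ p ∈ PZ x δ, ¬ p ∣ n + h i then evD (PX x) c (n + h i) else 0) *
            (if ∀ p ∈ PZ x δ, ¬ p ∣ n + h j then evD (PX x) c' (n + h j) else 0)) := by
    intro n _
    rw [hpt, hpt, hpt]
    have hEc : 0 ≤ evD (PX x) c (n + h i) := hc.2.1 _
    have hEc' : 0 ≤ evD (PX x) c' (n + h j) := hc'.2.1 _
    have hsq : 0 ≤ Ly h x δ v n ^ 2 * evD (PX x) c (n + h i) * evD (PX x) c' (n + h j) :=
      mul_nonneg (mul_nonneg (sq_nonneg _) hEc) hEc'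
    have hpt2 := SumNL_pt (hLp n) (hUp n) (hLp' n) (hUp' n)
    have e1 : Ly h x δ v n ^ 2 * Ev E cL (yy h n) * Ev E dU (yy h n) * evD (PX x) c (n + h i) * evD (PX x) c' (n + h j) +
        Ly h x δ v n ^ 2 * Ev E cU (yy h n) * Ev E dL (yy h n) * evD (PX x) c (n + h i) * evD (PX x) c' (n + h j) -
        Ly h x δ v n ^ 2 * Ev E cU (yy h n) * Ev E dU (yy h n) * evD (PX x) c (n + h i) * evD (PX x) c' (n + h j) =
        (Ly h x δ v n ^ 2 * evD (PX x) c (n + h i) * evD (PX x) c' (n + h j)) *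
          (Ev E cL (yy h n) * Ev E dU (yy h n) + Ev E cU (yy h n) * Ev E dL (yy h n) -
            Ev E cU (yy h n) * Ev E dU (yy h n)) := by ring
    rw [e1]
    by_cases hr : (∀ p ∈ PZ x δ, ¬ p ∣ n + h i) ∧ (∀ p ∈ PZ x δ, ¬ p ∣ n + h j)
    · have g1 := mul_le_mul_of_nonneg_left (hpt2.1 hr) hsq
      refine g1.trans (le_of_eq ?_)
      rw [if_pos hr.1, if_pos hr.2, hrough n hr.1 hr.2]
      ring
    · have g1 := mul_nonpos_of_nonneg_of_nonpos hsq (hpt2.2 hr)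
      refine g1.trans (le_of_eq ?_)
      by_cases hr1 : ∀ p ∈ PZ x δ, ¬ p ∣ n + h i
      · have hr2 : ¬ ∀ p ∈ PZ x δ, ¬ p ∣ n + h j := fun h2 => hr ⟨hr1, h2⟩
        rw [if_neg hr2]
        ring
      · rw [if_neg hr1]
        ring
  have hsum := Finset.sum_le_sum key
  rw [Finset.sum_sub_distrib, Finset.sum_add_distrib] at hsum
  have t1 := (abs_le.1 (htr _ (hcls cL dU hLc hUc'))).1
  have t2 := (abs_le.1 (htr _ (hcls cU dL hUc hLc'))).1
  have t3 := (abs_le.1 (htr _ (hcls cU dU hUc hUc'))).2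
  rw [hval cL dU hLs hUs'] at t1
  rw [hval cU dL hUs hLs'] at t2
  rw [hval cU dU hUs hUs'] at t3
  have hMn0 : 0 ≤ Mn ι W x := by
    refine le_trans ?_ hMn
    exact div_nonneg hx0.le (pow_nonneg (by linarith) _)
  have hMy0 : 0 ≤ My ι x δ v := SumNL_My_nonneg x δ v
  have hnum := SumNL_num hLv1 hLv2 hUv1 hUv2 hLv1' hLv2' hUv1' hUv2' (SumNL_V1_nonneg x δ) hfe
  have hfac : 0 ≤ Mn ι W x * My ι x δ v * (evM (PX x) c * evM (PX x) c') :=
    mul_nonneg (mul_nonneg hMn0 hMy0) (mul_nonneg hc.2.2 hc'.2.2)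
  have hmain := mul_le_mul_of_nonneg_left hnum hfac
  have herr : 3 * ((x : ℝ) / Real.log x ^ (A + 1)) ≤ (x : ℝ) / Real.log x ^ A := by
    have hLpos : 0 < Real.log x := by linarith
    have hLA : 0 < Real.log x ^ A := pow_pos hLpos A
    rw [pow_succ, ← div_div, ← mul_div_assoc, div_le_iff₀ hLpos]
    have : 0 ≤ (x : ℝ) / Real.log x ^ A := div_nonneg hx0.le hLA.le
    nlinarith
  have e2 : Mn ι W x * (((f - ε) ^ 2 - (F - f + 2 * ε) ^ 2) * V1 x δ ^ 2 * (evM (PX x) c * evM (PX x) c')) * My ι x δ v =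
      Mn ι W x * My ι x δ v * (evM (PX x) c * evM (PX x) c') * (((f - ε) ^ 2 - (F - f + 2 * ε) ^ 2) * V1 x δ ^ 2) := by ring
  rw [e2]
  have e3 : Mn ι W x * My ι x δ v * (evM (PX x) c * evM (PX x) c') *
      (Ev (Si x δ i) cL gi * Ev (Si x δ j) dU gi + Ev (Si x δ i) cU gi * Ev (Si x δ j) dL gi -
        Ev (Si x δ i) cU gi * Ev (Si x δ j) dU gi) =
      Mn ι W x * (My ι x δ v * Ev (Si x δ i) cL gi * Ev (Si x δ j) dU gi * evM (PX x) c * evM (PX x) c') +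
      Mn ι W x * (My ι x δ v * Ev (Si x δ i) cU gi * Ev (Si x δ j) dL gi * evM (PX x) c * evM (PX x) c') -
      Mn ι W x * (My ι x δ v * Ev (Si x δ i) cU gi * Ev (Si x δ j) dU gi * evM (PX x) c * evM (PX x) c') := by ring
  rw [e3] at hmain
  refine le_trans ?_ hsum
  linarith

end Pool.Agent.H36.IS2
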