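import Pool.Agent.H36.IS.SumI
import Pool.Agent.H36.IS.AlgC
import Pool.Agent.H36.IS2.TrcA
import Pool.Agent.H36.IS2.WtLU

/-!
# ISP SumNU: upper bound for the sums with two nonnegative arrays

S = Si i ∪ Si j, v = pr S (fo gi) y, Ly(y) = Ly(v) on the n which are rough in both components (`Ev_lam_pr`).  [rough_i][rough_j] ≤ Ev cU_i · Ev cU_j
(`wtLU` for i and j), E = trc i c ≥ 0, E' = trc j c' ≥ 0 pointwise:
 sum ≤ ∑_{AA} Ly(v)² Ev cU_i Ev cU_j E E' = (trI, level 2θ + 2 δ s + 2 a < 1) Mn · My(v) · Ev cU_i gi · Ev cU_j gi · evM c · evM c' + x/L^A.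
Factorisation by `Ev_uc_disj` (four disjoint ground sets: EZ \ S, Si i, Si j, {i} × big, {j} × big), `EE_lam`.
-/

set_option autoImplicit false

namespace Pool.Agent.H36.IS2

open Finset Filter Pool.Agent.H36.IS

open Pool.Agent.H91.PK (L1 U1)

private theorem SumNU_EZ_sub (ι : Type) [Fintype ι] [DecidableEq ι] (x : ℕ) (δ : ℝ) : EZ ι x δ ⊆ EX ι x := by
  intro e he
  unfold EZ at he
  unfold EX
  rw [mem_product] at he ⊢
  exact ⟨he.1, filter_subset _ _ he.2⟩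

private theorem SumNU_Si_sub {ι : Type} [Fintype ι] [DecidableEq ι] (x : ℕ) (δ : ℝ) (i : ι) : Si x δ i ⊆ EZ ι x δ := by
  unfold Si EZ
  intro e he
  rw [Finset.mem_product] at he ⊢
  exact ⟨Finset.mem_univ _, he.2⟩

private theorem SumNU_yy01 {ι : Type} [Fintype ι] [DecidableEq ι] (h : ι → ℕ) (n : ℕ) (e : ι × ℕ) :
    yy h n e = 0 ∨ yy h n e = 1 := by
  unfold yy
  split_ifs
  · exact Or.inr rfl
  · exact Or.inl rfl

private theorem SumNU_disj {α : Type} [DecidableEq α] {P P1 P2 : Finset α} (h1 : P1 ⊆ P) (h2 : P2 ⊆ P)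
    (h12 : Disjoint P1 P2) {c d : Finset α → ℝ} (hc : ∀ Q, c Q ≠ 0 → Q ⊆ P1) (hd : ∀ Q, d Q ≠ 0 → Q ⊆ P2)
    (g : α → ℝ) : Ev P (uc P c d) g = Ev P c g * Ev P d g := by
  rw [Ev_uc_disj h1 h2 h12 hc hd, Ev_sup h1 hc, Ev_sup h2 hd]

private theorem SumNU_Mn (ι : Type) [Fintype ι] [DecidableEq ι] {h : ι → ℕ} {W b : ℕ} (hG : Good h W b) (x : ℕ) :
    0 ≤ Mn ι W x := by
  unfold Mn
  refine mul_nonneg (div_nonneg (Nat.cast_nonneg _) (Nat.cast_nonneg _)) (prod_nonneg fun p hp => ?_)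
  unfold PS PA at hp
  rw [mem_filter, mem_filter] at hp
  have h1 := (hG.2.2 p hp.1.2.1 hp.2).1
  have h2 : (Fintype.card ι : ℝ) < p := by exact_mod_cast h1
  have h3 : (0 : ℝ) < p := lt_of_le_of_lt (Nat.cast_nonneg _) h2
  rw [sub_nonneg, div_le_one h3]
  exact h2.le

private theorem SumNU_V1 (x : ℕ) (δ : ℝ) : 0 ≤ V1 x δ := by
  unfold V1
  refine prod_nonneg fun p hp => ?_
  unfold PZ PX at hp
  rw [mem_filter, mem_filter] at hp
  have h1 : (1 : ℝ) ≤ p := by exact_mod_cast hp.1.2.1.one_lt.le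
  rw [sub_nonneg, div_le_one (by linarith)]
  exact h1

open Classical in
theorem sumNU (ι : Type) [Fintype ι] [DecidableEq ι] (h : ι → ℕ) (W b : ℕ) (hG : Good h W b) (B1 : ℕ)
    (δ θ a s f F ε : ℝ) (hδ : 0 < δ) (hδ1 : δ ≤ 1) (hθ : 0 ≤ θ) (ha : 0 ≤ a) (hs : 0 ≤ s) (hf : 0 ≤ f) (hF : 0 ≤ F)
    (hL : L1 s f) (hU : U1 s F) (hε : 0 < ε) (hlev : 2 * θ + 2 * (δ * s) + 2 * a < 1) (A : ℕ) :
    ∀ᶠ x : ℕ in atTop, ∀ y : Finset (ι × ℕ) → ℝ, Yok x δ θ (Real.log x ^ B1) y →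
      ∀ c c' : Finset ℕ → ℝ, ArrN x δ ((x : ℝ) ^ a) c → ArrN x δ ((x : ℝ) ^ a) c' → ∀ i j, i ≠ j →
      ∑ n ∈ AA h W b x, Ly h x δ y n ^ 2 *
          ((if ∀ p ∈ PZ x δ, ¬ p ∣ n + h i then evD (PX x) c (n + h i) else 0) *
            (if ∀ p ∈ PZ x δ, ¬ p ∣ n + h j then evD (PX x) c' (n + h j) else 0)) ≤
        Mn ι W x * (((F + ε) * V1 x δ) ^ 2 * (evM (PX x) c * evM (PX x) c')) *
          My ι x δ (pr (Si x δ i ∪ Si x δ j) (fo gi) y) + x / Real.log x ^ A := by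
  obtain ⟨B2, hB2⟩ := yok_pr ι B1
  obtain ⟨Bw, hBw⟩ := cls_lam ι B2
  have hlog : ∀ᶠ x : ℕ in atTop, (3 : ℝ) ≤ Real.log x :=
    (Real.tendsto_log_atTop.comp (tendsto_natCast_atTop_atTop (R := ℝ))).eventually (eventually_ge_atTop 3)
  have hwt := Filter.eventually_all.mpr fun i : ι => wtLU ι h i δ s f F ε hδ hδ1 hs hf hF hL hU hε
  filter_upwards [hB2, hBw, trI ι h W b hG (Bw + Bw + (0 + 0) + (1 + 1)) 143
    (1 - (2 * θ + 2 * (δ * s) + 2 * a)) (by norm_num) (by linarith) A,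
    hlog, eventually_ge_atTop 2, hwt] with x hx hw htr hlog3 hx2 hwtx
  intro y hy c c' hc hc' i j hij
  have hlogx : (1 : ℝ) ≤ Real.log x := by linarith
  have hx0 : (0 : ℝ) < (x : ℝ) := by exact_mod_cast (by omega : 0 < x)
  obtain ⟨_, ci, _, hci, _, hcis, _, hcige, _, _, hciV, hciF⟩ := hwtx i
  obtain ⟨_, cj, _, hcj, _, hcjs, _, hcjge, _, _, hcjV, hcjF⟩ := hwtx j
  have hcP : ∀ T, c T ≠ 0 → T ⊆ PX x := fun T hT => ((hc.1 T).2 hT).1
  have hcP' : ∀ T, c' T ≠ 0 → T ⊆ PX x := fun T hT => ((hc'.1 T).2 hT).1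
  set S := Si x δ i ∪ Si x δ j with hS
  set P := EZ ι x δ with hP
  set X := EX ι x with hX
  have hSiP : Si x δ i ⊆ P := SumNU_Si_sub x δ i
  have hSjP : Si x δ j ⊆ P := SumNU_Si_sub x δ j
  have hSP : S ⊆ P := union_subset hSiP hSjP
  have hPX : P ⊆ X := SumNU_EZ_sub ι x δ
  have hgP : ∀ e ∈ P, 0 < gi e ∧ gi e < 1 := fun e he => (fo_gi (hPX he)).2
  have hv := hx δ θ y S hSP hy
  set v := pr S (fo gi) y with hvdef
  have hlw : Cls x Bw 2 ((x : ℝ) ^ θ) (lam P gi v) := hw δ θ v hv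
  set lw := lam P gi v with hlwdef
  have hlws : ∀ Q, lw Q ≠ 0 → Q ⊆ P \ S := by
    intro Q hQ e he
    obtain ⟨R, hR1, hR2, hR3⟩ := lam_sup hQ
    rw [Finset.mem_sdiff]
    exact ⟨hR2 (hR1 he), fun heS => Finset.disjoint_left.1 (pr_disj hR3).1 (hR1 he) heS⟩
  have hlws' : ∀ Q, lw Q ≠ 0 → Q ⊆ P := fun Q hQ => (hlws Q hQ).trans Finset.sdiff_subset
  set q := uc X lw lw with hq
  have hxt : (0 : ℝ) ≤ (x : ℝ) ^ θ := Real.rpow_nonneg hx0.le _
  have hxs : (0 : ℝ) ≤ (x : ℝ) ^ (δ * s) := Real.rpow_nonneg hx0.le _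
  have hxa : (0 : ℝ) ≤ (x : ℝ) ^ a := Real.rpow_nonneg hx0.le _
  have hqs : ∀ Q, q Q ≠ 0 → Q ⊆ P \ S := by
    intro Q hQ
    have := (uc_sup hlws hlws Q hQ).1
    rwa [Finset.union_self] at this
  have hqP : q = uc P lw lw := uc_ground hPX hlws' hlws'
  -- the arrays of the large primes
  set E := trc i c with hE
  set E' := trc j c' with hE'
  have hEs : ∀ Q, E Q ≠ 0 → Q ⊆ ({i} : Finset ι) ×ˢ (PX x \ PZ x δ) := by
    intro Q hQ e he
    obtain ⟨h1, h2⟩ := trc_sup i hcP Q hQ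
    have h3 := h1 he
    rw [mem_product] at h3 ⊢
    refine ⟨h3.1, ?_⟩
    rw [Finset.mem_sdiff]
    refine ⟨h3.2, fun h4 => ?_⟩
    have h5 := ((hc.1 _).2 h2).2.1 e.2 (mem_image_of_mem _ he)
    unfold PZ at h4
    rw [mem_filter] at h4
    linarith [h4.2]
  have hEs' : ∀ Q, E' Q ≠ 0 → Q ⊆ ({j} : Finset ι) ×ˢ (PX x \ PZ x δ) := by
    intro Q hQ e he
    obtain ⟨h1, h2⟩ := trc_sup j hcP' Q hQ
    have h3 := h1 he
    rw [mem_product] at h3 ⊢
    refine ⟨h3.1, ?_⟩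
    rw [Finset.mem_sdiff]
    refine ⟨h3.2, fun h4 => ?_⟩
    have h5 := ((hc'.1 _).2 h2).2.1 e.2 (mem_image_of_mem _ he)
    unfold PZ at h4
    rw [mem_filter] at h4
    linarith [h4.2]
  have hBi : ∀ t : ι, ({t} : Finset ι) ×ˢ (PX x \ PZ x δ) ⊆ X \ P := by
    intro t e he
    rw [mem_product, Finset.mem_sdiff] at he
    rw [Finset.mem_sdiff, hX, hP]
    unfold EX EZ
    rw [mem_product, mem_product]
    exact ⟨⟨mem_univ _, he.2.1⟩, fun h1 => he.2.2 h1.2⟩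
  have hdBB : Disjoint (({i} : Finset ι) ×ˢ (PX x \ PZ x δ)) (({j} : Finset ι) ×ˢ (PX x \ PZ x δ)) := by
    rw [Finset.disjoint_left]
    intro e he he'
    rw [mem_product, mem_singleton] at he he'
    exact hij (he.1.symm.trans he'.1)
  have hdSS : Disjoint (Si x δ i) (Si x δ j) := by
    rw [Finset.disjoint_left]
    intro e he he'
    unfold Si at he he'
    rw [mem_product, mem_singleton] at he he'
    exact hij (he.1.symm.trans he'.1)
  set cc := uc X ci cj with hcc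
  have hccs : ∀ Q, cc Q ≠ 0 → Q ⊆ S := fun Q hQ => (uc_sup hcis hcjs Q hQ).1
  set EE := uc X E E' with hEE
  have hEEs : ∀ Q, EE Q ≠ 0 → Q ⊆ X \ P := fun Q hQ =>
    (uc_sup hEs hEs' Q hQ).1.trans (union_subset (hBi i) (hBi j))
  set qc := uc X q cc with hqc
  have hqcs : ∀ Q, qc Q ≠ 0 → Q ⊆ P := fun Q hQ =>
    (uc_sup hqs hccs Q hQ).1.trans (union_subset Finset.sdiff_subset hSP)
  have hXX : X \ P ⊆ X := Finset.sdiff_subset
  -- the class
  have harr : Cls x (Bw + Bw + (0 + 0) + (1 + 1)) 143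
      ((x : ℝ) ^ (1 - (1 - (2 * θ + 2 * (δ * s) + 2 * a)))) (uc X qc EE) := by
    have k1 := cls_uc hlogx (by norm_num) (by norm_num) hxt hxt hlw hlw
    have k2 := cls_uc hlogx (by norm_num) (by norm_num) hxs hxs hci hcj
    have k3 := cls_uc hlogx (by norm_num) (by norm_num) (mul_nonneg hxt hxt) (mul_nonneg hxs hxs) k1 k2
    have k4 := cls_uc hlogx (by norm_num) (by norm_num) hxa hxa (trc_cls i hlog3 hc) (trc_cls j hlog3 hc')
    have k5 := cls_uc hlogx (by norm_num) (by norm_num)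
      (mul_nonneg (mul_nonneg hxt hxt) (mul_nonneg hxs hxs)) (mul_nonneg hxa hxa) k3 k4
    rw [← Real.rpow_add hx0, ← Real.rpow_add hx0, ← Real.rpow_add hx0, ← Real.rpow_add hx0,
      ← Real.rpow_add hx0] at k5
    have e1 : (1 : ℝ) - (1 - (2 * θ + 2 * (δ * s) + 2 * a)) = θ + θ + (δ * s + δ * s) + (a + a) := by ring
    have e2 : (143 : ℝ) = 2 + 2 + 2 * 2 + (1 + 1 + 1 * 1) + (2 + 2 + 2 * 2) * (1 + 1 + 1 * 1) +
        (1 + 1 + 1 * 1) + (2 + 2 + 2 * 2 + (1 + 1 + 1 * 1) + (2 + 2 + 2 * 2) * (1 + 1 + 1 * 1)) *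
          (1 + 1 + 1 * 1) := by norm_num
    rw [e1, e2]
    exact k5
  have ht := (abs_le.1 (htr _ harr)).2
  -- the value at the density
  have hqval : Ev X q gi = My ι x δ v := by
    rw [Ev_sup hPX (fun Q hQ => (hqs Q hQ).trans Finset.sdiff_subset), hqP, hlwdef, EE_lam hgP]
    unfold My MM
    apply Finset.sum_congr rfl
    intro R _
    rw [pow_two]
  have hval : Ev X (uc X qc EE) gi = My ι x δ v * (Ev (Si x δ i) ci gi * Ev (Si x δ j) cj gi) *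
      (evM (PX x) c * evM (PX x) c') := by
    rw [SumNU_disj hPX hXX Finset.disjoint_sdiff hqcs hEEs, hqc,
      SumNU_disj (Finset.sdiff_subset.trans hPX) (hSP.trans hPX) Finset.sdiff_disjoint hqs hccs, hqval, hcc,
      Ev_uc_disj (hSiP.trans hPX) (hSjP.trans hPX) hdSS hcis hcjs, hEE,
      SumNU_disj ((hBi i).trans hXX) ((hBi j).trans hXX) hdBB hEs hEs', hE, hE', trc_gi i x c hcP,
      trc_gi j x c' hcP']
  -- pointwise
  have hyn : ∀ n, ∀ e ∈ X, yy h n e = 0 ∨ yy h n e = 1 := fun n e _ => SumNU_yy01 h n e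
  have hpt : ∀ n, Ev X (uc X qc EE) (yy h n) =
      Ly h x δ v n ^ 2 * (Ev X ci (yy h n) * Ev X cj (yy h n)) *
        (evD (PX x) c (n + h i) * evD (PX x) c' (n + h j)) := by
    intro n
    rw [Ev_uc _ _ (hyn n), hqc, Ev_uc _ _ (hyn n), hq, Ev_uc _ _ (hyn n), hcc, Ev_uc _ _ (hyn n), hEE,
      Ev_uc _ _ (hyn n), Ev_sup hPX hlws', hE, hE', trc_yy h i x c hcP n, trc_yy h j x c' hcP' n]
    unfold Ly
    ring
  have hLy : ∀ n, (∀ p ∈ PZ x δ, ¬ p ∣ n + h i) → (∀ p ∈ PZ x δ, ¬ p ∣ n + h j) →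
      Ly h x δ y n = Ly h x δ v n := by
    intro n hn1 hn2
    have hn' : ∀ e ∈ S, yy h n e = 0 := by
      intro e he
      rw [hS, mem_union] at he
      unfold yy
      rcases he with he | he
      · unfold Si at he
        rw [Finset.mem_product, Finset.mem_singleton] at he
        rw [if_neg]
        rw [he.1]
        exact hn1 e.2 he.2
      · unfold Si at he
        rw [Finset.mem_product, Finset.mem_singleton] at he
        rw [if_neg]
        rw [he.1]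
        exact hn2 e.2 he.2
    unfold Ly
    rw [hvdef, ← Ev_lam_pr hSP hgP y hn']
  have hsum : ∑ n ∈ AA h W b x, Ly h x δ y n ^ 2 *
          ((if ∀ p ∈ PZ x δ, ¬ p ∣ n + h i then evD (PX x) c (n + h i) else 0) *
            (if ∀ p ∈ PZ x δ, ¬ p ∣ n + h j then evD (PX x) c' (n + h j) else 0)) ≤
      ∑ n ∈ AA h W b x, Ev X (uc X qc EE) (yy h n) := by
    refine sum_le_sum fun n _ => ?_
    rw [hpt n]
    have u1 := hcige n
    have u2 := hcjge n
    have w1 := hc.2.1 (n + h i)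
    have w2 := hc'.2.1 (n + h j)
    have z1 : 0 ≤ Ev X ci (yy h n) := le_trans (by split_ifs <;> norm_num) u1
    have z2 : 0 ≤ Ev X cj (yy h n) := le_trans (by split_ifs <;> norm_num) u2
    by_cases r1 : ∀ p ∈ PZ x δ, ¬ p ∣ n + h i
    · by_cases r2 : ∀ p ∈ PZ x δ, ¬ p ∣ n + h j
      · rw [if_pos r1, if_pos r2, hLy n r1 r2]
        rw [if_pos r1] at u1
        rw [if_pos r2] at u2
        have z3 : 1 ≤ Ev X ci (yy h n) * Ev X cj (yy h n) := one_le_mul_of_one_le_of_one_le u1 u2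
        have z4 : 0 ≤ Ly h x δ v n ^ 2 * (evD (PX x) c (n + h i) * evD (PX x) c' (n + h j)) :=
          mul_nonneg (sq_nonneg _) (mul_nonneg w1 w2)
        nlinarith
      · rw [if_neg r2, mul_zero, mul_zero]
        exact mul_nonneg (mul_nonneg (sq_nonneg _) (mul_nonneg z1 z2)) (mul_nonneg w1 w2)
    · rw [if_neg r1, zero_mul, mul_zero]
      exact mul_nonneg (mul_nonneg (sq_nonneg _) (mul_nonneg z1 z2)) (mul_nonneg w1 w2)
  -- the main term
  have hM0 := SumNU_Mn ι hG x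
  have hV0 := SumNU_V1 x δ
  have hMy : 0 ≤ My ι x δ v := by
    unfold My MM
    refine sum_nonneg fun R hR => mul_nonneg (sq_nonneg _) (prod_nonneg fun e he => ?_)
    have h1 := hgP e (mem_powerset.1 hR he)
    unfold fo
    exact div_nonneg h1.1.le (by linarith [h1.2])
  have hmain : Mn ι W x * Ev X (uc X qc EE) gi ≤
      Mn ι W x * (((F + ε) * V1 x δ) ^ 2 * (evM (PX x) c * evM (PX x) c')) * My ι x δ v := by
    rw [hval]
    have k1 : Ev (Si x δ i) ci gi * Ev (Si x δ j) cj gi ≤ ((F + ε) * V1 x δ) ^ 2 := by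
      rw [pow_two]
      exact mul_le_mul hciF hcjF (hV0.trans hcjV) (hV0.trans (hciV.trans hciF))
    have k2 : 0 ≤ evM (PX x) c * evM (PX x) c' := mul_nonneg hc.2.2 hc'.2.2
    have k3 : 0 ≤ Mn ι W x * (evM (PX x) c * evM (PX x) c') * My ι x δ v :=
      mul_nonneg (mul_nonneg hM0 k2) hMy
    have k4 := mul_le_mul_of_nonneg_left k1 k3
    calc Mn ι W x * (My ι x δ v * (Ev (Si x δ i) ci gi * Ev (Si x δ j) cj gi) *
          (evM (PX x) c * evM (PX x) c'))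
        = Mn ι W x * (evM (PX x) c * evM (PX x) c') * My ι x δ v *
          (Ev (Si x δ i) ci gi * Ev (Si x δ j) cj gi) := by ring
      _ ≤ Mn ι W x * (evM (PX x) c * evM (PX x) c') * My ι x δ v * ((F + ε) * V1 x δ) ^ 2 := k4
      _ = _ := by ring
  linarith

end Pool.Agent.H36.IS2
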