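import Pool.Agent.H36.IS.Fin
import Pool.Agent.H36.IS2.ChebV
import Pool.Agent.H36.IS2.MarkV

/-!
# ISP FinV: the main theorem
-/

set_option autoImplicit false

namespace Pool.Agent.H36.IS2

open Pool.Agent.H36.IS

theorem stepV : ∃ κ : ℕ → ℕ, Step R12 0.761 κ := by
  have h1 : Real.sqrt 0.00001 ≤ 0.0032 := by
    rw [Real.sqrt_le_left (by norm_num)]
    norm_num
  obtain ⟨κ, h⟩ := cheb_var R12 0.00001 0.00001 0.2355 0.00001 0.761 (by norm_num) (by norm_num) (by norm_num)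
    (by norm_num) (by norm_num) (by norm_num) (by norm_num) phi_two (by linarith)
  exact ⟨κ, toStep h⟩

theorem main_pp : ∃ b c : ℕ → ℕ, StrictMono b ∧ StrictMono c ∧
    (∀ i j, i ≤ j → (b i + c j).Prime) ∧ (∀ i j, j < i → R12 (b i + c j)) := by
  obtain ⟨κ1, h1⟩ := stepP
  obtain ⟨κ2, h2⟩ := stepV
  exact two_parity Nat.Prime R12 _ _ κ1 κ2 h1 h2 (by norm_num)

end Pool.Agent.H36.IS2
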