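import Pool.Agent.H36.IS2.VR2
import Pool.Agent.H91.PK.SvT

/-!
# ISP StU2: the Buchstab step for the upper function (primes > e^2400)

Copy of `U1_step` (and the private lemmas) of Pool/Agent/H91/PK/SvT.lean with BigP, U1, L1, V_ratio, 1.01 replaced by BigP2, U2, L2,
V_ratio2, 1.0001.  Also the trivial extension (copy of `U1_ext`), monotonicity, and `U1 s F → U2 s F`.
-/

set_option autoImplicit false

namespace Pool.Agent.H36.IS2

open Finset Filter Pool.Agent.H36.IS

open Pool.Agent.H91.PK (ev Vg ZO Wt Up Lo g1 BigP U1 L1)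

open Pool.Agent.H91.PK (V_pos Lo_zero Up_buchstab sum_g_V)

theorem U2.mono {s s' F F' : ℝ} (h : U2 s F) (hs : s ≤ s') (hF : F ≤ F') : U2 s' F' := by
  intro z hz P hP
  exact (h z hz P hP).mono (Real.rpow_le_rpow_of_exponent_le hz hs)
    (mul_le_mul_of_nonneg_right hF (V_pos hP.big).le)

theorem U2_of_U1 {s F : ℝ} (h : U1 s F) : U2 s F := by
  intro z hz P hP
  exact h z hz P hP.big

private theorem StU2_g1_nonneg {z : ℝ} {P : Finset ℕ} (hP : BigP2 z P) : ∀ p ∈ P, 0 ≤ g1 p := by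
  intro p hp
  have h1 : (1 : ℝ) ≤ p := by exact_mod_cast (hP p hp).1.one_le
  unfold g1
  apply div_nonneg zero_le_one
  linarith

private theorem StU2_one {z : ℝ} {P : Finset ℕ} (hP : BigP2 z P) : ∀ p ∈ P, 1 ≤ p :=
  fun p hp => (hP p hp).1.one_le

private theorem StU2_empty {P : Finset ℕ} (hP : BigP2 1 P) : P = ∅ := by
  rw [Finset.eq_empty_iff_forall_notMem]
  intro p hp
  obtain ⟨h1, h2, h3⟩ := hP p hp
  have h4 : (2 : ℝ) ≤ p := by exact_mod_cast h1.two_le
  linarith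

private theorem StU2_filter_le {z a : ℝ} {P : Finset ℕ} (hP : BigP2 z P) :
    BigP2 a (P.filter (fun p : ℕ => (p : ℝ) ≤ a)) := by
  intro p hp
  rw [Finset.mem_filter] at hp
  exact ⟨(hP p hp.1).1, (hP p hp.1).2.1, hp.2⟩

private theorem StU2_filter_lt {z : ℝ} {P : Finset ℕ} (hP : BigP2 z P) (q : ℕ) :
    BigP2 q (P.filter (fun p => p < q)) := by
  intro p hp
  rw [Finset.mem_filter] at hp
  exact ⟨(hP p hp.1).1, (hP p hp.1).2.1, by exact_mod_cast hp.2.le⟩

/-- the index of the interval containing `q` -/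
private noncomputable def StU2_idx (n : ℕ) (a : ℕ → ℝ) (q : ℕ) : ℕ :=
  open Classical in ((range n).filter (fun j => a (j + 1) < (q : ℝ))).card

private theorem StU2_mono {n : ℕ} {a : ℕ → ℝ} (ha : ∀ i < n, a i ≤ a (i + 1)) :
    ∀ i j, i ≤ j → j ≤ n → a i ≤ a j := by
  intro i j hij
  induction j, hij using Nat.le_induction with
  | base => intro _; exact le_rfl
  | succ j hj ih => intro h; exact (ih (by omega)).trans (ha j (by omega))

private theorem StU2_idx_eq {n : ℕ} {a : ℕ → ℝ} (ha : ∀ i < n, a i ≤ a (i + 1)) {q k : ℕ} (hk : k < n)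
    (h1 : a k < (q : ℝ)) (h2 : (q : ℝ) ≤ a (k + 1)) : StU2_idx n a q = k := by
  classical
  unfold StU2_idx
  have : ((range n).filter (fun j => a (j + 1) < (q : ℝ))) = range k := by
    ext j
    simp only [Finset.mem_filter, Finset.mem_range]
    constructor
    · rintro ⟨hj, hj2⟩
      by_contra hcon
      have := StU2_mono ha (k + 1) (j + 1) (by omega) (by omega)
      linarith
    · intro hj
      refine ⟨by omega, ?_⟩
      have := StU2_mono ha (j + 1) k (by omega) (by omega)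
      linarith
  rw [this, Finset.card_range]

private theorem StU2_exists {n : ℕ} {a : ℕ → ℝ} {q : ℝ} (h1 : a 0 < q) (h2 : q ≤ a n) :
    ∃ k < n, a k < q ∧ q ≤ a (k + 1) := by
  induction n with
  | zero => linarith
  | succ n ih =>
    rcases le_or_gt q (a n) with h | h
    · obtain ⟨k, hk, hk1, hk2⟩ := ih h
      exact ⟨k, by omega, hk1, hk2⟩
    · exact ⟨n, by omega, h, h2⟩

private theorem StU2_sum {n : ℕ} {a : ℕ → ℝ} (ha : ∀ i < n, a i ≤ a (i + 1)) (g : ℕ → ℝ) (P : Finset ℕ)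
    (f : ℕ → ℝ) : ∀ k ≤ n,
    ∑ q ∈ P.filter (fun q : ℕ => a 0 < (q : ℝ) ∧ (q : ℝ) ≤ a k),
      g q * (f (StU2_idx n a q) * Vg g (P.filter (fun p => p < q))) =
    ∑ i ∈ range k, f i * (Vg g (P.filter (fun p : ℕ => (p : ℝ) ≤ a i)) -
      Vg g (P.filter (fun p : ℕ => (p : ℝ) ≤ a (i + 1)))) := by
  intro k
  induction k with
  | zero =>
    intro _
    rw [Finset.range_zero, Finset.sum_empty]
    apply Finset.sum_eq_zero
    intro q hq
    rw [Finset.mem_filter] at hq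
    linarith [hq.2.1, hq.2.2]
  | succ k ih =>
    intro hk
    rw [Finset.sum_range_succ, ← ih (by omega), ← sum_g_V P (ha k (by omega)), Finset.mul_sum]
    have hsplit : P.filter (fun q : ℕ => a 0 < (q : ℝ) ∧ (q : ℝ) ≤ a (k + 1)) =
        P.filter (fun q : ℕ => a 0 < (q : ℝ) ∧ (q : ℝ) ≤ a k) ∪
        P.filter (fun q : ℕ => a k < (q : ℝ) ∧ (q : ℝ) ≤ a (k + 1)) := by
      ext q
      simp only [Finset.mem_filter, Finset.mem_union]
      have h0k := StU2_mono ha 0 k (by omega) (by omega)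
      have hk1 := ha k (by omega)
      constructor
      · rintro ⟨h1, h2, h3⟩
        rcases le_or_gt (q : ℝ) (a k) with h | h
        · exact Or.inl ⟨h1, h2, h⟩
        · exact Or.inr ⟨h1, h, h3⟩
      · rintro (⟨h1, h2, h3⟩ | ⟨h1, h2, h3⟩)
        · exact ⟨h1, h2, h3.trans hk1⟩
        · exact ⟨h1, lt_of_le_of_lt h0k h2, h3⟩
    have hdisj : Disjoint (P.filter (fun q : ℕ => a 0 < (q : ℝ) ∧ (q : ℝ) ≤ a k))
        (P.filter (fun q : ℕ => a k < (q : ℝ) ∧ (q : ℝ) ≤ a (k + 1))) := by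
      rw [Finset.disjoint_left]
      intro q h1 h2
      rw [Finset.mem_filter] at h1 h2
      linarith [h1.2.2, h2.2.1]
    rw [hsplit, Finset.sum_union hdisj]
    congr 1
    apply Finset.sum_congr rfl
    intro q hq
    rw [Finset.mem_filter] at hq
    rw [StU2_idx_eq ha (by omega : k < n) hq.2.1 hq.2.2]
    ring

private theorem StU2_abel (F₀ : ℝ) (f V : ℕ → ℝ) (k : ℕ) :
    F₀ * V 0 - ∑ i ∈ range (k + 1), f i * (V i - V (i + 1)) =
      (F₀ - f 0) * V 0 + ∑ i ∈ range k, (f i - f (i + 1)) * V (i + 1) + f k * V (k + 1) := by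
  induction k with
  | zero => simp; ring
  | succ k ih =>
    rw [Finset.sum_range_succ, Finset.sum_range_succ (fun i => (f i - f (i + 1)) * V (i + 1))]
    have : F₀ * V 0 - (∑ i ∈ range (k + 1), f i * (V i - V (i + 1)) +
        f (k + 1) * (V (k + 1) - V (k + 1 + 1))) =
        (F₀ * V 0 - ∑ i ∈ range (k + 1), f i * (V i - V (i + 1))) -
        f (k + 1) * (V (k + 1) - V (k + 1 + 1)) := by ring
    rw [this, ih]
    ring

private theorem StU2_anti {n : ℕ} {t : ℕ → ℝ} (ht : ∀ i < n, t (i + 1) < t i) :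
    ∀ i ≤ n, t n ≤ t i := by
  intro i hi
  induction n, hi using Nat.le_induction with
  | base => exact le_rfl
  | succ n hn ih =>
    exact (ht n (by omega)).le.trans (ih (fun j hj => ht j (by omega)))

/-- the nodes -/
private theorem StU2_nodes {n : ℕ} {t : ℕ → ℝ} (ht : ∀ i < n, t (i + 1) < t i) (ht0 : 0 < t n)
    {z : ℝ} (hz : 1 < z) :
    (∀ i ≤ n, 0 < t i) ∧ (∀ i ≤ n, 1 < z ^ (t n / t i) ∧ z ^ (t n / t i) ≤ z) ∧
    (∀ i < n, z ^ (t n / t i) ≤ z ^ (t n / t (i + 1))) ∧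
    (∀ i ≤ n, (z ^ (t n / t i)) ^ (t i) = z ^ (t n)) ∧ z ^ (t n / t n) = z ∧
    (∀ i ≤ n, Real.log z / Real.log (z ^ (t n / t i)) = t i / t n) := by
  have hpos : ∀ i ≤ n, 0 < t i := fun i hi => lt_of_lt_of_le ht0 (StU2_anti ht i hi)
  have hz0 : (0 : ℝ) < z := by linarith
  refine ⟨hpos, ?_, ?_, ?_, ?_, ?_⟩
  · intro i hi
    refine ⟨Real.one_lt_rpow hz (div_pos ht0 (hpos i hi)), ?_⟩
    have h1 : t n / t i ≤ 1 := (div_le_one (hpos i hi)).2 (StU2_anti ht i hi)
    calc z ^ (t n / t i) ≤ z ^ (1 : ℝ) := Real.rpow_le_rpow_of_exponent_le hz.le h1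
      _ = z := Real.rpow_one z
  · intro i hi
    apply Real.rpow_le_rpow_of_exponent_le hz.le
    exact div_le_div_of_nonneg_left ht0.le (hpos (i + 1) (by omega)) (ht i hi).le
  · intro i hi
    rw [← Real.rpow_mul hz0.le, div_mul_cancel₀ _ (hpos i hi).ne']
  · rw [div_self ht0.ne', Real.rpow_one]
  · intro i hi
    rw [Real.log_rpow hz0]
    have h1 : Real.log z ≠ 0 := (Real.log_pos hz).ne'
    have h2 := (hpos i hi).ne'
    have h3 := ht0.ne'
    field_simp

private theorem StU2_levels {n : ℕ} {t : ℕ → ℝ} (ht : ∀ i < n, t (i + 1) < t i) (ht0 : 0 < t n)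
    {z : ℝ} (hz : 1 < z) {q k : ℕ} (hk : k < n) (hq : 1 ≤ q)
    (h2 : (q : ℝ) ≤ z ^ (t n / t (k + 1))) : (q : ℝ) ^ (t (k + 1) - 1) ≤ z ^ (t n) / q := by
  obtain ⟨hpos, _, _, hD, _, _⟩ := StU2_nodes ht ht0 hz
  have hq0 : (0 : ℝ) < q := by exact_mod_cast hq
  rw [Real.rpow_sub hq0, Real.rpow_one]
  apply div_le_div_of_nonneg_right _ hq0.le
  rw [← hD (k + 1) (by omega)]
  exact Real.rpow_le_rpow hq0.le h2 (hpos (k + 1) (by omega)).le

theorem U2_ext {t₀ s F₀ : ℝ} (hs : 0 < s) (hst : s ≤ t₀) (h0 : 0 ≤ F₀) (h : U2 t₀ F₀) :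
    U2 s (1.0001 * F₀ * t₀ / s) := by
  intro z hz P hP
  have ht0 : 0 < t₀ := lt_of_lt_of_le hs hst
  rcases eq_or_lt_of_le hz with hz1 | hz1
  · subst hz1
    have hP0 := StU2_empty hP
    subst hP0
    have h1 := h 1 le_rfl ∅ hP
    rw [Real.one_rpow] at h1 ⊢
    refine h1.mono le_rfl (mul_le_mul_of_nonneg_right ?_ (V_pos hP.big).le)
    rw [le_div_iff₀ hs]
    nlinarith [mul_le_mul_of_nonneg_left hst h0, mul_nonneg h0 ht0.le]
  · have hz0 : (0 : ℝ) < z := by linarith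
    set a : ℝ := z ^ (s / t₀) with ha
    have ha1 : 1 < a := Real.one_lt_rpow hz1 (div_pos hs ht0)
    have haz : a ≤ z := by
      calc z ^ (s / t₀) ≤ z ^ (1 : ℝ) :=
            Real.rpow_le_rpow_of_exponent_le hz1.le ((div_le_one ht0).2 hst)
        _ = z := Real.rpow_one z
    have haD : a ^ t₀ = z ^ s := by
      rw [ha, ← Real.rpow_mul hz0.le, div_mul_cancel₀ _ ht0.ne']
    have hP0 : Up g1 (P.filter (fun p : ℕ => (p : ℝ) ≤ a)) (z ^ s)
        (F₀ * Vg g1 (P.filter (fun p : ℕ => (p : ℝ) ≤ a))) := by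
      have := h a ha1.le _ (StU2_filter_le hP)
      rwa [haD] at this
    have hB := Up_buchstab (g := g1) (P := P) (D := z ^ s)
      (M := F₀ * Vg g1 (P.filter (fun p : ℕ => (p : ℝ) ≤ a))) (w := a) (m := fun _ => 0)
      (StU2_g1_nonneg hP) (StU2_one hP) hP0 (fun q _ _ => Lo_zero _ _ _)
    refine hB.mono le_rfl ?_
    have hr := V_ratio2 ha1 haz P hP
    have hlog : Real.log z / Real.log a = t₀ / s := by
      rw [ha, Real.log_rpow hz0]
      have h1 : Real.log z ≠ 0 := (Real.log_pos hz1).ne'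
      have h2 := hs.ne'
      have h3 := ht0.ne'
      field_simp
    rw [hlog] at hr
    have hr2 := mul_le_mul_of_nonneg_left hr h0
    simp only [mul_zero, Finset.sum_const_zero, sub_zero]
    refine hr2.trans (le_of_eq ?_)
    ring

theorem U2_step {n : ℕ} {t : ℕ → ℝ} {F₀ : ℝ} {f : ℕ → ℝ} (hn : 1 ≤ n) (ht : ∀ i < n, t (i + 1) < t i)
    (ht0 : 0 < t n) (hU : U2 (t 0) F₀) (hL : ∀ i < n, L2 (t (i + 1) - 1) (f i))
    (hf0 : f 0 ≤ F₀) (hf : ∀ i, i + 1 < n → f (i + 1) ≤ f i) :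
    U2 (t n) (1.0001 / t n * ((F₀ - f 0) * t 0 + ∑ i ∈ range (n - 1), (f i - f (i + 1)) * t (i + 1))
      + f (n - 1)) := by
  intro z hz P hP
  obtain ⟨n, rfl⟩ : ∃ m, n = m + 1 := ⟨n - 1, by omega⟩
  simp only [Nat.add_sub_cancel]
  rcases eq_or_lt_of_le hz with hz1 | hz1
  · subst hz1
    have hP0 := StU2_empty hP
    subst hP0
    have h1 := hU 1 le_rfl ∅ hP
    rw [Real.one_rpow] at h1 ⊢
    refine h1.mono le_rfl (mul_le_mul_of_nonneg_right ?_ (V_pos hP.big).le)
    have hanti := StU2_anti ht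
    have e1 : (F₀ - f 0) * t (n + 1) ≤ (F₀ - f 0) * t 0 :=
      mul_le_mul_of_nonneg_left (hanti 0 (by omega)) (by linarith)
    have e2 : ∑ i ∈ range n, (f i - f (i + 1)) * t (n + 1) ≤
        ∑ i ∈ range n, (f i - f (i + 1)) * t (i + 1) := by
      apply Finset.sum_le_sum
      intro i hi
      rw [Finset.mem_range] at hi
      exact mul_le_mul_of_nonneg_left (hanti (i + 1) (by omega)) (by linarith [hf i (by omega)])
    rw [← Finset.sum_mul, Finset.sum_range_sub'] at e2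
    have e3 : (F₀ - f n) * t (n + 1) ≤ (F₀ - f 0) * t 0 +
        ∑ i ∈ range n, (f i - f (i + 1)) * t (i + 1) := by nlinarith
    have hfn : f n ≤ f 0 := by
      have : ∀ k ≤ n, f k ≤ f 0 := by
        intro k
        induction k with
        | zero => intro _; exact le_rfl
        | succ k ih => intro hk; exact (hf k (by omega)).trans (ih (by omega))
      exact this n le_rfl
    have e4 : 0 ≤ (F₀ - f n) * t (n + 1) := mul_nonneg (by linarith) ht0.le
    have e5 : F₀ - f n ≤ 1.0001 / t (n + 1) * ((F₀ - f 0) * t 0 +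
        ∑ i ∈ range n, (f i - f (i + 1)) * t (i + 1)) := by
      rw [div_mul_eq_mul_div, le_div_iff₀ ht0]
      nlinarith
    linarith
  · obtain ⟨hpos, ha1, hamono, hD, han, hlog⟩ := StU2_nodes ht ht0 hz1
    set a : ℕ → ℝ := fun i => z ^ (t (n + 1) / t i) with ha
    have hamono' : ∀ i < n + 1, a i ≤ a (i + 1) := hamono
    set V : ℕ → ℝ := fun i => Vg g1 (P.filter (fun p : ℕ => (p : ℝ) ≤ a i)) with hV
    have hP0 : Up g1 (P.filter (fun p : ℕ => (p : ℝ) ≤ a 0)) (z ^ (t (n + 1))) (F₀ * V 0) := by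
      have := hU (a 0) (ha1 0 (by omega)).1.le _ (StU2_filter_le hP)
      rwa [hD 0 (by omega)] at this
    have hB := Up_buchstab (g := g1) (P := P) (D := z ^ (t (n + 1))) (M := F₀ * V 0) (w := a 0)
      (m := fun q => f (StU2_idx (n + 1) a q) * Vg g1 (P.filter (fun p => p < q)))
      (StU2_g1_nonneg hP) (StU2_one hP) hP0 (by
        intro q hq hq0
        have hqz : (q : ℝ) ≤ a (n + 1) := by
          show (q : ℝ) ≤ z ^ (t (n + 1) / t (n + 1))
          rw [han]; exact (hP q hq).2.2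
        obtain ⟨k, hk, hk1, hk2⟩ := StU2_exists hq0 hqz
        show Lo g1 _ _ (f (StU2_idx (n + 1) a q) * _)
        rw [StU2_idx_eq hamono' hk hk1 hk2]
        have hq1 := StU2_one hP q hq
        exact (hL k hk q (by exact_mod_cast hq1) _ (StU2_filter_lt hP q)).mono
          (StU2_levels ht ht0 hz1 hk hq1 hk2) le_rfl)
    have hsum := StU2_sum hamono' g1 P f (n + 1) le_rfl
    have hfe : P.filter (fun q : ℕ => a 0 < (q : ℝ) ∧ (q : ℝ) ≤ a (n + 1)) =
        P.filter (fun q : ℕ => a 0 < (q : ℝ)) := by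
      apply Finset.filter_congr
      intro q hq
      have hqz : (q : ℝ) ≤ a (n + 1) := by
        show (q : ℝ) ≤ z ^ (t (n + 1) / t (n + 1))
        rw [han]; exact (hP q hq).2.2
      exact ⟨fun h => h.1, fun h => ⟨h, hqz⟩⟩
    rw [hfe] at hsum
    refine hB.mono le_rfl ?_
    rw [hsum]
    have hab := StU2_abel F₀ f V n
    have hab' : F₀ * V 0 - ∑ i ∈ range (n + 1), f i *
        (Vg g1 (P.filter (fun p : ℕ => (p : ℝ) ≤ a i)) -
          Vg g1 (P.filter (fun p : ℕ => (p : ℝ) ≤ a (i + 1)))) =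
        (F₀ - f 0) * V 0 + ∑ i ∈ range n, (f i - f (i + 1)) * V (i + 1) + f n * V (n + 1) := hab
    rw [hab']
    have hVn : V (n + 1) = Vg g1 P := by
      show Vg g1 (P.filter (fun p : ℕ => (p : ℝ) ≤ a (n + 1))) = _
      congr 1
      apply Finset.filter_true_of_mem
      intro q hq
      show (q : ℝ) ≤ z ^ (t (n + 1) / t (n + 1))
      rw [han]; exact (hP q hq).2.2
    have hVr : ∀ i ≤ n + 1, V i ≤ 1.0001 / t (n + 1) * t i * Vg g1 P := by
      intro i hi
      have := V_ratio2 (ha1 i hi).1 (ha1 i hi).2 P hP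
      rw [hlog i hi] at this
      refine this.trans (le_of_eq ?_)
      ring
    have k0 : (F₀ - f 0) * V 0 ≤ (F₀ - f 0) * (1.0001 / t (n + 1) * t 0 * Vg g1 P) :=
      mul_le_mul_of_nonneg_left (hVr 0 (by omega)) (by linarith)
    have k1 : ∑ i ∈ range n, (f i - f (i + 1)) * V (i + 1) ≤
        ∑ i ∈ range n, (f i - f (i + 1)) * (1.0001 / t (n + 1) * t (i + 1) * Vg g1 P) := by
      apply Finset.sum_le_sum
      intro i hi
      rw [Finset.mem_range] at hi
      exact mul_le_mul_of_nonneg_left (hVr (i + 1) (by omega)) (by linarith [hf i (by omega)])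
    have k2 : ∑ i ∈ range n, (f i - f (i + 1)) * (1.0001 / t (n + 1) * t (i + 1) * Vg g1 P) =
        1.0001 / t (n + 1) * (∑ i ∈ range n, (f i - f (i + 1)) * t (i + 1)) * Vg g1 P := by
      rw [Finset.mul_sum, Finset.sum_mul]
      exact Finset.sum_congr rfl (fun i _ => by ring)
    rw [hVn]
    rw [k2] at k1
    nlinarith [k0, k1]

end Pool.Agent.H36.IS2
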