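import Pool.Agent.H36.IS2.StU2
import Pool.Agent.H36.IS2.StL2
import Pool.Agent.H91.PK.SvB

/-!
# ISP Tab2: numerical values of the one-dimensional sieve functions (kernel computation)

Copy of Pool/Agent/H91/PK/SvE.lean with the grid step 1/50 instead of 1/10 and the constant 1.0001 instead of 1.01:
grid s_i = (700 - i)/50, i = 0,...,650 (from 14 down to 1), a state is a pair of lists of 651 naturals (scale 10^8); T = 50 times the
node; `(10001 * A + 10000 * T - 1) / (10000 * T)`; drop 52 instead of 12, index 51 instead of 11, 700 instead of 140, 699 instead of 139;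
initial upper values from `U2_ext` (U1_base: 1.00015 at 14).
20 iterations, evaluated by the kernel (decide +kernel; if this is heavy, split it: give the state after every 5 iterations as an explicit
list, or state the lemma for the iterate of an explicit list).
Expected values after 20 iterations (floating point simulation): lower value at 5.52: 0.998039; upper value at 5.52: 1.001936; upper values at
4.36 - 0.16 k, k = 0..16: see `FT` below, which is the simulated value plus 0.002 (so 18 or 19 iterations may suffice).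
-/

set_option autoImplicit false

namespace Pool.Agent.H36.IS2

open Finset Filter Pool.Agent.H36.IS

open Pool.Agent.H91.PK (U1_base L1_base)

/-- upper bounds, scale 10^5, for the upper sieve function at 4.36 - 0.16 k -/
def FT (k : ℕ) : ℕ := [101578, 102112, 102852, 103873, 105276, 107201, 109843, 113482, 118525, 124991, 132225, 140349, 149540, 160019, 172081, 186112, 202638].getD k 0

/-- one pass for the upper function: `T` is ten times the node, `A` the running sum, `c` the last lower value -/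
private def Tab2_goU : ℕ → ℕ → ℕ → List ℕ → List ℕ → List ℕ
  | _, _, _, _, [] => []
  | T, A, c, fs, F :: Fs =>
      min F ((10001 * A + 10000 * T - 1) / (10000 * T) + c) ::
        Tab2_goU (T - 1) (A + (c - min c (fs.headD 0)) * T) (min c (fs.headD 0)) fs.tail Fs

/-- one pass for the lower function -/
private def Tab2_goL : ℕ → ℕ → ℕ → List ℕ → List ℕ → List ℕ
  | _, _, _, _, [] => []
  | T, A, c, [], f :: fs => max f (c - (10001 * A + 10000 * T - 1) / (10000 * T)) :: fs
  | T, A, c, F :: Fs, f :: fs =>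
      max f (c - (10001 * A + 10000 * T - 1) / (10000 * T)) ::
        Tab2_goL (T - 1) (A + (max c F - c) * T) (max c F) Fs fs

/-- one iteration -/
private def Tab2_it (x : List ℕ × List ℕ) : List ℕ × List ℕ :=
  (x.1.headD 0 :: Tab2_goU 699 ((x.1.headD 0 - min (x.2.getD 51 0) (x.1.headD 0)) * 700)
      (min (x.2.getD 51 0) (x.1.headD 0)) (x.2.drop 52) (x.1.drop 1),
   x.2.headD 0 :: Tab2_goL 699 ((max (x.1.getD 51 0) (x.2.headD 0) - x.2.headD 0) * 700)
      (max (x.1.getD 51 0) (x.2.headD 0)) (x.1.drop 52) (x.2.drop 1))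

private def Tab2_iter : ℕ → List ℕ × List ℕ → List ℕ × List ℕ
  | 0, x => x
  | n + 1, x => Tab2_iter n (Tab2_it x)

/-- valid upper values on the grid starting at `s` -/
private def Tab2_OkU : ℝ → List ℕ → Prop
  | _, [] => True
  | s, F :: Fs => U2 s ((F : ℝ) / 10 ^ 8) ∧ Tab2_OkU (s - 1 / 50) Fs

/-- valid lower values on the grid starting at `s` -/
private def Tab2_OkL : ℝ → List ℕ → Prop
  | _, [] => True
  | s, F :: Fs => L2 s ((F : ℝ) / 10 ^ 8) ∧ Tab2_OkL (s - 1 / 50) Fs

private theorem Tab2_OkL_get : ∀ (l : List ℕ) (s : ℝ) (_ : Tab2_OkL s l) (i : ℕ),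
    L2 (s - i / 50) ((l.getD i 0 : ℕ) / 10 ^ 8 : ℝ) := by
  intro l
  induction l with
  | nil =>
    intro s _ i
    simpa using L2_zero (s - i / 50)
  | cons F Fs ih =>
    intro s h i
    cases i with
    | zero => simpa using h.1
    | succ j =>
      have := ih (s - 1 / 50) h.2 j
      have e : s - 1 / 50 - (j : ℝ) / 50 = s - ((j + 1 : ℕ) : ℝ) / 50 := by push_cast; ring
      rw [e] at this
      simpa using this

private theorem Tab2_OkL_drop : ∀ (k : ℕ) (l : List ℕ) (s : ℝ) (_ : Tab2_OkL s l), Tab2_OkL (s - k / 50) (l.drop k) := by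
  intro k
  induction k with
  | zero => intro l s h; simpa using h
  | succ k ih =>
    intro l s h
    cases l with
    | nil => simp [Tab2_OkL]
    | cons F Fs =>
      have := ih Fs (s - 1 / 50) h.2
      have e : s - 1 / 50 - (k : ℝ) / 50 = s - ((k + 1 : ℕ) : ℝ) / 50 := by push_cast; ring
      rw [e] at this
      simpa using this

private theorem Tab2_OkU_drop : ∀ (k : ℕ) (l : List ℕ) (s : ℝ) (_ : Tab2_OkU s l), Tab2_OkU (s - k / 50) (l.drop k) := by
  intro k
  induction k with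
  | zero => intro l s h; simpa using h
  | succ k ih =>
    intro l s h
    cases l with
    | nil => simp [Tab2_OkU]
    | cons F Fs =>
      have := ih Fs (s - 1 / 50) h.2
      have e : s - 1 / 50 - (k : ℝ) / 50 = s - ((k + 1 : ℕ) : ℝ) / 50 := by push_cast; ring
      rw [e] at this
      simpa using this

private theorem Tab2_OkU_get : ∀ (l : List ℕ) (s : ℝ) (_ : Tab2_OkU s l) (i : ℕ) (_ : i < l.length),
    U2 (s - i / 50) ((l.getD i 0 : ℕ) / 10 ^ 8 : ℝ) := by
  intro l
  induction l with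
  | nil => intro s _ i hi; simp at hi
  | cons F Fs ih =>
    intro s h i hi
    cases i with
    | zero => simpa using h.1
    | succ j =>
      have := ih (s - 1 / 50) h.2 j (by simpa using hi)
      have e : s - 1 / 50 - (j : ℝ) / 50 = s - ((j + 1 : ℕ) : ℝ) / 50 := by push_cast; ring
      rw [e] at this
      simpa using this

/-- state of the upper pass -/
private def Tab2_StU (T A c : ℕ) : Prop :=
  ∃ (n : ℕ) (t : ℕ → ℝ) (f : ℕ → ℝ) (F₀ : ℝ), 1 ≤ n ∧ (∀ i < n, t (i + 1) < t i) ∧ t n = (T : ℝ) / 50 ∧ 0 < t n ∧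
    U2 (t 0) F₀ ∧ (∀ i < n, L2 (t (i + 1) - 1) (f i)) ∧ f 0 ≤ F₀ ∧ (∀ i, i + 1 < n → f (i + 1) ≤ f i) ∧
    f (n - 1) = (c : ℝ) / 10 ^ 8 ∧
    (F₀ - f 0) * t 0 + ∑ i ∈ range (n - 1), (f i - f (i + 1)) * t (i + 1) = (A : ℝ) / (5 * 10 ^ 9)

/-- state of the lower pass -/
private def Tab2_StL (T A c : ℕ) : Prop :=
  ∃ (n : ℕ) (t : ℕ → ℝ) (F : ℕ → ℝ) (f₀ : ℝ), 1 ≤ n ∧ (∀ i < n, t (i + 1) < t i) ∧ t n = (T : ℝ) / 50 ∧ 0 < t n ∧
    L2 (t 0) f₀ ∧ (∀ i < n, U2 (t (i + 1) - 1) (F i)) ∧ f₀ ≤ F 0 ∧ (∀ i, i + 1 < n → F i ≤ F (i + 1)) ∧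
    F (n - 1) = (c : ℝ) / 10 ^ 8 ∧
    (F 0 - f₀) * t 0 + ∑ i ∈ range (n - 1), (F (i + 1) - F i) * t (i + 1) = (A : ℝ) / (5 * 10 ^ 9)

private theorem Tab2_ceil (A T : ℕ) (hT : 0 < T) :
    1.0001 / ((T : ℝ) / 50) * ((A : ℝ) / (5 * 10 ^ 9)) ≤ (((10001 * A + 10000 * T - 1) / (10000 * T) : ℕ) : ℝ) / 10 ^ 8 := by
  have h1 : 10001 * A ≤ (10001 * A + 10000 * T - 1) / (10000 * T) * (10000 * T) := by
    have h := Nat.div_add_mod (10001 * A + 10000 * T - 1) (10000 * T)
    have h2 := Nat.mod_lt (10001 * A + 10000 * T - 1) (show 0 < 10000 * T by omega)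
    have h3 : 10000 * T * ((10001 * A + 10000 * T - 1) / (10000 * T)) = (10001 * A + 10000 * T - 1) / (10000 * T) * (10000 * T) :=
      mul_comm _ _
    omega
  have h2 : (10001 : ℝ) * A ≤ (((10001 * A + 10000 * T - 1) / (10000 * T) : ℕ) : ℝ) * (10000 * T) := by exact_mod_cast h1
  have hT' : (0 : ℝ) < T := by exact_mod_cast hT
  have e : 1.0001 / ((T : ℝ) / 50) * ((A : ℝ) / (5 * 10 ^ 9)) = (10001 * A) / (10000 * T) / 10 ^ 8 := by
    field_simp
    norm_num
    ring
  rw [e]
  apply div_le_div_of_nonneg_right _ (by norm_num)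
  rw [div_le_iff₀ (by positivity)]
  exact h2

private theorem Tab2_StU.out {T A c : ℕ} (h : Tab2_StU T A c) :
    U2 ((T : ℝ) / 50) ((((10001 * A + 10000 * T - 1) / (10000 * T) + c : ℕ) : ℝ) / 10 ^ 8) := by
  obtain ⟨n, t, f, F₀, hn, ht, htn, ht0, hU, hL, hf0, hf, hc, hA⟩ := h
  have hT : 0 < T := by
    rcases Nat.eq_zero_or_pos T with h0 | h0
    · rw [htn, h0] at ht0; simp at ht0
    · exact h0
  have h := U2_step hn ht ht0 hU hL hf0 hf
  rw [hA, hc, htn] at h
  refine h.mono le_rfl ?_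
  have := Tab2_ceil A T hT
  push_cast at this ⊢
  rw [add_div]
  linarith

private theorem Tab2_StL.out {T A c : ℕ} (h : Tab2_StL T A c) :
    L2 ((T : ℝ) / 50) (((c - (10001 * A + 10000 * T - 1) / (10000 * T) : ℕ) : ℝ) / 10 ^ 8) := by
  obtain ⟨n, t, F, f₀, hn, ht, htn, ht0, hL, hU, hf0, hF, hc, hA⟩ := h
  have hT : 0 < T := by
    rcases Nat.eq_zero_or_pos T with h0 | h0
    · rw [htn, h0] at ht0; simp at ht0
    · exact h0
  rcases le_total ((10001 * A + 10000 * T - 1) / (10000 * T)) c with hle | hle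
  · have h := L2_step hn ht ht0 hL hU hf0 hF
    rw [hA, hc, htn] at h
    refine h.mono le_rfl ?_
    have := Tab2_ceil A T hT
    rw [Nat.cast_sub hle, sub_div]
    linarith
  · rw [Nat.sub_eq_zero_of_le hle]
    simpa using L2_zero ((T : ℝ) / 50)

private theorem Tab2_StU.next {T A c c' : ℕ} (h : Tab2_StU T A c) (hT : 2 ≤ T) (hc' : c' ≤ c)
    (hL' : L2 ((T : ℝ) / 50 - 51 / 50) ((c' : ℝ) / 10 ^ 8)) : Tab2_StU (T - 1) (A + (c - c') * T) c' := by
  obtain ⟨n, t, f, F₀, hn, ht, htn, ht0, hU, hL, hf0, hf, hc, hA⟩ := h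
  have hT1 : ((T - 1 : ℕ) : ℝ) = (T : ℝ) - 1 := by
    rw [Nat.cast_sub (by omega)]; simp
  have hTr : (2 : ℝ) ≤ T := by exact_mod_cast hT
  refine ⟨n + 1, fun i => if i ≤ n then t i else ((T : ℝ) - 1) / 50, fun i => if i < n then f i else (c' : ℝ) / 10 ^ 8,
    F₀, by omega, ?_, ?_, ?_, ?_, ?_, ?_, ?_, ?_, ?_⟩
  · intro i hi
    rcases Nat.lt_or_ge i n with h | h
    · simp only [show i + 1 ≤ n by omega, show i ≤ n by omega, if_true]
      exact ht i h
    · have : i = n := by omega
      subst this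
      simp only [show ¬ (i + 1 ≤ i) by omega, le_refl, if_true, if_false]
      rw [htn]; linarith
  · simp only [show ¬ (n + 1 ≤ n) by omega, if_false, hT1]
  · simp only [show ¬ (n + 1 ≤ n) by omega, if_false]
    linarith
  · simpa using hU
  · intro i hi
    rcases Nat.lt_or_ge i n with h | h
    · simp only [show i + 1 ≤ n by omega, h, if_true]
      exact hL i h
    · have : i = n := by omega
      subst this
      simp only [show ¬ (i + 1 ≤ i) by omega, lt_irrefl, if_false]
      have e : ((T : ℝ) - 1) / 50 - 1 = (T : ℝ) / 50 - 51 / 50 := by ring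
      rw [e]; exact hL'
  · simp only [show 0 < n by omega, if_true]; exact hf0
  · intro i hi
    rcases Nat.lt_or_ge (i + 1) n with h | h
    · simp only [h, show i < n by omega, if_true]
      exact hf i h
    · have hin : n = i + 1 := by omega
      simp only [hin, lt_irrefl, show i < i + 1 by omega, if_true, if_false]
      have : f i = (c : ℝ) / 10 ^ 8 := by rw [← hc, hin]; simp
      rw [this]
      have : (c' : ℝ) ≤ c := by exact_mod_cast hc'
      exact div_le_div_of_nonneg_right this (by norm_num)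
  · simp
  · have hs : ∑ i ∈ range (n + 1 - 1), ((if i < n then f i else (c' : ℝ) / 10 ^ 8) -
        (if i + 1 < n then f (i + 1) else (c' : ℝ) / 10 ^ 8)) * (if i + 1 ≤ n then t (i + 1) else ((T : ℝ) - 1) / 50)
        = ∑ i ∈ range (n - 1), (f i - f (i + 1)) * t (i + 1) + (f (n - 1) - (c' : ℝ) / 10 ^ 8) * t n := by
      obtain ⟨m, rfl⟩ : ∃ m, n = m + 1 := ⟨n - 1, by omega⟩
      simp only [Nat.add_sub_cancel]
      rw [Finset.sum_range_succ]
      congr 1
      · apply Finset.sum_congr rfl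
        intro i hi
        have := Finset.mem_range.mp hi
        simp only [show i < m + 1 by omega, show i + 1 < m + 1 by omega, show i + 1 ≤ m + 1 by omega, if_true]
      · simp
    simp only [show 0 < n by omega, Nat.zero_le, if_true]
    rw [hs, ← add_assoc, hA, hc, htn]
    rw [Nat.cast_add, Nat.cast_mul, Nat.cast_sub hc']
    ring

private theorem Tab2_StL.next {T A c c' : ℕ} (h : Tab2_StL T A c) (hT : 2 ≤ T) (hc' : c ≤ c')
    (hU' : U2 ((T : ℝ) / 50 - 51 / 50) ((c' : ℝ) / 10 ^ 8)) : Tab2_StL (T - 1) (A + (c' - c) * T) c' := by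
  obtain ⟨n, t, F, f₀, hn, ht, htn, ht0, hL, hU, hf0, hF, hc, hA⟩ := h
  have hT1 : ((T - 1 : ℕ) : ℝ) = (T : ℝ) - 1 := by
    rw [Nat.cast_sub (by omega)]; simp
  have hTr : (2 : ℝ) ≤ T := by exact_mod_cast hT
  refine ⟨n + 1, fun i => if i ≤ n then t i else ((T : ℝ) - 1) / 50, fun i => if i < n then F i else (c' : ℝ) / 10 ^ 8,
    f₀, by omega, ?_, ?_, ?_, ?_, ?_, ?_, ?_, ?_, ?_⟩
  · intro i hi
    rcases Nat.lt_or_ge i n with h | h
    · simp only [show i + 1 ≤ n by omega, show i ≤ n by omega, if_true]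
      exact ht i h
    · have : i = n := by omega
      subst this
      simp only [show ¬ (i + 1 ≤ i) by omega, le_refl, if_true, if_false]
      rw [htn]; linarith
  · simp only [show ¬ (n + 1 ≤ n) by omega, if_false, hT1]
  · simp only [show ¬ (n + 1 ≤ n) by omega, if_false]
    linarith
  · simpa using hL
  · intro i hi
    rcases Nat.lt_or_ge i n with h | h
    · simp only [show i + 1 ≤ n by omega, h, if_true]
      exact hU i h
    · have : i = n := by omega
      subst this
      simp only [show ¬ (i + 1 ≤ i) by omega, lt_irrefl, if_false]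
      have e : ((T : ℝ) - 1) / 50 - 1 = (T : ℝ) / 50 - 51 / 50 := by ring
      rw [e]; exact hU'
  · simp only [show 0 < n by omega, if_true]; exact hf0
  · intro i hi
    rcases Nat.lt_or_ge (i + 1) n with h | h
    · simp only [h, show i < n by omega, if_true]
      exact hF i h
    · have hin : n = i + 1 := by omega
      simp only [hin, lt_irrefl, show i < i + 1 by omega, if_true, if_false]
      have : F i = (c : ℝ) / 10 ^ 8 := by rw [← hc, hin]; simp
      rw [this]
      have : (c : ℝ) ≤ c' := by exact_mod_cast hc'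
      exact div_le_div_of_nonneg_right this (by norm_num)
  · simp
  · have hs : ∑ i ∈ range (n + 1 - 1), ((if i + 1 < n then F (i + 1) else (c' : ℝ) / 10 ^ 8) -
        (if i < n then F i else (c' : ℝ) / 10 ^ 8)) * (if i + 1 ≤ n then t (i + 1) else ((T : ℝ) - 1) / 50)
        = ∑ i ∈ range (n - 1), (F (i + 1) - F i) * t (i + 1) + ((c' : ℝ) / 10 ^ 8 - F (n - 1)) * t n := by
      obtain ⟨m, rfl⟩ : ∃ m, n = m + 1 := ⟨n - 1, by omega⟩
      simp only [Nat.add_sub_cancel]
      rw [Finset.sum_range_succ]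
      congr 1
      · apply Finset.sum_congr rfl
        intro i hi
        have := Finset.mem_range.mp hi
        simp only [show i < m + 1 by omega, show i + 1 < m + 1 by omega, show i + 1 ≤ m + 1 by omega, if_true]
      · simp
    simp only [show 0 < n by omega, Nat.zero_le, if_true]
    rw [hs, ← add_assoc, hA, hc, htn]
    rw [Nat.cast_add, Nat.cast_mul, Nat.cast_sub hc']
    ring

private theorem Tab2_StU.init {F0 c : ℕ} (hU : U2 14 ((F0 : ℝ) / 10 ^ 8)) (hc : c ≤ F0)
    (hL : L2 (649 / 50) ((c : ℝ) / 10 ^ 8)) : Tab2_StU 699 ((F0 - c) * 700) c := by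
  refine ⟨1, fun i => (700 - (i : ℝ)) / 50, fun _ => (c : ℝ) / 10 ^ 8, (F0 : ℝ) / 10 ^ 8, le_rfl, ?_, ?_, ?_, ?_, ?_,
    ?_, ?_, ?_, ?_⟩
  · intro i _; push_cast; linarith
  · norm_num
  · norm_num
  · norm_num; norm_num at hU; exact hU
  · intro i hi
    have : i = 0 := by omega
    subst this
    norm_num; norm_num at hL; exact hL
  · have : (c : ℝ) ≤ F0 := by exact_mod_cast hc
    exact div_le_div_of_nonneg_right this (by norm_num)
  · intro i _; exact le_rfl
  · rfl
  · simp only [Nat.sub_self, Finset.range_zero, Finset.sum_empty, Nat.cast_zero]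
    rw [Nat.cast_mul, Nat.cast_sub hc]
    push_cast
    ring

private theorem Tab2_StL.init {f0 c : ℕ} (hL : L2 14 ((f0 : ℝ) / 10 ^ 8)) (hc : f0 ≤ c)
    (hU : U2 (649 / 50) ((c : ℝ) / 10 ^ 8)) : Tab2_StL 699 ((c - f0) * 700) c := by
  refine ⟨1, fun i => (700 - (i : ℝ)) / 50, fun _ => (c : ℝ) / 10 ^ 8, (f0 : ℝ) / 10 ^ 8, le_rfl, ?_, ?_, ?_, ?_, ?_,
    ?_, ?_, ?_, ?_⟩
  · intro i _; push_cast; linarith
  · norm_num
  · norm_num
  · norm_num; norm_num at hL; exact hL
  · intro i hi
    have : i = 0 := by omega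
    subst this
    norm_num; norm_num at hU; exact hU
  · have : (f0 : ℝ) ≤ c := by exact_mod_cast hc
    exact div_le_div_of_nonneg_right this (by norm_num)
  · intro i _; exact le_rfl
  · rfl
  · simp only [Nat.sub_self, Finset.range_zero, Finset.sum_empty, Nat.cast_zero]
    rw [Nat.cast_mul, Nat.cast_sub hc]
    push_cast
    ring

private theorem Tab2_goU_ok : ∀ (Fs : List ℕ) (T A c : ℕ) (fs : List ℕ), T = Fs.length + 49 → Tab2_StU T A c →
    Tab2_OkL ((T : ℝ) / 50 - 51 / 50) fs → Tab2_OkU ((T : ℝ) / 50) Fs →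
    Tab2_OkU ((T : ℝ) / 50) (Tab2_goU T A c fs Fs) := by
  intro Fs
  induction Fs with
  | nil => intro T A c fs _ _ _ _; simp [Tab2_goU, Tab2_OkU]
  | cons F Fs ih =>
    intro T A c fs hT hS hL hU
    have hT1 : ((T - 1 : ℕ) : ℝ) = (T : ℝ) - 1 := by
      rw [Nat.cast_sub (by omega)]; simp
    refine ⟨?_, ?_⟩
    · rcases min_choice F ((10001 * A + 10000 * T - 1) / (10000 * T) + c) with h | h
      · rw [h]; exact hU.1
      · rw [h]; exact hS.out
    · have e1 : (T : ℝ) / 50 - 1 / 50 = ((T - 1 : ℕ) : ℝ) / 50 := by rw [hT1]; ring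
      have e2 : (T : ℝ) / 50 - 51 / 50 - 1 / 50 = ((T - 1 : ℕ) : ℝ) / 50 - 51 / 50 := by rw [hT1]; ring
      rw [e1]
      refine ih (T - 1) _ _ _ ?_ ?_ ?_ ?_
      · simp only [List.length_cons] at hT; omega
      · refine hS.next ?_ (min_le_left _ _) ?_
        · simp only [List.length_cons] at hT; omega
        · have h0 : L2 ((T : ℝ) / 50 - 51 / 50) (((fs.headD 0 : ℕ) : ℝ) / 10 ^ 8) := by
            cases fs with
            | nil => simpa using L2_zero ((T : ℝ) / 50 - 51 / 50)
            | cons a l => exact hL.1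
          refine h0.mono le_rfl ?_
          have : ((min c (fs.headD 0) : ℕ) : ℝ) ≤ (fs.headD 0 : ℕ) := by exact_mod_cast min_le_right _ _
          exact div_le_div_of_nonneg_right this (by norm_num)
      · cases fs with
        | nil => simp [Tab2_OkL]
        | cons a l => have := hL.2; rw [e2] at this; exact this
      · have := hU.2; rw [e1] at this; exact this

private theorem Tab2_goL_ok : ∀ (fs : List ℕ) (T A c : ℕ) (Fs : List ℕ), T = fs.length + 49 → Tab2_StL T A c →
    Tab2_OkU ((T : ℝ) / 50 - 51 / 50) Fs → Tab2_OkL ((T : ℝ) / 50) fs →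
    Tab2_OkL ((T : ℝ) / 50) (Tab2_goL T A c Fs fs) := by
  intro fs
  induction fs with
  | nil => intro T A c Fs _ _ _ _; simp [Tab2_goL, Tab2_OkL]
  | cons f fs ih =>
    intro T A c Fs hT hS hU hL
    have hT1 : ((T - 1 : ℕ) : ℝ) = (T : ℝ) - 1 := by
      rw [Nat.cast_sub (by omega)]; simp
    have hmax : L2 ((T : ℝ) / 50) (((max f (c - (10001 * A + 10000 * T - 1) / (10000 * T)) : ℕ) : ℝ) / 10 ^ 8) := by
      rcases max_choice f (c - (10001 * A + 10000 * T - 1) / (10000 * T)) with h | h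
      · rw [h]; exact hL.1
      · rw [h]; exact hS.out
    cases Fs with
    | nil => exact ⟨hmax, hL.2⟩
    | cons F Fs =>
      refine ⟨hmax, ?_⟩
      have e1 : (T : ℝ) / 50 - 1 / 50 = ((T - 1 : ℕ) : ℝ) / 50 := by rw [hT1]; ring
      have e2 : (T : ℝ) / 50 - 51 / 50 - 1 / 50 = ((T - 1 : ℕ) : ℝ) / 50 - 51 / 50 := by rw [hT1]; ring
      rw [e1]
      refine ih (T - 1) _ _ _ ?_ ?_ ?_ ?_
      · simp only [List.length_cons] at hT; omega
      · refine hS.next ?_ (le_max_left _ _) ?_
        · simp only [List.length_cons] at hT; omega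
        · refine hU.1.mono le_rfl ?_
          have : (F : ℝ) ≤ ((max c F : ℕ) : ℝ) := by exact_mod_cast le_max_right _ _
          exact div_le_div_of_nonneg_right this (by norm_num)
      · have := hU.2; rw [e2] at this; exact this
      · have := hL.2; rw [e1] at this; exact this

private theorem Tab2_goU_length : ∀ (Fs : List ℕ) (T A c : ℕ) (fs : List ℕ), (Tab2_goU T A c fs Fs).length = Fs.length := by
  intro Fs
  induction Fs with
  | nil => intro T A c fs; simp [Tab2_goU]
  | cons F Fs ih => intro T A c fs; simp [Tab2_goU, ih]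

private theorem Tab2_goL_length : ∀ (fs : List ℕ) (T A c : ℕ) (Fs : List ℕ), (Tab2_goL T A c Fs fs).length = fs.length := by
  intro fs
  induction fs with
  | nil => intro T A c Fs; simp [Tab2_goL]
  | cons f fs ih =>
    intro T A c Fs
    cases Fs with
    | nil => simp [Tab2_goL]
    | cons F Fs => simp [Tab2_goL, ih]

/-- valid states -/
private def Tab2_Ok (x : List ℕ × List ℕ) : Prop :=
  x.1.length = 651 ∧ x.2.length = 651 ∧ Tab2_OkU 14 x.1 ∧ Tab2_OkL 14 x.2

private theorem Tab2_it_ok {x : List ℕ × List ℕ} (h : Tab2_Ok x) : Tab2_Ok (Tab2_it x) := by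
  obtain ⟨hl1, hl2, hU, hL⟩ := h
  have hU0 : U2 14 (((x.1.headD 0 : ℕ) : ℝ) / 10 ^ 8) := by
    have := Tab2_OkU_get x.1 14 hU 0 (by omega)
    cases hx : x.1 with
    | nil => rw [hx] at hl1; simp at hl1
    | cons a l => rw [hx] at this; simpa using this
  have hL0 : L2 14 (((x.2.headD 0 : ℕ) : ℝ) / 10 ^ 8) := by
    have := Tab2_OkL_get x.2 14 hL 0
    cases hx : x.2 with
    | nil => rw [hx] at hl2; simp at hl2
    | cons a l => rw [hx] at this; simpa using this
  have hL51 : L2 (649 / 50) (((x.2.getD 51 0 : ℕ) : ℝ) / 10 ^ 8) := by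
    have := Tab2_OkL_get x.2 14 hL 51
    norm_num at this ⊢
    exact this
  have hU51 : U2 (649 / 50) (((x.1.getD 51 0 : ℕ) : ℝ) / 10 ^ 8) := by
    have := Tab2_OkU_get x.1 14 hU 51 (by omega)
    norm_num at this ⊢
    exact this
  refine ⟨?_, ?_, ⟨hU0, ?_⟩, ⟨hL0, ?_⟩⟩
  · simp [Tab2_it, Tab2_goU_length, hl1]
  · simp [Tab2_it, Tab2_goL_length, hl2]
  · have e : (14 : ℝ) - 1 / 50 = ((699 : ℕ) : ℝ) / 50 := by norm_num
    rw [e]
    refine Tab2_goU_ok _ _ _ _ _ ?_ ?_ ?_ ?_
    · simp [hl1]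
    · refine Tab2_StU.init hU0 (min_le_right _ _) ?_
      refine hL51.mono le_rfl ?_
      have : ((min (x.2.getD 51 0) (x.1.headD 0) : ℕ) : ℝ) ≤ (x.2.getD 51 0 : ℕ) := by
        exact_mod_cast min_le_left _ _
      exact div_le_div_of_nonneg_right this (by norm_num)
    · have := Tab2_OkL_drop 52 x.2 14 hL
      norm_num at this ⊢
      exact this
    · have := Tab2_OkU_drop 1 x.1 14 hU
      norm_num at this ⊢
      exact this
  · have e : (14 : ℝ) - 1 / 50 = ((699 : ℕ) : ℝ) / 50 := by norm_num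
    rw [e]
    refine Tab2_goL_ok _ _ _ _ _ ?_ ?_ ?_ ?_
    · simp [hl2]
    · refine Tab2_StL.init hL0 (le_max_right _ _) ?_
      refine hU51.mono le_rfl ?_
      have : ((x.1.getD 51 0 : ℕ) : ℝ) ≤ ((max (x.1.getD 51 0) (x.2.headD 0) : ℕ) : ℝ) := by
        exact_mod_cast le_max_left _ _
      exact div_le_div_of_nonneg_right this (by norm_num)
    · have := Tab2_OkU_drop 52 x.1 14 hU
      norm_num at this ⊢
      exact this
    · have := Tab2_OkL_drop 1 x.2 14 hL
      norm_num at this ⊢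
      exact this

private theorem Tab2_iter_ok : ∀ (k : ℕ) (x : List ℕ × List ℕ), Tab2_Ok x → Tab2_Ok (Tab2_iter k x) := by
  intro k
  induction k with
  | zero => intro x h; exact h
  | succ k ih => intro x h; exact ih _ (Tab2_it_ok h)

/-- initial upper values at `(T-1)/10, ..., ` -/
private def Tab2_iU : ℕ → List ℕ
  | 0 => []
  | n + 1 => (10001 * 100015 * 700 * 1000 + 10000 * (n + 50) - 1) / (10000 * (n + 50)) :: Tab2_iU n

private def Tab2_iL : ℕ → List ℕ
  | 0 => []
  | n + 1 => 0 :: Tab2_iL n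

private def Tab2_init : List ℕ × List ℕ := (100015000 :: Tab2_iU 650, 99985000 :: Tab2_iL 650)

private theorem Tab2_iU_ok : ∀ n : ℕ, n ≤ 650 → Tab2_OkU (((n : ℝ) + 49) / 50) (Tab2_iU n) := by
  intro n
  induction n with
  | zero => intro _; simp [Tab2_iU, Tab2_OkU]
  | succ n ih =>
    intro hn
    have e : (((n + 1 : ℕ) : ℝ) + 49) / 50 - 1 / 50 = ((n : ℝ) + 49) / 50 := by push_cast; ring
    refine ⟨?_, ?_⟩
    · have hnr : (n : ℝ) ≤ 649 := by exact_mod_cast (show n ≤ 649 by omega)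
      have hpos : (0 : ℝ) < (((n + 1 : ℕ) : ℝ) + 49) / 50 := by positivity
      have h := U2_ext hpos (by push_cast; linarith) (by norm_num) (U2_of_U1 U1_base)
      refine h.mono le_rfl ?_
      have h1 : 10001 * 100015 * 700 * 1000 ≤
          (10001 * 100015 * 700 * 1000 + 10000 * (n + 50) - 1) / (10000 * (n + 50)) * (10000 * (n + 50)) := by
        have h := Nat.div_add_mod (10001 * 100015 * 700 * 1000 + 10000 * (n + 50) - 1) (10000 * (n + 50))
        have h2 := Nat.mod_lt (10001 * 100015 * 700 * 1000 + 10000 * (n + 50) - 1) (show 0 < 10000 * (n + 50) by omega)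
        have h3 : 10000 * (n + 50) * ((10001 * 100015 * 700 * 1000 + 10000 * (n + 50) - 1) / (10000 * (n + 50))) =
          (10001 * 100015 * 700 * 1000 + 10000 * (n + 50) - 1) / (10000 * (n + 50)) * (10000 * (n + 50)) := mul_comm _ _
        omega
      have h2 : (10001 * 100015 * 700 * 1000 : ℝ) ≤
          (((10001 * 100015 * 700 * 1000 + 10000 * (n + 50) - 1) / (10000 * (n + 50)) : ℕ) : ℝ) * (10000 * (n + 50)) := by
        exact_mod_cast h1
      have hn10 : (0 : ℝ) < (n : ℝ) + 50 := by positivity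
      have e2 : 1.0001 * 1.00015 * 14 / ((((n + 1 : ℕ) : ℝ) + 49) / 50) =
          (10001 * 100015 * 700 * 1000) / (10000 * ((n : ℝ) + 50)) / 10 ^ 8 := by
        have : (((n + 1 : ℕ) : ℝ) + 49) = (n : ℝ) + 50 := by push_cast; ring
        rw [this]
        field_simp
        norm_num
      rw [e2]
      apply div_le_div_of_nonneg_right _ (by norm_num)
      rw [div_le_iff₀ (by positivity)]
      exact h2
    · rw [e]
      exact ih (by omega)

private theorem Tab2_iL_ok : ∀ (n : ℕ) (s : ℝ), Tab2_OkL s (Tab2_iL n) := by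
  intro n
  induction n with
  | zero => intro s; simp [Tab2_iL, Tab2_OkL]
  | succ n ih => intro s; exact ⟨by simpa using L2_zero s, ih _⟩

private theorem Tab2_init_ok : Tab2_Ok Tab2_init := by
  refine ⟨by decide +kernel, by decide +kernel, ⟨?_, ?_⟩, ⟨?_, Tab2_iL_ok _ _⟩⟩
  · have := U2_of_U1 U1_base
    norm_num at this ⊢
    exact this
  · have := Tab2_iU_ok 650 le_rfl
    norm_num at this ⊢
    exact this
  · have := L2_of_L1 L1_base
    norm_num at this ⊢
    exact this


private def Tab2_chk (x : List ℕ × List ℕ) : Bool :=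
  decide (99780000 ≤ x.2.getD 424 0) && (decide (x.1.getD 424 0 ≤ 100250000) &&
    (List.range 17).all (fun k => decide (x.1.getD (482 + 8 * k) 0 ≤ FT k * 1000)))

private theorem Tab2_comp : Tab2_chk (Tab2_iter 20 Tab2_init) = true := by
  decide +kernel

private theorem Tab2_comp' : 99780000 ≤ (Tab2_iter 20 Tab2_init).2.getD 424 0 ∧
    (Tab2_iter 20 Tab2_init).1.getD 424 0 ≤ 100250000 ∧
    ∀ k < 17, (Tab2_iter 20 Tab2_init).1.getD (482 + 8 * k) 0 ≤ FT k * 1000 := by
  have h := Tab2_comp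
  unfold Tab2_chk at h
  rw [Bool.and_eq_true, Bool.and_eq_true, decide_eq_true_iff, decide_eq_true_iff, List.all_eq_true] at h
  refine ⟨h.1, h.2.1, fun k hk => ?_⟩
  have := h.2.2 k (List.mem_range.2 hk)
  exact of_decide_eq_true this

private theorem Tab2_finL (i v : ℕ) (h : v ≤ (Tab2_iter 20 Tab2_init).2.getD i 0) :
    L2 (14 - i / 50) ((v : ℝ) / 10 ^ 8) := by
  have h1 := Tab2_OkL_get _ 14 (Tab2_iter_ok 20 _ Tab2_init_ok).2.2.2 i
  refine h1.mono le_rfl ?_
  have : (v : ℝ) ≤ (((Tab2_iter 20 Tab2_init).2.getD i 0 : ℕ) : ℝ) := by exact_mod_cast h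
  exact div_le_div_of_nonneg_right this (by norm_num)

private theorem Tab2_finU (i v : ℕ) (hi : i < 651) (h : (Tab2_iter 20 Tab2_init).1.getD i 0 ≤ v) :
    U2 (14 - i / 50) ((v : ℝ) / 10 ^ 8) := by
  have h0 := Tab2_iter_ok 20 _ Tab2_init_ok
  have h1 := Tab2_OkU_get _ 14 h0.2.2.1 i (by rw [h0.1]; exact hi)
  refine h1.mono le_rfl ?_
  have : (((Tab2_iter 20 Tab2_init).1.getD i 0 : ℕ) : ℝ) ≤ (v : ℝ) := by exact_mod_cast h
  exact div_le_div_of_nonneg_right this (by norm_num)

theorem tab_L : L2 5.52 0.9978 := by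
  have := Tab2_finL 424 99780000 Tab2_comp'.1
  norm_num at this ⊢
  exact this

theorem tab_UA : U2 5.52 1.0025 := by
  have := Tab2_finU 424 100250000 (by norm_num) Tab2_comp'.2.1
  norm_num at this ⊢
  exact this

theorem tab_U (k : ℕ) (hk : k < 17) : U2 (4.36 - 0.16 * k) ((FT k : ℝ) / 10 ^ 5) := by
  have h := Tab2_finU (482 + 8 * k) (FT k * 1000) (by omega) (Tab2_comp'.2.2 k hk)
  have e1 : (14 : ℝ) - ((482 + 8 * k : ℕ) : ℝ) / 50 = 4.36 - 0.16 * k := by
    push_cast
    norm_num
    ring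
  have e2 : (((FT k * 1000 : ℕ) : ℝ)) / 10 ^ 8 = (FT k : ℝ) / 10 ^ 5 := by
    push_cast
    ring
  rw [e1, e2] at h
  exact h

end Pool.Agent.H36.IS2
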