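import Pool.Agent.H36.IS2.Defs2
import Pool.Agent.H91.PK.SvC

/-!
# ISP VR2: Mertens ratio for primes > e^2400 with the constant 1.0001

Copy of `V_ratio` (and `V2_ratio`, `V1_lower`, `V_pos`) of Pool/Agent/H91/PK/SvC.lean with 24 replaced by 2400 and 1.01 by 1.0001:
`mass_big` (valid for a ≥ e^24) gives for a ≥ e^2400: ∑_{a < p ≤ z} 1/(p-1) ≤ log(log z/log a) + 0.2296/log a ≤ log(log z/log a) + 0.0000957,
and ∑ g1² ≤ tiny, so ∏ (1 - g1)^{-1} ≤ (log z/log a) e^{0.0000958} ≤ 1.0001 log z/log a.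
`BigP2 z P → BigP z P`.
-/

set_option autoImplicit false

namespace Pool.Agent.H36.IS2

open Finset Filter Pool.Agent.H36.IS

open Pool.Agent.H91.PK (ev Vg ZO Wt Up Lo g1 BigP U1 L1)

private theorem VR2_exp : Real.exp 24 ≤ Real.exp 2400 := Real.exp_le_exp.mpr (by norm_num)

theorem BigP2.big {z : ℝ} {P : Finset ℕ} (h : BigP2 z P) : BigP z P := by
  intro p hp
  exact ⟨(h p hp).1, lt_of_le_of_lt VR2_exp (h p hp).2.1, (h p hp).2.2⟩

/-- lower bound for `Vg g1` -/
private theorem VR2_lower {a z : ℝ} (ha : Real.exp 2400 ≤ a) (haz : a ≤ z) (P : Finset ℕ)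
    (hP : ∀ p ∈ P, p.Prime ∧ a < p ∧ (p : ℝ) ≤ z) :
    Real.log a / Real.log z ≤ 1.0001 * Vg g1 P := by
  have h0 : 0 < a := (Real.exp_pos _).trans_le ha
  have hla : 2400 ≤ Real.log a := by
    rw [Real.le_log_iff_exp_le h0]
    exact ha
  have ha24 : Real.exp 24 ≤ a := VR2_exp.trans ha
  have hlz : Real.log a ≤ Real.log z := Real.log_le_log h0 haz
  have hm := Pool.Agent.H91.PK.SvC_mass ha24 haz P hP
  have hsq : ∑ p ∈ P, g1 p ^ 2 ≤ ∑ p ∈ P, 1 / (((p : ℝ) - 1) * ((p : ℝ) - 2)) := by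
    refine Finset.sum_le_sum fun p hp => ?_
    have hp1 : (10 : ℝ) ^ 10 < p :=
      lt_of_le_of_lt (Pool.Agent.H91.PK.SvC_exp24.trans ha24) (hP p hp).2.1
    have h2 : 0 < (p : ℝ) - 1 := by linarith
    have h3 : 0 < (p : ℝ) - 2 := by linarith
    unfold g1
    rw [div_pow, one_pow, pow_two]
    apply div_le_div_of_nonneg_left (by norm_num) (by positivity)
    nlinarith
  have hn := Pool.Agent.H91.PK.SvC_nonneg ha24 P (fun p hp => (hP p hp).2.1)
  have hV := Pool.Agent.H91.PK.SvC_prod g1 P (fun p hp => by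
    have := Pool.Agent.H91.PK.SvC_g1_lt (lt_of_le_of_lt ha24 (hP p hp).2.1)
    exact ⟨this.1.le, by linarith⟩)
  have h1 : Real.exp (-(Real.log (Real.log z / Real.log a) + 0.2296 / 2400)) ≤ Vg g1 P := by
    refine le_trans (Real.exp_le_exp.mpr ?_) hV
    have : (0.2296 : ℝ) / Real.log a ≤ 0.2296 / 2400 :=
      div_le_div_of_nonneg_left (by norm_num) (by norm_num) hla
    linarith
  rw [neg_add, Real.exp_add, Real.exp_neg, Real.exp_log (div_pos (by linarith) (by linarith)),
    inv_div] at h1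
  have h2 : (1 : ℝ) - 0.2296 / 2400 ≤ Real.exp (-(0.2296 / 2400)) := by
    have := Real.add_one_le_exp (-(0.2296 / 2400) : ℝ)
    linarith
  have h3 : 0 < Real.log a / Real.log z := div_pos (by linarith) (by linarith)
  nlinarith

theorem V_ratio2 {a z : ℝ} (ha : 1 < a) (haz : a ≤ z) (P : Finset ℕ) (hP : BigP2 z P) :
    Vg g1 (P.filter (fun p : ℕ => (p : ℝ) ≤ a)) ≤ 1.0001 * (Real.log z / Real.log a) * Vg g1 P := by
  have hla : 0 < Real.log a := Real.log_pos ha
  have hlz : Real.log a ≤ Real.log z := Real.log_le_log (by linarith) haz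
  have hza : 1 ≤ Real.log z / Real.log a := by
    rw [one_le_div hla]
    exact hlz
  by_cases hz : z ≤ Real.exp 2400
  · have hPe : P = ∅ := by
      rw [Finset.eq_empty_iff_forall_notMem]
      intro p hp
      have := hP p hp
      linarith [this.2.1, this.2.2]
    subst hPe
    simp only [Finset.filter_empty, Vg, Finset.prod_empty, mul_one]
    linarith
  · push Not at hz
    set a' := max a (Real.exp 2400) with ha'
    have ha'z : a' ≤ z := max_le haz hz.le
    have ha'24 : Real.exp 2400 ≤ a' := le_max_right _ _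
    have ha'pos : 0 < a' := (Real.exp_pos _).trans_le ha'24
    have hfil : P.filter (fun p : ℕ => (p : ℝ) ≤ a) = P.filter (fun p : ℕ => (p : ℝ) ≤ a') := by
      apply Finset.filter_congr
      intro p hp
      constructor
      · intro h
        exact h.trans (le_max_left _ _)
      · intro h
        rcases le_max_iff.mp h with h | h
        · exact h
        · exact absurd h (not_le.mpr (hP p hp).2.1)
    rw [hfil]
    have hsplit : Vg g1 P = Vg g1 (P.filter (fun p : ℕ => (p : ℝ) ≤ a'))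
        * Vg g1 (P.filter (fun p : ℕ => ¬ (p : ℝ) ≤ a')) := by
      unfold Vg
      rw [Finset.prod_filter_mul_prod_filter_not]
    have hlow := VR2_lower ha'24 ha'z (P.filter (fun p : ℕ => ¬ (p : ℝ) ≤ a')) (by
      intro p hp
      rw [Finset.mem_filter, not_le] at hp
      exact ⟨(hP p hp.1).1, hp.2, (hP p hp.1).2.2⟩)
    have hpos : 0 < Vg g1 (P.filter (fun p : ℕ => (p : ℝ) ≤ a')) := by
      apply Pool.Agent.H91.PK.V_pos (z := z)
      intro p hp
      exact hP.big p (Finset.mem_filter.mp hp).1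
    rw [hsplit]
    have hla' : Real.log a ≤ Real.log a' := Real.log_le_log (by linarith) (le_max_left _ _)
    have hlz0 : 0 < Real.log z := by linarith
    have hkey : 1 ≤ 1.0001 * (Real.log z / Real.log a) *
        Vg g1 (P.filter (fun p : ℕ => ¬ (p : ℝ) ≤ a')) := by
      have e1 : Real.log a / Real.log z ≤
          1.0001 * Vg g1 (P.filter (fun p : ℕ => ¬ (p : ℝ) ≤ a')) :=
        (div_le_div_of_nonneg_right hla' hlz0.le).trans hlow
      have e2 : (Real.log z / Real.log a) * (Real.log a / Real.log z) = 1 := by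
        field_simp
      calc (1 : ℝ) = (Real.log z / Real.log a) * (Real.log a / Real.log z) := e2.symm
        _ ≤ (Real.log z / Real.log a) *
            (1.0001 * Vg g1 (P.filter (fun p : ℕ => ¬ (p : ℝ) ≤ a'))) :=
          mul_le_mul_of_nonneg_left e1 (by linarith)
        _ = _ := by ring
    calc Vg g1 (P.filter (fun p : ℕ => (p : ℝ) ≤ a'))
        = Vg g1 (P.filter (fun p : ℕ => (p : ℝ) ≤ a')) * 1 := (mul_one _).symm
      _ ≤ Vg g1 (P.filter (fun p : ℕ => (p : ℝ) ≤ a')) * (1.0001 * (Real.log z / Real.log a)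
          * Vg g1 (P.filter (fun p : ℕ => ¬ (p : ℝ) ≤ a'))) :=
          mul_le_mul_of_nonneg_left hkey hpos.le
      _ = _ := by ring

end Pool.Agent.H36.IS2
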